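import Mathlib

/-!
# The Cayley map
-/

set_option autoImplicit false

open Complex Filter Topology Metric Set

namespace Pool.Agent.E8helper79.PS

/-- boundary parametrisation of the circle by the real line -/
noncomputable def cay (x : ℝ) : ℂ := (1 + I * x) / (1 - I * x)

/-- the map from the disc to the half-plane -/
noncomputable def Phi (ζ : ℂ) : ℂ := I * (1 - ζ) / (1 + ζ)

lemma one_sub_I_ne (x : ℝ) : (1 - I * x : ℂ) ≠ 0 := by
  intro h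
  have := congrArg re h
  simp at this

lemma norm_one_add_I (x : ℝ) : ‖(1 + I * x : ℂ)‖ = ‖(1 - I * x : ℂ)‖ := by
  have : (1 - I * x : ℂ) = (starRingEnd ℂ) (1 + I * x) := by
    simp [sub_eq_add_neg]
  rw [this, norm_conj]

lemma norm_sq_one_sub_I (x : ℝ) : ‖(1 - I * x : ℂ)‖ ^ 2 = 1 + x ^ 2 := by
  rw [← normSq_eq_norm_sq, normSq_apply]
  simp
  ring

lemma cay_norm (x : ℝ) : ‖cay x‖ = 1 := by
  unfold cay
  rw [norm_div, norm_one_add_I, div_self]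
  exact norm_ne_zero_iff.2 (one_sub_I_ne x)

lemma cay_add_one (x : ℝ) : 1 + cay x = 2 / (1 - I * x) := by
  unfold cay
  have := one_sub_I_ne x
  field_simp
  ring

lemma cay_ne (x : ℝ) : cay x ≠ -1 := by
  intro h
  have h1 := cay_add_one x
  rw [h] at h1
  have h2 : (2:ℂ) / (1 - I * x) ≠ 0 := div_ne_zero (by norm_num) (one_sub_I_ne x)
  apply h2
  rw [← h1]
  ring

lemma Phi_cay (x : ℝ) : Phi (cay x) = x := by
  unfold Phi
  rw [cay_add_one]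
  unfold cay
  have h := one_sub_I_ne x
  field_simp
  ring_nf
  rw [I_sq]
  ring

lemma add_one_ne {ζ : ℂ} (h : ζ ≠ -1) : 1 + ζ ≠ 0 := by
  intro h1
  apply h
  linear_combination h1

lemma Phi_im {ζ : ℂ} (h : ζ ≠ -1) : (Phi ζ).im = (1 - ‖ζ‖ ^ 2) / ‖1 + ζ‖ ^ 2 := by
  have h1 := add_one_ne h
  unfold Phi
  rw [Complex.div_im, ← normSq_eq_norm_sq (1 + ζ), ← normSq_eq_norm_sq ζ]
  have h2 : normSq (1 + ζ) ≠ 0 := by
    rw [Ne, normSq_eq_zero]; exact h1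
  rw [← sub_div]
  congr 1
  rw [normSq_apply]
  simp
  ring

lemma Phi_im_nonneg {ζ : ℂ} (hζ : ‖ζ‖ ≤ 1) (h : ζ ≠ -1) : 0 ≤ (Phi ζ).im := by
  rw [Phi_im h]
  apply div_nonneg _ (by positivity)
  have := norm_nonneg ζ
  nlinarith

lemma Phi_real {ζ : ℂ} (hζ : ‖ζ‖ = 1) (h : ζ ≠ -1) : Phi ζ = ((Phi ζ).re : ℂ) := by
  apply Complex.ext
  · simp
  · rw [Phi_im h, hζ]; simp

lemma cay_Phi {ζ : ℂ} (hζ : ‖ζ‖ = 1) (h : ζ ≠ -1) : cay (Phi ζ).re = ζ := by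
  unfold cay
  rw [← Phi_real hζ h]
  have h1 := add_one_ne h
  have e1 : 1 + I * Phi ζ = 2 * ζ / (1 + ζ) := by
    unfold Phi
    field_simp
    ring_nf
    rw [I_sq]
    ring
  have e2 : 1 - I * Phi ζ = 2 / (1 + ζ) := by
    unfold Phi
    field_simp
    ring_nf
    rw [I_sq]
    ring
  rw [e1, e2]
  field_simp

lemma Phi_norm (ζ : ℂ) : ‖Phi ζ‖ = ‖1 - ζ‖ / ‖1 + ζ‖ := by
  unfold Phi
  rw [norm_div, norm_mul, norm_I, one_mul]

lemma cay_sub (x y : ℝ) : cay x - cay y = 2 * I * (x - y) / ((1 - I * x) * (1 - I * y)) := by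
  unfold cay
  have h1 := one_sub_I_ne x
  have h2 := one_sub_I_ne y
  field_simp
  ring

lemma one_le_norm (x : ℝ) : 1 ≤ ‖(1 - I * x : ℂ)‖ := by
  have := norm_sq_one_sub_I x
  nlinarith [norm_nonneg (1 - I * x : ℂ), sq_nonneg x]

lemma cay_sub_le (x y : ℝ) : ‖cay x - cay y‖ ≤ 2 * |x - y| := by
  rw [cay_sub, norm_div, norm_mul, norm_mul, norm_mul, norm_I, mul_one]
  have h1 : ‖((x:ℂ) - y)‖ = |x - y| := by
    rw [← ofReal_sub, norm_real, Real.norm_eq_abs]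
  rw [h1]
  have h2 : 1 ≤ ‖(1 - I * x : ℂ)‖ * ‖(1 - I * y : ℂ)‖ := by
    nlinarith [one_le_norm x, one_le_norm y]
  have h3 : ‖(2:ℂ)‖ = 2 := by simp
  rw [h3]
  exact div_le_self (by positivity) h2

lemma le_cay_sub {x y : ℝ} (hx : |x| ≤ 4) (hy : |y| ≤ 4) :
    |x - y| ≤ 17 / 2 * ‖cay x - cay y‖ := by
  rw [cay_sub, norm_div, norm_mul, norm_mul, norm_mul, norm_I, mul_one]
  have h1 : ‖((x:ℂ) - y)‖ = |x - y| := by
    rw [← ofReal_sub, norm_real, Real.norm_eq_abs]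
  rw [h1]
  have h3 : ‖(2:ℂ)‖ = 2 := by simp
  rw [h3]
  have hb : ∀ x : ℝ, |x| ≤ 4 → ‖(1 - I * x : ℂ)‖ ^ 2 ≤ 17 := by
    intro x hx
    rw [norm_sq_one_sub_I]
    have : x ^ 2 ≤ 4 ^ 2 := by
      rw [← sq_abs]
      gcongr
    linarith
  have h4 := hb x hx
  have h5 := hb y hy
  have h6 : ‖(1 - I * x : ℂ)‖ * ‖(1 - I * y : ℂ)‖ ≤ 17 := by
    nlinarith [sq_nonneg (‖(1 - I * x : ℂ)‖ - ‖(1 - I * y : ℂ)‖)]
  have h7 : 0 < ‖(1 - I * x : ℂ)‖ * ‖(1 - I * y : ℂ)‖ := by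
    have := one_le_norm x
    have := one_le_norm y
    positivity
  rw [mul_div_assoc', le_div_iff₀ h7]
  nlinarith [abs_nonneg (x - y)]

lemma Phi_norm_ge {ζ : ℂ} (h : ‖ζ + 1‖ < 2 / 3) (hne : ζ ≠ -1) : 2 ≤ ‖Phi ζ‖ := by
  rw [Phi_norm, le_div_iff₀ (norm_pos_iff.2 (add_one_ne hne))]
  have h1 : ‖(2:ℂ)‖ ≤ ‖1 - ζ‖ + ‖1 + ζ‖ := by
    have : (2:ℂ) = (1 - ζ) + (1 + ζ) := by ring
    rw [this]
    exact norm_add_le _ _
  have h3 : ‖(2:ℂ)‖ = 2 := by simp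
  rw [h3] at h1
  rw [add_comm ζ 1] at h
  linarith

lemma Phi_norm_le {ζ : ℂ} (hζ : ‖ζ‖ = 1) (h : 1 / 2 ≤ ‖ζ + 1‖) : |(Phi ζ).re| ≤ 4 := by
  refine (abs_re_le_norm _).trans ?_
  rw [add_comm ζ 1] at h
  rw [Phi_norm, div_le_iff₀ (by linarith)]
  have h1 : ‖1 - ζ‖ ≤ 2 := by
    refine (norm_sub_le _ _).trans ?_
    rw [norm_one, hζ]; norm_num
  linarith

lemma continuous_cay : Continuous cay := by
  unfold cay
  apply Continuous.div (by fun_prop) (by fun_prop)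
  exact one_sub_I_ne

lemma Phi_differentiableAt {ζ : ℂ} (h : ζ ≠ -1) : DifferentiableAt ℂ Phi ζ := by
  unfold Phi
  apply DifferentiableAt.fun_div (by fun_prop) (by fun_prop)
  exact add_one_ne h

end Pool.Agent.E8helper79.PS
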