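import Pool.Agent.E8helper79.PS.Lattice

/-!
# The cluster function: lattice plus bumps at its zeros
-/

set_option autoImplicit false

open Complex Finset

namespace Pool.Agent.E8helper79.PS

/-- the radius of the multiplier -/
noncomputable def rho (m n : ℕ) : ℝ := 2 * ((m:ℝ) + n)

/-- the multiplier -/
noncomputable def WW (m n : ℕ) (X : ℂ) : ℂ := (X ^ 2 - (rho m n : ℂ) ^ 2) / (rho m n : ℂ) ^ 2

/-- the part of the lattice sum with displaced points -/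
noncomputable def AD (m n : ℕ) (X : ℂ) : ℂ :=
  ∑ j ∈ (Icc (-((m:ℤ) + n)) ((m:ℤ) + n)).filter (fun j => ¬ |j| ≤ (m:ℤ)), term m n X j

/-- the derivative of `AD` -/
noncomputable def dAD (m n : ℕ) (X : ℂ) : ℂ :=
  - ∑ j ∈ (Icc (-((m:ℤ) + n)) ((m:ℤ) + n)).filter (fun j => ¬ |j| ≤ (m:ℤ)),
    (tau m n j : ℂ) / (X - pole m j) ^ 2

/-- the polynomial with the nodes as zeros -/
noncomputable def PP (m : ℕ) (X : ℂ) : ℂ := ∏ j ∈ Icc (-(m:ℤ)) (m:ℤ), (X - j)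

/-- its derivative -/
noncomputable def NN (m : ℕ) (X : ℂ) : ℂ :=
  ∑ j ∈ Icc (-(m:ℤ)) (m:ℤ), ∏ i ∈ (Icc (-(m:ℤ)) (m:ℤ)).erase j, (X - i)

/-- the size of the bumps -/
noncomputable def cc (κ : ℝ) : ℝ := κ ^ 2 / 10000

/-- the denominator of the bump function -/
noncomputable def DD (m n : ℕ) (κ : ℝ) (X : ℂ) : ℂ :=
  WW m n X * (PP m X * AD m n X + NN m X) + I * κ * PP m X

/-- the bump function -/
noncomputable def BB (m n : ℕ) (κ : ℝ) (X : ℂ) : ℂ := cc κ * PP m X / DD m n κ X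

lemma filter_eq (m n : ℕ) :
    (Icc (-((m:ℤ) + n)) ((m:ℤ) + n)).filter (fun j => |j| ≤ (m:ℤ)) = Icc (-(m:ℤ)) (m:ℤ) := by
  ext j
  simp only [mem_filter, mem_Icc, abs_le]
  omega

lemma term_node {m n : ℕ} (hn : 1 ≤ n) (X : ℂ) {j : ℤ} (hj : |j| ≤ (m:ℤ)) :
    term m n X j = 1 / (X - j) := by
  rw [term, tau_eq_one hn hj]
  simp [pole, yy, hj]

lemma AA_eq {m n : ℕ} (hn : 1 ≤ n) (X : ℂ) :
    AA m n X = ∑ j ∈ Icc (-(m:ℤ)) (m:ℤ), 1 / (X - j) + AD m n X := by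
  rw [AA, AD, ← sum_filter_add_sum_filter_not _ (fun j => |j| ≤ (m:ℤ)), filter_eq]
  congr 1
  apply sum_congr rfl
  intro j hj
  apply term_node hn
  rw [mem_Icc] at hj
  exact abs_le.2 hj

lemma dA_eq {m n : ℕ} (hn : 1 ≤ n) (X : ℂ) :
    dA m n X = - ∑ j ∈ Icc (-(m:ℤ)) (m:ℤ), 1 / (X - j) ^ 2 + dAD m n X := by
  rw [dA, dAD, ← sum_filter_add_sum_filter_not _ (fun j => |j| ≤ (m:ℤ)), filter_eq, neg_add]
  congr 2
  apply sum_congr rfl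
  intro j hj
  rw [mem_Icc] at hj
  have hj' : |j| ≤ (m:ℤ) := abs_le.2 hj
  rw [tau_eq_one hn hj']
  simp [pole, yy, hj']

lemma PP_ne {m : ℕ} {X : ℂ} (hX : ∀ j : ℤ, |j| ≤ (m:ℤ) → X ≠ j) : PP m X ≠ 0 := by
  rw [PP, prod_ne_zero_iff]
  intro j hj
  rw [mem_Icc] at hj
  exact sub_ne_zero.2 (hX j (abs_le.2 hj))

lemma NN_eq {m : ℕ} {X : ℂ} (hX : ∀ j : ℤ, |j| ≤ (m:ℤ) → X ≠ j) :
    NN m X = PP m X * ∑ j ∈ Icc (-(m:ℤ)) (m:ℤ), 1 / (X - j) := by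
  rw [NN, mul_sum]
  apply sum_congr rfl
  intro j hj
  have hj' := hj
  rw [mem_Icc] at hj'
  have hne : X - (j:ℂ) ≠ 0 := sub_ne_zero.2 (hX j (abs_le.2 hj'))
  rw [PP, ← mul_prod_erase _ _ hj]
  field_simp

lemma DD_eq {m n : ℕ} (hn : 1 ≤ n) (κ : ℝ) {X : ℂ} (hX : ∀ j : ℤ, |j| ≤ (m:ℤ) → X ≠ j) :
    DD m n κ X = PP m X * (WW m n X * AA m n X + I * κ) := by
  rw [DD, NN_eq hX, AA_eq hn]
  ring

lemma BB_eq {m n : ℕ} (hn : 1 ≤ n) (κ : ℝ) {X : ℂ} (hX : ∀ j : ℤ, |j| ≤ (m:ℤ) → X ≠ j) :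
    BB m n κ X = cc κ / (WW m n X * AA m n X + I * κ) := by
  rw [BB, DD_eq hn κ hX]
  have := PP_ne hX
  rw [mul_comm (cc κ : ℂ), mul_div_mul_left _ _ this]

/-! ### positivity -/

lemma pick_term {ρ : ℝ} {X b : ℂ} (hX : 0 ≤ X.im) {y β : ℝ} (hy : y = 0 ∨ y = 1)
    (hb : b = β - I * y) (hβ : |β| ≤ ρ / 2) (hne : X ≠ b) :
    -(3 * y) ≤ ((X ^ 2 - (ρ:ℂ) ^ 2) / (X - b)).im := by
  have hρ0 : 0 ≤ ρ := by have := abs_nonneg β; linarith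
  set P := X.re - β with hP
  set Q := X.im + y with hQ
  have hy0 : 0 ≤ y := by
    rcases hy with h | h
    · rw [h]
    · rw [h]; norm_num
  have hQ0 : y ≤ Q := by linarith
  have e1 : X - b = (P:ℂ) + Q * I := by
    rw [hb, hP, hQ]
    apply Complex.ext <;> simp
  have hn : 0 < P ^ 2 + Q ^ 2 := by
    rcases eq_or_ne P 0 with h | h
    · rcases eq_or_ne Q 0 with h' | h'
      · exfalso
        apply hne
        rw [h, h'] at e1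
        have : X - b = 0 := by simpa using e1
        exact sub_eq_zero.1 this
      · positivity
    · positivity
  have hβ2 : β ^ 2 ≤ ρ ^ 2 / 4 := by
    have h1 : |β| ^ 2 ≤ (ρ / 2) ^ 2 := by gcongr
    rw [sq_abs] at h1
    linarith
  have e2 : ((X ^ 2 - (ρ:ℂ) ^ 2) / (X - b)).im =
      (2 * X.re * X.im * P - (X.re ^ 2 - X.im ^ 2 - ρ ^ 2) * Q) / (P ^ 2 + Q ^ 2) := by
    rw [e1, Complex.div_im]
    have h3 : normSq ((P:ℂ) + Q * I) = P ^ 2 + Q ^ 2 := by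
      rw [normSq_add_mul_I]
    rw [h3]
    have h4 : (X ^ 2 - (ρ:ℂ) ^ 2).im = 2 * X.re * X.im := by
      simp [pow_two]
      ring
    have h5 : (X ^ 2 - (ρ:ℂ) ^ 2).re = X.re ^ 2 - X.im ^ 2 - ρ ^ 2 := by
      simp [pow_two]
    rw [h4, h5]
    simp
    ring
  rw [e2, le_div_iff₀ hn]
  have hxr : X.re = β + P := by rw [hP]; ring
  have hxi : X.im = Q - y := by rw [hQ]; ring
  rw [hxr, hxi]
  have key : 2 * (β + P) * (Q - y) * P - ((β + P) ^ 2 - (Q - y) ^ 2 - ρ ^ 2) * Q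
      - (-(3 * y) * (P ^ 2 + Q ^ 2)) =
      Q * (ρ ^ 2 - β ^ 2 + P ^ 2 + Q ^ 2 + y ^ 2) + y * (P ^ 2 + Q ^ 2) - 2 * β * P * y := by ring
  have h6 : 0 ≤ Q * (ρ ^ 2 - β ^ 2 + P ^ 2 + Q ^ 2 + y ^ 2) + y * (P ^ 2 + Q ^ 2) - 2 * β * P * y := by
    rcases hy with h | h
    · rw [h] at hQ0 ⊢
      have : 0 ≤ ρ ^ 2 - β ^ 2 := by nlinarith [sq_nonneg ρ]
      have : 0 ≤ Q * (ρ ^ 2 - β ^ 2 + P ^ 2 + Q ^ 2 + 0 ^ 2) := by positivity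
      linarith
    · rw [h] at hQ0 ⊢
      have h7 : 3 * β ^ 2 ≤ ρ ^ 2 - β ^ 2 := by linarith
      have h8 : 3 * β ^ 2 + P ^ 2 ≤ Q * (ρ ^ 2 - β ^ 2 + P ^ 2 + Q ^ 2 + 1 ^ 2) := by
        have : 3 * β ^ 2 + P ^ 2 ≤ ρ ^ 2 - β ^ 2 + P ^ 2 + Q ^ 2 + 1 ^ 2 := by nlinarith [sq_nonneg Q]
        have h9 : 0 ≤ ρ ^ 2 - β ^ 2 + P ^ 2 + Q ^ 2 + 1 ^ 2 := by nlinarith [sq_nonneg Q, sq_nonneg P, sq_nonneg β]
        nlinarith
      nlinarith [sq_nonneg (β - P), sq_nonneg (β + P), sq_nonneg Q]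
  linarith

end Pool.Agent.E8helper79.PS
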