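import Pool.Agent.E8helper79.PS.Cluster

/-!
# Positivity and nonvanishing for the cluster function
-/

set_option autoImplicit false

open Complex Finset

namespace Pool.Agent.E8helper79.PS

lemma sum_tau_yy (m n : ℕ) :
    ∑ j ∈ Icc (-((m:ℤ) + n)) ((m:ℤ) + n), tau m n j * yy m j ≤ 2 * n := by
  have h1 : ∑ j ∈ Icc (-((m:ℤ) + n)) ((m:ℤ) + n), tau m n j * yy m j ≤
      ∑ j ∈ Icc (-((m:ℤ) + n)) ((m:ℤ) + n), yy m j := by
    apply sum_le_sum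
    intro j _
    have := tau_le_one m n j
    have := yy_nonneg m j
    nlinarith
  refine h1.trans ?_
  have h2 : ∑ j ∈ Icc (-((m:ℤ) + n)) ((m:ℤ) + n), yy m j =
      ∑ j ∈ (Icc (-((m:ℤ) + n)) ((m:ℤ) + n)).filter (fun j => ¬ |j| ≤ (m:ℤ)), (1:ℝ) := by
    rw [sum_filter]
    apply sum_congr rfl
    intro j _
    unfold yy
    by_cases h : |j| ≤ (m:ℤ) <;> simp [h]
  rw [h2, sum_const, nsmul_eq_mul, mul_one]
  have h3 := card_filter_add_card_filter_not (s := Icc (-((m:ℤ) + n)) ((m:ℤ) + n))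
    (fun j => |j| ≤ (m:ℤ))
  rw [filter_eq] at h3
  rw [Int.card_Icc, Int.card_Icc] at h3
  have h4 : ((Icc (-((m:ℤ) + n)) ((m:ℤ) + n)).filter (fun j => ¬ |j| ≤ (m:ℤ))).card ≤ 2 * n := by
    omega
  exact_mod_cast h4

lemma rho_pos {m : ℕ} (n : ℕ) (hm : 1 ≤ m) : 0 < rho m n := by
  unfold rho
  have : (1:ℝ) ≤ m := by exact_mod_cast hm
  positivity

lemma WA_sum (m n : ℕ) (X : ℂ) : WW m n X * AA m n X =
    ∑ j ∈ Icc (-((m:ℤ) + n)) ((m:ℤ) + n),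
      ((tau m n j / rho m n ^ 2 : ℝ) : ℂ) * ((X ^ 2 - (rho m n : ℂ) ^ 2) / (X - pole m j)) := by
  rw [WW, AA, mul_sum]
  apply sum_congr rfl
  intro j _
  rw [term]
  push_cast
  ring

lemma WA_im {m n : ℕ} (hm : 1 ≤ m) {X : ℂ} (hX : 0 ≤ X.im)
    (hne : ∀ j : ℤ, |j| ≤ (m:ℤ) → X ≠ j) : -(1 / (m:ℝ)) * 2 ≤ (WW m n X * AA m n X).im := by
  rw [WA_sum, im_sum]
  have hρ := rho_pos n hm
  have hm' : (1:ℝ) ≤ m := by exact_mod_cast hm
  have h1 : ∀ j ∈ Icc (-((m:ℤ) + n)) ((m:ℤ) + n),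
      -(3 / rho m n ^ 2) * (tau m n j * yy m j) ≤
      (((tau m n j / rho m n ^ 2 : ℝ) : ℂ) * ((X ^ 2 - (rho m n : ℂ) ^ 2) / (X - pole m j))).im := by
    intro j hj
    rw [im_ofReal_mul]
    rw [mem_Icc] at hj
    have hjr : |(j:ℝ)| ≤ rho m n / 2 := by
      unfold rho
      have : |j| ≤ (m:ℤ) + n := abs_le.2 hj
      have : |(j:ℝ)| ≤ m + n := by exact_mod_cast this
      linarith
    have hy : yy m j = 0 ∨ yy m j = 1 := by unfold yy; split_ifs <;> simp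
    have hXne : X ≠ pole m j := by
      intro h
      by_cases h' : |j| ≤ (m:ℤ)
      · apply hne j h'
        rw [h]; simp [pole, yy, h']
      · have : (pole m j).im = -1 := by rw [pole_im]; simp [yy, h']
        rw [h, this] at hX
        linarith
    have := pick_term (ρ := rho m n) hX hy (b := pole m j) (β := j) (by simp [pole]) hjr hXne
    have h0 : 0 ≤ tau m n j / rho m n ^ 2 := div_nonneg (tau_nonneg m n j) (by positivity)
    calc -(3 / rho m n ^ 2) * (tau m n j * yy m j) = (tau m n j / rho m n ^ 2) * (-(3 * yy m j)) := by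
          ring
      _ ≤ _ := mul_le_mul_of_nonneg_left this h0
  refine le_trans ?_ (sum_le_sum h1)
  rw [← mul_sum]
  have h2 := sum_tau_yy m n
  have h3 : -(3 / rho m n ^ 2) * (2 * n) ≤ -(3 / rho m n ^ 2) *
      ∑ j ∈ Icc (-((m:ℤ) + n)) ((m:ℤ) + n), tau m n j * yy m j := by
    apply mul_le_mul_of_nonpos_left h2
    have : 0 ≤ 3 / rho m n ^ 2 := by positivity
    linarith
  refine le_trans ?_ h3
  unfold rho
  have hn0 : (0:ℝ) ≤ n := by positivity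
  have h4 : 3 / (2 * ((m:ℝ) + n)) ^ 2 * (2 * n) ≤ 1 / (m:ℝ) * 2 := by
    rw [div_mul_eq_mul_div, div_mul_eq_mul_div, div_le_div_iff₀ (by positivity) (by positivity)]
    nlinarith [sq_nonneg ((m:ℝ) - n)]
  linarith

lemma WA_im' {m n : ℕ} {κ : ℝ} (hm : 1 ≤ m) (hmκ : 4 / κ ≤ m) (hκ : 0 < κ) {X : ℂ} (hX : 0 ≤ X.im)
    (hne : ∀ j : ℤ, |j| ≤ (m:ℤ) → X ≠ j) : κ / 2 ≤ (WW m n X * AA m n X + I * κ).im := by
  have h := WA_im (n := n) hm hX hne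
  have hm' : (0:ℝ) < m := by exact_mod_cast hm
  have h1 : 1 / (m:ℝ) * 2 ≤ κ / 2 := by
    rw [div_le_iff₀ hκ] at hmκ
    rw [div_mul_eq_mul_div, div_le_div_iff₀ hm' (by norm_num)]
    linarith
  rw [add_im]
  have : (I * (κ:ℂ)).im = κ := by simp
  rw [this]
  linarith

lemma NN_node {m : ℕ} {j : ℤ} (hj : |j| ≤ (m:ℤ)) :
    NN m (j:ℂ) = ∏ i ∈ (Icc (-(m:ℤ)) (m:ℤ)).erase j, ((j:ℂ) - i) := by
  rw [NN]
  have hj' : j ∈ Icc (-(m:ℤ)) (m:ℤ) := by rw [mem_Icc]; exact abs_le.1 hj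
  rw [sum_eq_single j]
  · intro k hk hkj
    apply prod_eq_zero (i := j)
    · rw [mem_erase]; exact ⟨hkj.symm, hj'⟩
    · simp
  · intro h; exact absurd hj' h

lemma NN_node_ne {m : ℕ} {j : ℤ} (hj : |j| ≤ (m:ℤ)) : NN m (j:ℂ) ≠ 0 := by
  rw [NN_node hj, prod_ne_zero_iff]
  intro i hi
  rw [mem_erase] at hi
  rw [sub_ne_zero]
  exact_mod_cast hi.1.symm

lemma PP_node {m : ℕ} {j : ℤ} (hj : |j| ≤ (m:ℤ)) : PP m (j:ℂ) = 0 := by
  have hj' : j ∈ Icc (-(m:ℤ)) (m:ℤ) := by rw [mem_Icc]; exact abs_le.1 hj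
  rw [PP]
  exact prod_eq_zero hj' (by simp)

lemma WW_node {m n : ℕ} (hn : 1 ≤ n) {j : ℤ} (hj : |j| ≤ (m:ℤ)) : WW m n (j:ℂ) ≠ 0 := by
  have hρ : 0 < rho m n := by
    unfold rho
    have : (1:ℝ) ≤ n := by exact_mod_cast hn
    positivity
  rw [WW]
  apply div_ne_zero
  · have h1 : |(j:ℝ)| < rho m n := by
      unfold rho
      have h1 : |(j:ℝ)| ≤ m := by exact_mod_cast hj
      have : (1:ℝ) ≤ n := by exact_mod_cast hn
      have h2 : (0:ℝ) ≤ m := by positivity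
      linarith
    have h2 : (j:ℝ) ^ 2 < rho m n ^ 2 := by
      rw [← sq_abs (j:ℝ)]
      gcongr
    have h3 : (j:ℝ) ^ 2 - rho m n ^ 2 ≠ 0 := by linarith
    intro h
    apply h3
    exact_mod_cast h
  · exact_mod_cast (by positivity : rho m n ^ 2 ≠ 0)

lemma DD_node {m n : ℕ} (κ : ℝ) {j : ℤ} (hj : |j| ≤ (m:ℤ)) :
    DD m n κ (j:ℂ) = WW m n (j:ℂ) * NN m (j:ℂ) := by
  rw [DD, PP_node hj]; ring

lemma DD_ne {m n : ℕ} {κ : ℝ} (hm : 1 ≤ m) (hn : 1 ≤ n) (hmκ : 4 / κ ≤ m) (hκ : 0 < κ) {X : ℂ}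
    (hX : 0 ≤ X.im) : DD m n κ X ≠ 0 := by
  by_cases h : ∃ j : ℤ, |j| ≤ (m:ℤ) ∧ X = j
  · obtain ⟨j, hj, rfl⟩ := h
    rw [DD_node κ hj]
    exact mul_ne_zero (WW_node hn hj) (NN_node_ne hj)
  · push Not at h
    rw [DD_eq hn κ h]
    apply mul_ne_zero (PP_ne h)
    intro h0
    have := WA_im' (n := n) hm hmκ hκ hX h
    rw [h0] at this
    simp at this
    linarith

lemma BB_im {m n : ℕ} {κ : ℝ} (hm : 1 ≤ m) (hn : 1 ≤ n) (hmκ : 4 / κ ≤ m) (hκ : 0 < κ) {X : ℂ}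
    (hX : 0 ≤ X.im) : (BB m n κ X).im ≤ 0 := by
  by_cases h : ∃ j : ℤ, |j| ≤ (m:ℤ) ∧ X = j
  · obtain ⟨j, hj, rfl⟩ := h
    rw [BB, PP_node hj]
    simp
  · push Not at h
    rw [BB_eq hn κ h]
    have h1 := WA_im' (n := n) hm hmκ hκ hX h
    have h2 : 0 ≤ cc κ := by unfold cc; positivity
    rw [div_eq_mul_inv, im_ofReal_mul, Complex.inv_im]
    have h3 : - (WW m n X * AA m n X + I * κ).im / normSq (WW m n X * AA m n X + I * κ) ≤ 0 := by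
      apply div_nonpos_of_nonpos_of_nonneg _ (normSq_nonneg _)
      linarith
    nlinarith

lemma term_im {m n : ℕ} {X : ℂ} (hX : 0 ≤ X.im) (j : ℤ) : (term m n X j).im ≤ 0 := by
  rw [term, div_eq_mul_inv, im_ofReal_mul, Complex.inv_im]
  have h1 := tau_nonneg m n j
  have h3 : - (X - pole m j).im / normSq (X - pole m j) ≤ 0 := by
    apply div_nonpos_of_nonpos_of_nonneg _ (normSq_nonneg _)
    rw [sub_im, pole_im]
    have := yy_nonneg m j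
    linarith
  nlinarith

lemma AD_im {m n : ℕ} {X : ℂ} (hX : 0 ≤ X.im) : (AD m n X).im ≤ 0 := by
  rw [AD, im_sum]
  exact sum_nonpos (fun j _ => term_im hX j)

lemma AA_im {m n : ℕ} {X : ℂ} (hX : 0 ≤ X.im) : (AA m n X).im ≤ 0 := by
  rw [AA, im_sum]
  exact sum_nonpos (fun j _ => term_im hX j)

/-! ### analyticity -/

lemma analyticAt_PP (m : ℕ) (X : ℂ) : AnalyticAt ℂ (PP m) X := by
  unfold PP
  apply Finset.analyticAt_fun_prod
  intro j _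
  fun_prop

lemma analyticAt_NN (m : ℕ) (X : ℂ) : AnalyticAt ℂ (NN m) X := by
  unfold NN
  apply Finset.analyticAt_fun_sum
  intro j _
  apply Finset.analyticAt_fun_prod
  intro j _
  fun_prop

lemma analyticAt_WW (m n : ℕ) (X : ℂ) : AnalyticAt ℂ (WW m n) X := by
  unfold WW
  fun_prop

lemma analyticAt_AD {m n : ℕ} {X : ℂ} (hX : ∀ j : ℤ, ¬ |j| ≤ (m:ℤ) → |j| ≤ (m:ℤ) + n → X ≠ pole m j) :
    AnalyticAt ℂ (AD m n) X := by
  unfold AD
  apply Finset.analyticAt_fun_sum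
  intro j hj
  rw [mem_filter, mem_Icc] at hj
  unfold term
  apply AnalyticAt.div
  · fun_prop
  · fun_prop
  · exact sub_ne_zero.2 (hX j hj.2 (abs_le.2 hj.1))

lemma pole_ne {m : ℕ} {X : ℂ} (hX : 0 ≤ X.im) (j : ℤ) (hj : ¬ |j| ≤ (m:ℤ)) : X ≠ pole m j := by
  intro h
  have : (pole m j).im = -1 := by rw [pole_im]; simp [yy, hj]
  rw [h, this] at hX
  linarith

lemma analyticAt_DD {m n : ℕ} (κ : ℝ) {X : ℂ} (hX : AnalyticAt ℂ (AD m n) X) :
    AnalyticAt ℂ (DD m n κ) X := by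
  unfold DD
  exact ((analyticAt_WW m n X).mul (((analyticAt_PP m X).mul hX).add (analyticAt_NN m X))).add
    (analyticAt_const.mul (analyticAt_PP m X))

lemma analyticAt_BB {m n : ℕ} {κ : ℝ} {X : ℂ} (hX : AnalyticAt ℂ (AD m n) X)
    (hD : DD m n κ X ≠ 0) : AnalyticAt ℂ (BB m n κ) X := by
  unfold BB
  exact (analyticAt_const.mul (analyticAt_PP m X)).div (analyticAt_DD κ hX) hD

end Pool.Agent.E8helper79.PS
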