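import Pool.Agent.E8helper79.PS.Cluster2

/-!
# The cluster function on the real line
-/

set_option autoImplicit false

open Complex Finset Filter Topology

namespace Pool.Agent.E8helper79.PS

/-- the full cluster function -/
noncomputable def GG (m n : ℕ) (κ : ℝ) (X : ℂ) : ℂ := AA m n X + BB m n κ X

/-- the multiplied function -/
noncomputable def RR (m n : ℕ) (κ : ℝ) (X : ℂ) : ℂ := WW m n X * AA m n X + I * κ

/-- the derivative of `RR` -/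
noncomputable def dR (m n : ℕ) (X : ℂ) : ℂ :=
  2 * X / (rho m n : ℂ) ^ 2 * AA m n X + WW m n X * dA m n X

lemma hasDerivAt_AA {m n : ℕ} {X : ℂ} (hX : ∀ j : ℤ, |j| ≤ (m:ℤ) + n → X ≠ pole m j) :
    HasDerivAt (AA m n) (dA m n X) X := by
  have h : HasDerivAt (fun X => ∑ j ∈ Icc (-((m:ℤ) + n)) ((m:ℤ) + n), term m n X j)
      (∑ j ∈ Icc (-((m:ℤ) + n)) ((m:ℤ) + n), - ((tau m n j : ℂ) / (X - pole m j) ^ 2)) X := by
    apply HasDerivAt.fun_sum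
    intro j hj
    rw [mem_Icc] at hj
    have hne : X - pole m j ≠ 0 := sub_ne_zero.2 (hX j (abs_le.2 hj))
    unfold term
    have h1 : HasDerivAt (fun X : ℂ => X - pole m j) 1 X := (hasDerivAt_id X).sub_const _
    have h2 := (hasDerivAt_const X (tau m n j : ℂ)).div h1 hne
    exact h2.congr_deriv (by ring)
  rw [sum_neg_distrib] at h
  exact h

lemma real_ne_pole {m : ℕ} {x : ℝ} (hx : ∀ j : ℤ, |j| ≤ (m:ℤ) → x ≠ j) (j : ℤ) :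
    (x:ℂ) ≠ pole m j := by
  intro h
  by_cases h' : |j| ≤ (m:ℤ)
  · apply hx j h'
    have : pole m j = ((j:ℝ):ℂ) := by simp [pole, yy, h']
    rw [this] at h
    exact_mod_cast h
  · exact pole_ne (X := (x:ℂ)) (by simp) j h' h

lemma eventually_nonnode {m : ℕ} {X : ℂ} (hX : ∀ j : ℤ, |j| ≤ (m:ℤ) → X ≠ j) :
    ∀ᶠ Y : ℂ in 𝓝 X, ∀ j : ℤ, |j| ≤ (m:ℤ) → Y ≠ j := by
  have h1 : ∀ᶠ Y in 𝓝 X, PP m Y ≠ 0 :=
    (analyticAt_PP m X).continuousAt.eventually_ne (PP_ne hX)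
  filter_upwards [h1] with Y hY j hj h
  apply hY
  rw [h]
  exact PP_node hj

lemma hasDerivAt_WW (m n : ℕ) (X : ℂ) : HasDerivAt (WW m n) (2 * X / (rho m n : ℂ) ^ 2) X := by
  unfold WW
  have h1 : HasDerivAt (fun X : ℂ => X ^ 2 - (rho m n : ℂ) ^ 2) (2 * X) X := by
    have := (hasDerivAt_pow 2 X).sub_const ((rho m n : ℂ) ^ 2)
    simpa using this
  exact h1.div_const _

lemma hasDerivAt_RR {m n : ℕ} (κ : ℝ) {X : ℂ} (hX : ∀ j : ℤ, |j| ≤ (m:ℤ) + n → X ≠ pole m j) :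
    HasDerivAt (RR m n κ) (dR m n X) X := by
  unfold RR dR
  exact ((hasDerivAt_WW m n X).mul (hasDerivAt_AA hX)).add_const _

lemma BB_eventually {m n : ℕ} (hn : 1 ≤ n) (κ : ℝ) {X : ℂ} (hX : ∀ j : ℤ, |j| ≤ (m:ℤ) → X ≠ j) :
    BB m n κ =ᶠ[𝓝 X] fun Y => cc κ / RR m n κ Y := by
  filter_upwards [eventually_nonnode hX] with Y hY
  exact BB_eq hn κ hY

lemma hasDerivAt_BB {m n : ℕ} (hn : 1 ≤ n) (κ : ℝ) {X : ℂ}
    (hX : ∀ j : ℤ, |j| ≤ (m:ℤ) + n → X ≠ pole m j)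
    (hX' : ∀ j : ℤ, |j| ≤ (m:ℤ) → X ≠ j) (hR : RR m n κ X ≠ 0) :
    HasDerivAt (BB m n κ) (-(cc κ * dR m n X / RR m n κ X ^ 2)) X := by
  refine HasDerivAt.congr_of_eventuallyEq ?_ (BB_eventually hn κ hX')
  have := (hasDerivAt_const X (cc κ : ℂ)).div (hasDerivAt_RR κ hX) hR
  exact this.congr_deriv (by ring)

lemma ar_c1 {κ R : ℝ} (hκ : 0 < κ) (h : κ / 2 ≤ R) : κ ^ 2 / 10000 ≤ κ / 5000 * R := by nlinarith

lemma ar_c2 {c a b : ℝ} (hc : 0 ≤ c) (h : a ≤ b) : c * (-b) ≤ -(c * a) := by nlinarith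

lemma ar_c3 {κ W A : ℝ} (hW : W ≤ 2500) (hA : 0 ≤ A) (h : κ < W * A) : κ ≤ 2500 * A := by nlinarith

lemma ar_c4 (κ : ℝ) {a b : ℝ} (ha : 0 ≤ a) :
    (κ ^ 2 / 10000) * (50 * a + 2500 * b) ≤ (a + b) * (κ / 2) ^ 2 := by
  nlinarith [mul_nonneg (sq_nonneg κ) ha]

lemma ar_c5 {a b D : ℝ} (h : b ≤ 2 * a ^ 2 + D) :
    b + (a + b) ≤ 5 * a ^ 2 + (2 * D + 1) := by
  nlinarith [sq_nonneg (a - 1)]

lemma ar_c6 {κ : ℝ} (hκ : 0 < κ) (hκ1 : κ ≤ 1) : (1445:ℝ) ≤ (80000 / κ) ^ 2 := by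
  have : (80000:ℝ) ≤ 80000 / κ := by
    rw [le_div_iff₀ hκ]; linarith
  nlinarith

lemma ar_c7 {G T : ℝ} (hT : 1445 ≤ T) : 5 * (17 * G) ^ 2 ≤ T * G ^ 2 := by
  nlinarith [sq_nonneg G]

lemma ar_c8 {D T : ℝ} (hT : 1 ≤ T) (hD : 17 ≤ D) : (2 * D + 1) ≤ (2 * D + 1) * T := by nlinarith

section real

variable {m n : ℕ} {κ : ℝ} {x : ℝ}

lemma RR_ge (hm : 1 ≤ m) (hmκ : 4 / κ ≤ m) (hκ : 0 < κ)
    (hx : ∀ j : ℤ, |j| ≤ (m:ℤ) → x ≠ j) : κ / 2 ≤ (RR m n κ x).im := by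
  apply WA_im' hm hmκ hκ (by simp)
  intro j hj h
  apply hx j hj
  have : (x:ℂ) = ((j:ℝ):ℂ) := by rw [h]; simp
  exact_mod_cast this

lemma RR_norm_ge (hm : 1 ≤ m) (hmκ : 4 / κ ≤ m) (hκ : 0 < κ)
    (hx : ∀ j : ℤ, |j| ≤ (m:ℤ) → x ≠ j) : κ / 2 ≤ ‖RR m n κ x‖ := by
  have h1 := RR_ge (n := n) hm hmκ hκ hx
  have h2 := abs_im_le_norm (RR m n κ x)
  have h3 := le_abs_self (RR m n κ x).im
  linarith

lemma WW_le (hm : 1 ≤ m) (hx : |x| ≤ 100 * m) : ‖WW m n x‖ ≤ 2500 := by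
  have hρ := rho_pos n hm
  have h1 : WW m n x = (((x ^ 2 - rho m n ^ 2) / rho m n ^ 2 : ℝ) : ℂ) := by
    rw [WW]; push_cast; ring
  rw [h1, norm_real, Real.norm_eq_abs, abs_div, abs_of_pos (by positivity : 0 < rho m n ^ 2),
    div_le_iff₀ (by positivity)]
  have h2 : x ^ 2 ≤ (100 * m) ^ 2 := by
    rw [← sq_abs]
    gcongr
  have h3 : (2 * (m:ℝ)) ^ 2 ≤ rho m n ^ 2 := by
    unfold rho
    have : (0:ℝ) ≤ n := by positivity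
    gcongr
    linarith
  rw [abs_le]
  constructor <;> nlinarith [sq_nonneg x]

lemma dW_le (hm : 1 ≤ m) (hx : |x| ≤ 100 * m) : ‖2 * (x:ℂ) / (rho m n : ℂ) ^ 2‖ ≤ 50 := by
  have hρ := rho_pos n hm
  have hm' : (1:ℝ) ≤ m := by exact_mod_cast hm
  have h1 : 2 * (x:ℂ) / (rho m n : ℂ) ^ 2 = ((2 * x / rho m n ^ 2 : ℝ) : ℂ) := by push_cast; ring
  rw [h1, norm_real, Real.norm_eq_abs, abs_div, abs_mul, abs_of_pos (by positivity : 0 < rho m n ^ 2),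
    div_le_iff₀ (by positivity)]
  have h3 : (2 * (m:ℝ)) ^ 2 ≤ rho m n ^ 2 := by
    unfold rho
    have : (0:ℝ) ≤ n := by positivity
    gcongr
    linarith
  have h4 : |(2:ℝ)| = 2 := by norm_num
  rw [h4]
  nlinarith

/-- lower bound for the cluster function -/
lemma GG_ge (hm : 1 ≤ m) (hn : 1 ≤ n) (hmκ : 4 / κ ≤ m) (hκ : 0 < κ)
    (hxm : |x| ≤ 100 * m) (hx : ∀ j : ℤ, |j| ≤ (m:ℤ) → x ≠ j) :
    κ / 80000 ≤ ‖GG m n κ x‖ ∧ ‖BB m n κ x‖ ≤ κ / 5000 := by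
  have hx' : ∀ j : ℤ, |j| ≤ (m:ℤ) → (x:ℂ) ≠ j := by
    intro j hj h
    apply hx j hj
    have : (x:ℂ) = ((j:ℝ):ℂ) := by rw [h]; simp
    exact_mod_cast this
  have hB : BB m n κ x = cc κ / RR m n κ x := BB_eq hn κ hx'
  have hRi := RR_ge (n := n) hm hmκ hκ hx
  have hRn := RR_norm_ge (n := n) hm hmκ hκ hx
  have hRpos : 0 < ‖RR m n κ x‖ := lt_of_lt_of_le (by positivity) hRn
  have hc : 0 < cc κ := by unfold cc; positivity
  have hBn : ‖BB m n κ x‖ ≤ κ / 5000 := by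
    rw [hB, norm_div, norm_real, Real.norm_eq_abs, abs_of_pos hc, div_le_iff₀ hRpos]
    unfold cc
    exact ar_c1 hκ hRn
  refine ⟨?_, hBn⟩
  by_cases hR : ‖WW m n x * AA m n x‖ ≤ κ
  · -- the bump is large
    have h1 : ‖RR m n κ x‖ ≤ 2 * κ := by
      unfold RR
      refine (norm_add_le _ _).trans ?_
      rw [norm_mul I, norm_I, norm_real, Real.norm_eq_abs, abs_of_pos hκ]
      linarith
    have h2 : (BB m n κ x).im ≤ - (κ / 80000) := by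
      rw [hB, div_eq_mul_inv, im_ofReal_mul, Complex.inv_im, normSq_eq_norm_sq]
      have h3 : κ / 2 / (2 * κ) ^ 2 ≤ (RR m n κ x).im / ‖RR m n κ x‖ ^ 2 := by
        apply div_le_div₀ (by linarith) hRi (by positivity)
        gcongr
      rw [neg_div]
      have h4 : cc κ * (κ / 2 / (2 * κ) ^ 2) = κ / 80000 := by
        unfold cc
        field_simp
        norm_num
      rw [← h4]
      exact ar_c2 hc.le h3
    have h5 : (AA m n x).im ≤ 0 := AA_im (by simp)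
    have h6 := abs_im_le_norm (GG m n κ x)
    have h7 : (GG m n κ x).im ≤ - (κ / 80000) := by
      unfold GG
      rw [add_im]
      linarith
    have h8 := neg_abs_le (GG m n κ x).im
    linarith
  · push Not at hR
    have hW := WW_le (n := n) hm hxm
    rw [norm_mul] at hR
    have h1 : κ ≤ 2500 * ‖AA m n x‖ := ar_c3 hW (norm_nonneg _) hR
    have h2 : ‖AA m n x‖ ≤ ‖GG m n κ x‖ + ‖BB m n κ x‖ := by
      have : AA m n x = GG m n κ x - BB m n κ x := by unfold GG; ring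
      rw [this]
      exact norm_sub_le _ _
    linarith

lemma GG_deriv_le (hm : 1 ≤ m) (hn : 1 ≤ n) (hmκ : 4 / κ ≤ m) (hκ : 0 < κ) (hκ1 : κ ≤ 1)
    (hxm : |x| ≤ 100 * m) (hx : ∀ j : ℤ, |j| ≤ (m:ℤ) → x ≠ j) {D : ℝ}
    (hD : 2 * (28 + 2 * Real.log ((2 * (m + n) : ℕ) / n)) ^ 2 + 17 ≤ D) :
    ‖deriv (GG m n κ) x‖ ≤ 80000 ^ 2 * (2 * D + 2) / κ ^ 2 * ‖GG m n κ x‖ ^ 2 := by
  obtain ⟨hG, hB⟩ := GG_ge (n := n) hm hn hmκ hκ hxm hx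
  have hx' : ∀ j : ℤ, |j| ≤ (m:ℤ) → (x:ℂ) ≠ j := by
    intro j hj h
    apply hx j hj
    have : (x:ℂ) = ((j:ℝ):ℂ) := by rw [h]; simp
    exact_mod_cast this
  have hxp : ∀ j : ℤ, |j| ≤ (m:ℤ) + n → (x:ℂ) ≠ pole m j := fun j _ => real_ne_pole hx j
  have hRn := RR_norm_ge (n := n) hm hmκ hκ hx
  have hRpos : 0 < ‖RR m n κ x‖ := lt_of_lt_of_le (by positivity) hRn
  have hRne : RR m n κ x ≠ 0 := norm_pos_iff.1 hRpos
  have hd : HasDerivAt (GG m n κ) (dA m n x + -(cc κ * dR m n x / RR m n κ x ^ 2)) x :=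
    (hasDerivAt_AA hxp).add (hasDerivAt_BB hn κ hxp hx' hRne)
  rw [hd.deriv]
  have hdA := dA_le (m := m) hn x hx
  have hdA' : ‖dA m n x‖ ≤ 2 * ‖AA m n x‖ ^ 2 + D := hdA.trans (by linarith)
  have hD0 : 17 ≤ D := by
    have : 0 ≤ 2 * (28 + 2 * Real.log ((2 * (m + n) : ℕ) / n)) ^ 2 := by positivity
    linarith
  have hA : ‖AA m n x‖ ≤ 17 * ‖GG m n κ x‖ := by
    have h2 : ‖AA m n x‖ ≤ ‖GG m n κ x‖ + ‖BB m n κ x‖ := by
      have : AA m n x = GG m n κ x - BB m n κ x := by unfold GG; ring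
      rw [this]
      exact norm_sub_le _ _
    linarith
  have hdR : ‖dR m n x‖ ≤ 50 * ‖AA m n x‖ + 2500 * ‖dA m n x‖ := by
    unfold dR
    refine (norm_add_le _ _).trans ?_
    rw [norm_mul, norm_mul (WW m n x)]
    have h1 := dW_le (n := n) hm hxm
    have h2 := WW_le (n := n) hm hxm
    gcongr
  have hc : 0 < cc κ := by unfold cc; positivity
  have hdB : ‖cc κ * dR m n x / RR m n κ x ^ 2‖ ≤ ‖AA m n x‖ + ‖dA m n x‖ := by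
    rw [norm_div, norm_mul, norm_pow, norm_real, Real.norm_eq_abs, abs_of_pos hc,
      div_le_iff₀ (by positivity)]
    have h1 : (κ / 2) ^ 2 ≤ ‖RR m n κ x‖ ^ 2 := by gcongr
    have h2 : cc κ * ‖dR m n x‖ ≤ (κ ^ 2 / 10000) * (50 * ‖AA m n x‖ + 2500 * ‖dA m n x‖) := by
      unfold cc
      gcongr
    have h3 : (κ ^ 2 / 10000) * (50 * ‖AA m n x‖ + 2500 * ‖dA m n x‖) ≤
        (‖AA m n x‖ + ‖dA m n x‖) * (κ / 2) ^ 2 := ar_c4 κ (norm_nonneg _)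
    refine h2.trans (h3.trans ?_)
    gcongr
  have htot : ‖dA m n x + -(cc κ * dR m n x / RR m n κ x ^ 2)‖ ≤
      5 * ‖AA m n x‖ ^ 2 + (2 * D + 1) := by
    refine (norm_add_le _ _).trans ?_
    rw [norm_neg]
    have := ar_c5 hdA'
    linarith
  refine htot.trans ?_
  have h1 : ‖AA m n x‖ ^ 2 ≤ (17 * ‖GG m n κ x‖) ^ 2 := by gcongr
  have h2 : (1:ℝ) ≤ (80000 / κ) ^ 2 * ‖GG m n κ x‖ ^ 2 := by
    rw [← mul_pow]
    apply one_le_pow₀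
    rw [div_mul_eq_mul_div, le_div_iff₀ hκ]
    linarith
  have h3 : (1445:ℝ) ≤ (80000 / κ) ^ 2 := ar_c6 hκ hκ1
  have h4 : 5 * (17 * ‖GG m n κ x‖) ^ 2 ≤ (80000 / κ) ^ 2 * ‖GG m n κ x‖ ^ 2 := ar_c7 h3
  have h5 : (2 * D + 1) ≤ (2 * D + 1) * ((80000 / κ) ^ 2 * ‖GG m n κ x‖ ^ 2) :=
    ar_c8 h2 hD0
  have h6 : 80000 ^ 2 * (2 * D + 2) / κ ^ 2 * ‖GG m n κ x‖ ^ 2 =
      (80000 / κ) ^ 2 * ‖GG m n κ x‖ ^ 2 + (2 * D + 1) * ((80000 / κ) ^ 2 * ‖GG m n κ x‖ ^ 2) := by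
    field_simp
    ring
  rw [h6]
  linarith

end real

end Pool.Agent.E8helper79.PS
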