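import Pool.Agent.E8helper79.PS.Cluster3

/-!
# The cluster function far away, and the unit-scale cluster
-/

set_option autoImplicit false

open Complex Finset Filter Topology

namespace Pool.Agent.E8helper79.PS

/-- mass of the lattice part -/
noncomputable def MA (m n : ℕ) : ℝ := ∑ j ∈ Icc (-((m:ℤ) + n)) ((m:ℤ) + n), tau m n j

/-- mass of the bumps -/
noncomputable def MB (m n : ℕ) (κ : ℝ) : ℝ := cc κ * rho m n ^ 2 / MA m n

/-- total mass -/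
noncomputable def MM (m n : ℕ) (κ : ℝ) : ℝ := MA m n + MB m n κ

lemma MA_ge {m n : ℕ} (hn : 1 ≤ n) : 2 * (m:ℝ) + 1 ≤ MA m n := by
  unfold MA
  have h1 : ∑ j ∈ Icc (-(m:ℤ)) (m:ℤ), (1:ℝ) ≤ ∑ j ∈ Icc (-(m:ℤ)) (m:ℤ), tau m n j := by
    apply sum_le_sum
    intro j hj
    rw [mem_Icc] at hj
    rw [tau_eq_one hn (abs_le.2 hj)]
  have h2 : ∑ j ∈ Icc (-(m:ℤ)) (m:ℤ), tau m n j ≤
      ∑ j ∈ Icc (-((m:ℤ) + n)) ((m:ℤ) + n), tau m n j := by
    apply sum_le_sum_of_subset_of_nonneg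
    · intro j
      simp only [mem_Icc]
      omega
    · intro j _ _
      exact tau_nonneg m n j
  rw [sum_const, Int.card_Icc, nsmul_eq_mul, mul_one] at h1
  have h3 : (((m:ℤ) + 1 - -(m:ℤ)).toNat : ℝ) = 2 * m + 1 := by
    have : ((m:ℤ) + 1 - -(m:ℤ)).toNat = 2 * m + 1 := by omega
    rw [this]; push_cast; ring
  rw [h3] at h1
  linarith

lemma MA_le (m n : ℕ) : MA m n ≤ 2 * ((m:ℝ) + n) + 1 := by
  unfold MA
  have h1 : ∑ j ∈ Icc (-((m:ℤ) + n)) ((m:ℤ) + n), tau m n j ≤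
      ∑ j ∈ Icc (-((m:ℤ) + n)) ((m:ℤ) + n), (1:ℝ) := by
    apply sum_le_sum
    intro j _
    exact tau_le_one m n j
  rw [sum_const, Int.card_Icc, nsmul_eq_mul, mul_one] at h1
  have h3 : (((m:ℤ) + n + 1 - -((m:ℤ) + n)).toNat : ℝ) = 2 * ((m:ℝ) + n) + 1 := by
    have : ((m:ℤ) + n + 1 - -((m:ℤ) + n)).toNat = 2 * (m + n) + 1 := by omega
    rw [this]; push_cast; ring
  rw [h3] at h1
  exact h1

section far

variable {m n : ℕ} {κ : ℝ} {X : ℂ}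

lemma pole_norm (hm : 1 ≤ m) (hnm : n ≤ m) {j : ℤ} (hj : |j| ≤ (m:ℤ) + n) :
    ‖pole m j‖ ≤ 3 * m := by
  unfold pole
  refine (norm_sub_le _ _).trans ?_
  rw [norm_mul, norm_I, one_mul, norm_real, Real.norm_eq_abs, abs_of_nonneg (yy_nonneg m j)]
  have h1 : ‖(j:ℂ)‖ = |(j:ℝ)| := by
    rw [← Complex.ofReal_intCast, norm_real, Real.norm_eq_abs]
  rw [h1]
  have h2 : |(j:ℝ)| ≤ m + n := by exact_mod_cast hj
  have h3 := yy_le_one m j
  have h4 : (n:ℝ) ≤ m := by exact_mod_cast hnm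
  have h5 : (1:ℝ) ≤ m := by exact_mod_cast hm
  linarith

lemma X_sub_pole (hm : 1 ≤ m) (hnm : n ≤ m) (hX : 50 * (m:ℝ) ≤ ‖X‖) {j : ℤ}
    (hj : |j| ≤ (m:ℤ) + n) : 47 / 50 * ‖X‖ ≤ ‖X - pole m j‖ := by
  have h1 := pole_norm hm hnm hj
  have h2 := norm_sub_norm_le X (pole m j)
  linarith

lemma far_AA (hm : 1 ≤ m) (hnm : n ≤ m) (hX : 50 * (m:ℝ) ≤ ‖X‖) :
    ‖AA m n X - MA m n / X‖ ≤ 3.2 * m * MA m n / ‖X‖ ^ 2 := by
  have hm' : (1:ℝ) ≤ m := by exact_mod_cast hm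
  have hX0 : 0 < ‖X‖ := by linarith
  have hXne : X ≠ 0 := norm_pos_iff.1 hX0
  have h1 : AA m n X - MA m n / X =
      ∑ j ∈ Icc (-((m:ℤ) + n)) ((m:ℤ) + n), (tau m n j : ℂ) * (pole m j / (X * (X - pole m j))) := by
    unfold AA MA
    push_cast
    rw [sum_div, ← sum_sub_distrib]
    apply sum_congr rfl
    intro j hj
    rw [mem_Icc] at hj
    have h2 := X_sub_pole hm hnm hX (abs_le.2 hj)
    have h3 : X - pole m j ≠ 0 := by
      apply norm_pos_iff.1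
      linarith
    unfold term
    field_simp
    ring
  rw [h1]
  refine (norm_sum_le _ _).trans ?_
  unfold MA
  rw [mul_sum, sum_div]
  apply sum_le_sum
  intro j hj
  rw [mem_Icc] at hj
  have h2 := X_sub_pole hm hnm hX (abs_le.2 hj)
  have h4 := pole_norm hm hnm (abs_le.2 hj)
  rw [norm_mul, norm_real, Real.norm_eq_abs, abs_of_nonneg (tau_nonneg m n j), norm_div, norm_mul]
  have h5 : ‖pole m j‖ / (‖X‖ * ‖X - pole m j‖) ≤ 3 * m / (‖X‖ * (47 / 50 * ‖X‖)) := by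
    gcongr
  calc tau m n j * (‖pole m j‖ / (‖X‖ * ‖X - pole m j‖)) ≤
        tau m n j * (3 * m / (‖X‖ * (47 / 50 * ‖X‖))) :=
          mul_le_mul_of_nonneg_left h5 (tau_nonneg m n j)
    _ = (150 / 47) * m * tau m n j / ‖X‖ ^ 2 := by field_simp; ring
    _ ≤ 3.2 * m * tau m n j / ‖X‖ ^ 2 := by
        have := tau_nonneg m n j
        gcongr
        norm_num

lemma far_X_ne_pole (hm : 1 ≤ m) (hnm : n ≤ m) (hX : 50 * (m:ℝ) ≤ ‖X‖) {j : ℤ}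
    (hj : |j| ≤ (m:ℤ) + n) : X ≠ pole m j := by
  have hm' : (1:ℝ) ≤ m := by exact_mod_cast hm
  have h2 := X_sub_pole hm hnm hX hj
  have h3 : X - pole m j ≠ 0 := by
    apply norm_pos_iff.1
    linarith
  exact sub_ne_zero.1 h3

lemma far_X_ne_node (hm : 1 ≤ m) (hX : 50 * (m:ℝ) ≤ ‖X‖) {j : ℤ}
    (hj : |j| ≤ (m:ℤ)) : X ≠ j := by
  have hm' : (1:ℝ) ≤ m := by exact_mod_cast hm
  intro h
  rw [h] at hX
  have h1 : ‖(j:ℂ)‖ = |(j:ℝ)| := by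
    rw [← Complex.ofReal_intCast, norm_real, Real.norm_eq_abs]
  rw [h1] at hX
  have h2 : |(j:ℝ)| ≤ m := by exact_mod_cast hj
  linarith

/-- the scaled denominator -/
noncomputable def Den (m n : ℕ) (κ : ℝ) (X : ℂ) : ℂ :=
  (X ^ 2 - (rho m n : ℂ) ^ 2) * AA m n X + I * κ * (rho m n : ℂ) ^ 2

lemma RR_Den (hm : 1 ≤ m) : RR m n κ X = Den m n κ X / (rho m n : ℂ) ^ 2 := by
  have hρ := rho_pos n hm
  have : (rho m n : ℂ) ≠ 0 := by exact_mod_cast hρ.ne'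
  unfold RR Den WW
  field_simp

lemma far_Den (hm : 1 ≤ m) (hn : 1 ≤ n) (hnm : n ≤ m) (hκ : 0 ≤ κ) (hκ1 : κ ≤ 1)
    (hX : 50 * (m:ℝ) ≤ ‖X‖) :
    ‖MA m n * X - Den m n κ X‖ ≤ 11.6 * m * MA m n := by
  have hm' : (1:ℝ) ≤ m := by exact_mod_cast hm
  have hX0 : 0 < ‖X‖ := by linarith
  have hXne : X ≠ 0 := norm_pos_iff.1 hX0
  have hMA := MA_ge (m := m) hn
  have hMA0 : 0 < MA m n := by linarith
  have h1 := far_AA hm hnm hX
  have hnm' : (n:ℝ) ≤ m := by exact_mod_cast hnm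
  have hρ := rho_pos n hm
  have hρ4 : rho m n ≤ 4 * m := by unfold rho; linarith
  have hρ2 : rho m n ^ 2 ≤ 16 * m ^ 2 := by nlinarith
  have e1 : MA m n * X - Den m n κ X = - (X ^ 2 * (AA m n X - MA m n / X)) +
      (rho m n : ℂ) ^ 2 * AA m n X - I * κ * (rho m n : ℂ) ^ 2 := by
    unfold Den
    field_simp
    ring
  have h2 : ‖X ^ 2 * (AA m n X - MA m n / X)‖ ≤ 3.2 * m * MA m n := by
    rw [norm_mul, norm_pow]
    calc ‖X‖ ^ 2 * ‖AA m n X - MA m n / X‖ ≤ ‖X‖ ^ 2 * (3.2 * m * MA m n / ‖X‖ ^ 2) := by gcongr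
      _ = 3.2 * m * MA m n := by field_simp
  have h3 : ‖AA m n X‖ ≤ 1.07 * MA m n / (50 * m) := by
    have e2 : AA m n X = (AA m n X - MA m n / X) + MA m n / X := by ring
    rw [e2]
    refine (norm_add_le _ _).trans ?_
    have h4 : ‖(MA m n : ℂ) / X‖ ≤ MA m n / (50 * m) := by
      rw [norm_div, norm_real, Real.norm_eq_abs, abs_of_pos hMA0]
      gcongr
    have h5 : 3.2 * m * MA m n / ‖X‖ ^ 2 ≤ 3.2 * m * MA m n / (50 * m) ^ 2 := by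
      gcongr
    have h6 : 3.2 * m * MA m n / (50 * m) ^ 2 = 0.064 * (MA m n / (50 * m)) := by
      field_simp
      ring
    have h7 : 1.07 * MA m n / (50 * m) = 1.07 * (MA m n / (50 * m)) := by ring
    have h8 : 0 ≤ MA m n / (50 * m) := by positivity
    rw [h7]
    linarith
  have h4 : ‖(rho m n : ℂ) ^ 2 * AA m n X‖ ≤ 0.3424 * m * MA m n := by
    rw [norm_mul, norm_pow, norm_real, Real.norm_eq_abs, abs_of_pos hρ]
    calc rho m n ^ 2 * ‖AA m n X‖ ≤ 16 * m ^ 2 * (1.07 * MA m n / (50 * m)) := by gcongr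
      _ = 0.3424 * m * MA m n := by field_simp; ring
  have h5 : ‖I * κ * (rho m n : ℂ) ^ 2‖ ≤ 8 * m * MA m n := by
    rw [norm_mul, norm_mul, norm_I, one_mul, norm_pow, norm_real, norm_real, Real.norm_eq_abs,
      Real.norm_eq_abs, abs_of_pos hρ, abs_of_nonneg hκ]
    have h6 : κ * rho m n ^ 2 ≤ 1 * (16 * m ^ 2) := by gcongr
    nlinarith
  rw [e1]
  refine (norm_sub_le _ _).trans ?_
  have h6 := norm_add_le (- (X ^ 2 * (AA m n X - MA m n / X))) ((rho m n : ℂ) ^ 2 * AA m n X)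
  rw [norm_neg] at h6
  have h7 : 0 ≤ (m:ℝ) * MA m n := by positivity
  nlinarith

lemma far_Den_ge (hm : 1 ≤ m) (hn : 1 ≤ n) (hnm : n ≤ m) (hκ : 0 ≤ κ) (hκ1 : κ ≤ 1)
    (hX : 50 * (m:ℝ) ≤ ‖X‖) : 0.768 * MA m n * ‖X‖ ≤ ‖Den m n κ X‖ := by
  have h1 := far_Den hm hn hnm hκ hκ1 hX
  have hm' : (1:ℝ) ≤ m := by exact_mod_cast hm
  have hMA := MA_ge (m := m) hn
  have hMA0 : 0 < MA m n := by linarith
  have h2 : ‖MA m n * X‖ = MA m n * ‖X‖ := by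
    rw [norm_mul, norm_real, Real.norm_eq_abs, abs_of_pos hMA0]
  have h3 := norm_sub_norm_le (MA m n * X) (MA m n * X - Den m n κ X)
  have h4 : MA m n * X - (MA m n * X - Den m n κ X) = Den m n κ X := by ring
  rw [h4, h2] at h3
  have h5 : 11.6 * m * MA m n ≤ 0.232 * MA m n * ‖X‖ := by nlinarith
  linarith

lemma far_RR_ne (hm : 1 ≤ m) (hn : 1 ≤ n) (hnm : n ≤ m) (hκ : 0 ≤ κ) (hκ1 : κ ≤ 1)
    (hX : 50 * (m:ℝ) ≤ ‖X‖) : RR m n κ X ≠ 0 := by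
  have h1 := far_Den_ge hm hn hnm hκ hκ1 hX
  have hm' : (1:ℝ) ≤ m := by exact_mod_cast hm
  have hMA := MA_ge (m := m) hn
  have hMA0 : 0 < MA m n := by linarith
  have hX0 : 0 < ‖X‖ := by linarith
  have h2 : 0 < ‖Den m n κ X‖ := lt_of_lt_of_le (by positivity) h1
  rw [RR_Den hm]
  have hρ := rho_pos n hm
  have : (rho m n : ℂ) ≠ 0 := by exact_mod_cast hρ.ne'
  exact div_ne_zero (norm_pos_iff.1 h2) (pow_ne_zero 2 this)

lemma MB_nonneg (hn : 1 ≤ n) : 0 ≤ MB m n κ := by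
  unfold MB cc
  have hMA := MA_ge (m := m) hn
  have hm' : (0:ℝ) ≤ m := by positivity
  have hMA0 : 0 < MA m n := by linarith
  positivity

lemma far_BB (hm : 1 ≤ m) (hn : 1 ≤ n) (hnm : n ≤ m) (hκ : 0 ≤ κ) (hκ1 : κ ≤ 1)
    (hX : 50 * (m:ℝ) ≤ ‖X‖) :
    ‖BB m n κ X - MB m n κ / X‖ ≤ 16 * m * MB m n κ / ‖X‖ ^ 2 := by
  have hm' : (1:ℝ) ≤ m := by exact_mod_cast hm
  have hX0 : 0 < ‖X‖ := by linarith
  have hXne : X ≠ 0 := norm_pos_iff.1 hX0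
  have hMA := MA_ge (m := m) hn
  have hMA0 : 0 < MA m n := by linarith
  have hMB := MB_nonneg (m := m) (κ := κ) hn
  have h1 := far_Den hm hn hnm hκ hκ1 hX
  have h2 := far_Den_ge hm hn hnm hκ hκ1 hX
  have hDpos : 0 < ‖Den m n κ X‖ := lt_of_lt_of_le (by positivity) h2
  have hD : Den m n κ X ≠ 0 := norm_pos_iff.1 hDpos
  have hρ := rho_pos n hm
  have hρne : (rho m n : ℂ) ≠ 0 := by exact_mod_cast hρ.ne'
  have hMAne : (MA m n : ℂ) ≠ 0 := by exact_mod_cast hMA0.ne'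
  have e1 : BB m n κ X - MB m n κ / X =
      (MB m n κ : ℂ) * ((MA m n * X - Den m n κ X) / (Den m n κ X * X)) := by
    rw [BB_eq hn κ (fun j hj => far_X_ne_node hm hX hj)]
    have : WW m n X * AA m n X + I * κ = RR m n κ X := rfl
    rw [this, RR_Den hm]
    unfold MB
    push_cast
    field_simp
  rw [e1, norm_mul, norm_div, norm_mul, norm_real, Real.norm_eq_abs, abs_of_nonneg hMB]
  have h3 : ‖MA m n * X - Den m n κ X‖ / (‖Den m n κ X‖ * ‖X‖) ≤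
      11.6 * m * MA m n / (0.768 * MA m n * ‖X‖ * ‖X‖) := by
    gcongr
  have h4 : 11.6 * m * MA m n / (0.768 * MA m n * ‖X‖ * ‖X‖) ≤ 16 * m / ‖X‖ ^ 2 := by
    rw [div_le_div_iff₀ (by positivity) (by positivity)]
    have : 0 ≤ (m:ℝ) * MA m n * ‖X‖ ^ 2 := by positivity
    nlinarith
  calc MB m n κ * (‖MA m n * X - Den m n κ X‖ / (‖Den m n κ X‖ * ‖X‖)) ≤
      MB m n κ * (16 * m / ‖X‖ ^ 2) := by
        apply mul_le_mul_of_nonneg_left (h3.trans h4) hMB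
    _ = 16 * m * MB m n κ / ‖X‖ ^ 2 := by ring

lemma far_GG (hm : 1 ≤ m) (hn : 1 ≤ n) (hnm : n ≤ m) (hκ : 0 ≤ κ) (hκ1 : κ ≤ 1)
    (hX : 50 * (m:ℝ) ≤ ‖X‖) :
    ‖GG m n κ X - MM m n κ / X‖ ≤ 16 * m * MM m n κ / ‖X‖ ^ 2 := by
  have hm' : (1:ℝ) ≤ m := by exact_mod_cast hm
  have hX0 : 0 < ‖X‖ := by linarith
  have hMA := MA_ge (m := m) hn
  have hMA0 : 0 < MA m n := by linarith
  have h1 := far_AA hm hnm hX
  have h2 := far_BB hm hn hnm hκ hκ1 hX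
  have e1 : GG m n κ X - MM m n κ / X = (AA m n X - MA m n / X) + (BB m n κ X - MB m n κ / X) := by
    unfold GG MM
    push_cast
    ring
  rw [e1]
  refine (norm_add_le _ _).trans ?_
  have h3 : 3.2 * m * MA m n / ‖X‖ ^ 2 ≤ 16 * m * MA m n / ‖X‖ ^ 2 := by
    gcongr
    norm_num
  have h4 : 16 * m * MM m n κ / ‖X‖ ^ 2 = 16 * m * MA m n / ‖X‖ ^ 2 + 16 * m * MB m n κ / ‖X‖ ^ 2 := by
    unfold MM; ring
  rw [h4]
  linarith

end far

end Pool.Agent.E8helper79.PS
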