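import Pool.Agent.E8helper79.PS.Cluster4

/-!
# The unit-scale cluster
-/

set_option autoImplicit false

open Complex Finset Filter Topology

namespace Pool.Agent.E8helper79.PS

/-- the logarithmic constant -/
noncomputable def Dω (ω : ℝ) : ℝ := 2 * (28 + 2 * Real.log (8 / ω)) ^ 2 + 17

/-- the constant in the derivative estimate -/
noncomputable def Kω (ω : ℝ) : ℝ := 80000 ^ 2 * (2 * Dω ω + 2)

/-- the unit-scale cluster, given by its nodes and a remainder -/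
noncomputable def HH (m : ℕ) (w : ℝ) (β : ℂ → ℂ) (z : ℂ) : ℂ :=
  ∑ j ∈ Icc (-(m:ℤ)) (m:ℤ), (w:ℂ) / (z - j / m) + β z

lemma HH_eq {m n : ℕ} (hm : 1 ≤ m) (hn : 1 ≤ n) (κ : ℝ) (z : ℂ) :
    HH m (1 / MM m n κ) (fun z => (m / MM m n κ : ℂ) * (AD m n (m * z) + BB m n κ (m * z))) z =
      (m / MM m n κ : ℂ) * GG m n κ (m * z) := by
  unfold HH GG
  have hm' : (m:ℂ) ≠ 0 := by exact_mod_cast (by omega : m ≠ 0)
  rw [AA_eq hn]
  have : ∑ j ∈ Icc (-(m:ℤ)) (m:ℤ), ((1 / MM m n κ : ℝ):ℂ) / (z - j / m) =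
      (m / MM m n κ : ℂ) * ∑ j ∈ Icc (-(m:ℤ)) (m:ℤ), 1 / ((m:ℂ) * z - j) := by
    rw [mul_sum]
    apply sum_congr rfl
    intro j _
    have e : (m:ℂ) * z - j = m * (z - j / m) := by field_simp
    rw [e]
    by_cases h : z - j / m = 0
    · rw [h]; simp
    · push_cast
      by_cases hM : (MM m n κ : ℂ) = 0
      · rw [hM]; simp
      · field_simp
  rw [this]
  ring

lemma ar_sq {ρ m : ℝ} (h0 : 0 < ρ) (h : ρ ≤ 4 * m) : ρ ^ 2 ≤ 16 * m ^ 2 := by nlinarith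

lemma ar_mul {ω m n : ℝ} (hω1 : ω ≤ 1) (hm : 1 ≤ m) (hn : n ≤ ω * m) : n ≤ m := by nlinarith

lemma ar_MB {κ m ρ MA : ℝ} (hm : 0 ≤ m) (hMA0 : 0 < MA) (hMA : 2 * m + 1 ≤ MA)
    (hρ2 : ρ ^ 2 ≤ 16 * m ^ 2) : κ ^ 2 / 10000 * ρ ^ 2 / MA ≤ κ ^ 2 * m / 1000 := by
  rw [div_le_iff₀ hMA0]
  have h1 : κ ^ 2 / 10000 * ρ ^ 2 ≤ κ ^ 2 / 10000 * (16 * m ^ 2) := by gcongr
  have h2 : κ ^ 2 * m / 1000 * (2 * m) ≤ κ ^ 2 * m / 1000 * MA := by
    gcongr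
    linarith
  nlinarith [sq_nonneg (κ * m)]

lemma ar_sq1 {κ : ℝ} (h0 : 0 < κ) (h1 : κ ≤ 1) : κ ^ 2 ≤ 1 := by nlinarith

lemma ar_mass {κ ω m n M : ℝ} (hω : 0 < ω) (hm : 0 ≤ m) (hn : n ≤ ω * m) (hM0 : 0 < M)
    (hM : M ≤ 2 * (m + n) + 1 + κ ^ 2 * m / 1000) : (1 - ω - κ ^ 2) * M ≤ 2 * m + 1 := by
  by_cases hneg : 1 - ω - κ ^ 2 ≤ 0
  · have : (1 - ω - κ ^ 2) * M ≤ 0 := mul_nonpos_of_nonpos_of_nonneg hneg hM0.le
    linarith
  · push Not at hneg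
    have h2 : (1 - ω - κ ^ 2) * M ≤
        (1 - ω - κ ^ 2) * (2 * m + 1 + 2 * ω * m + κ ^ 2 * m / 1000) := by
      apply mul_le_mul_of_nonneg_left _ hneg.le
      linarith
    have a1 : 0 ≤ κ ^ 2 * m := by positivity
    have a2 : 0 ≤ ω * m := by positivity
    have a3 : 0 ≤ ω * (ω * m) := by positivity
    have a4 : 0 ≤ κ ^ 2 * (κ ^ 2 * m) := by positivity
    have a5 : 0 ≤ ω * (κ ^ 2 * m) := by positivity
    have a6 : 0 ≤ κ ^ 2 := by positivity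
    have e : (1 - ω - κ ^ 2) * (2 * m + 1 + 2 * ω * m + κ ^ 2 * m / 1000) =
        2 * m + 1 - ω - κ ^ 2 - 2 * (κ ^ 2 * m) + κ ^ 2 * m / 1000 - 2 * (ω * (ω * m))
          - ω * (κ ^ 2 * m) / 1000 - 2 * (ω * (κ ^ 2 * m)) - κ ^ 2 * (κ ^ 2 * m) / 1000 := by ring
    linarith

lemma ar_50 {m z : ℝ} (hm : 1 ≤ m) (hz : 50 ≤ z) : 50 * m ≤ m * z := by nlinarith

lemma ar_100 {m z : ℝ} (hm : 1 ≤ m) (hz : z ≤ 100) : m * z ≤ 100 * m := by nlinarith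

lemma ar_im {a b c : ℝ} (hc : 0 ≤ c) (ha : a ≤ 0) (hb : b ≤ 0) : c * (a + b) ≤ 0 := by nlinarith

lemma ar_log {m n ω : ℝ} (hn0 : 0 < n) (hω : 0 < ω) (hω1 : ω ≤ 1)
    (hn : ω * m / 2 ≤ n) : 2 * (m + n) / n ≤ 8 / ω := by
  rw [div_le_div_iff₀ hn0 hω]
  nlinarith

lemma ar_κ {κ m : ℝ} (h1 : κ ^ 2 ≤ 1) (hm : 0 ≤ m) : κ ^ 2 * m / 1000 ≤ m / 1000 := by
  have : κ ^ 2 * m ≤ 1 * m := by gcongr
  linarith

theorem cluster {κ ω : ℝ} (hκ : 0 < κ) (hκ1 : κ ≤ 1) (hω : 0 < ω) (hω1 : ω ≤ 1) :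
    ∃ m0 : ℕ, ∀ m : ℕ, m0 ≤ m → 1 ≤ m ∧ ∃ w : ℝ, ∃ β : ℂ → ℂ,
      0 < w ∧ 1 - ω - κ ^ 2 ≤ w * (2 * m + 1) ∧ w * (2 * m + 1) ≤ 1 ∧ 1 / 6 ≤ w * m ∧ w * m ≤ 1 / 2 ∧
      (∀ z : ℂ, 0 ≤ z.im → AnalyticAt ℂ β z) ∧ (∀ z : ℂ, 0 ≤ z.im → (β z).im ≤ 0) ∧
      (∀ z : ℂ, 50 ≤ ‖z‖ → AnalyticAt ℂ β z) ∧
      (∀ z : ℂ, 50 ≤ ‖z‖ → AnalyticAt ℂ (HH m w β) z) ∧
      (∀ z : ℂ, 50 ≤ ‖z‖ → ‖HH m w β z - 1 / z‖ ≤ 16 / ‖z‖ ^ 2) ∧
      (∀ x : ℝ, |x| ≤ 100 → (∀ j : ℤ, |j| ≤ (m:ℤ) → x ≠ j / m) →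
        κ / 480000 ≤ ‖HH m w β x‖ ∧
        ‖deriv (HH m w β) x‖ ≤ 6 * m * (Kω ω / κ ^ 2) * ‖HH m w β x‖ ^ 2) := by
  obtain ⟨m0, hm0⟩ := exists_nat_ge (4 / κ + 2 / ω + 1)
  refine ⟨m0, fun m hm => ?_⟩
  have hm1 : 4 / κ + 2 / ω + 1 ≤ (m:ℝ) := hm0.trans (by exact_mod_cast hm)
  have h4κ : 0 < 4 / κ := by positivity
  have h2ω : 0 < 2 / ω := by positivity
  have hmκ : 4 / κ ≤ m := by linarith
  have hmω : 2 / ω ≤ m := by linarith
  have hm' : (1:ℝ) ≤ m := by linarith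
  have hm1' : 1 ≤ m := by exact_mod_cast hm'
  refine ⟨hm1', ?_⟩
  set n : ℕ := ⌈ω * m / 2⌉₊ with hn
  have hωm : 2 ≤ ω * m := by
    rw [div_le_iff₀ hω] at hmω
    linarith
  have hn1 : (1:ℝ) ≤ n := by
    have := Nat.le_ceil (ω * m / 2)
    rw [← hn] at this
    linarith
  have hn1' : 1 ≤ n := by exact_mod_cast hn1
  have hnge : ω * m / 2 ≤ n := Nat.le_ceil _
  have hnle : (n:ℝ) ≤ ω * m := by
    have := Nat.ceil_lt_add_one (a := ω * m / 2) (by positivity)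
    rw [← hn] at this
    linarith
  have hnm : (n:ℝ) ≤ m := ar_mul hω1 hm' hnle
  have hnm' : n ≤ m := by exact_mod_cast hnm
  have hMA := MA_ge (m := m) hn1'
  have hMA2 := MA_le m n
  have hMA0 : 0 < MA m n := by linarith
  have hMB := MB_nonneg (m := m) (κ := κ) hn1'
  have hρ := rho_pos n hm1'
  have hρ4 : rho m n ≤ 4 * m := by unfold rho; linarith
  have hρ2 : rho m n ^ 2 ≤ 16 * m ^ 2 := ar_sq hρ hρ4
  have hMB2 : MB m n κ ≤ κ ^ 2 * m / 1000 := by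
    unfold MB cc
    exact ar_MB (by linarith) hMA0 hMA hρ2
  have hκ2 : κ ^ 2 ≤ 1 := ar_sq1 hκ hκ1
  set M := MM m n κ with hM
  have hMge : 2 * (m:ℝ) + 1 ≤ M := by rw [hM]; unfold MM; linarith
  have hMle : M ≤ 2 * ((m:ℝ) + n) + 1 + κ ^ 2 * m / 1000 := by rw [hM]; unfold MM; linarith
  have hM0 : 0 < M := by linarith
  have hM6 : M ≤ 6 * m := by
    have := ar_κ hκ2 (by linarith : (0:ℝ) ≤ m)
    linarith
  have hMne : (M:ℂ) ≠ 0 := by exact_mod_cast hM0.ne'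
  have hmne : (m:ℂ) ≠ 0 := by exact_mod_cast (by omega : m ≠ 0)
  set β : ℂ → ℂ := fun z => (m / M : ℂ) * (AD m n (m * z) + BB m n κ (m * z)) with hβ
  have hH : HH m (1 / M) β = fun z => (m / M : ℂ) * GG m n κ (m * z) := by
    funext z
    exact HH_eq hm1' hn1' κ z
  have hscale : ∀ z : ℂ, ‖(m:ℂ) * z‖ = m * ‖z‖ := by
    intro z
    rw [norm_mul, Complex.norm_natCast]
  have hβan : ∀ z : ℂ, AnalyticAt ℂ (AD m n) (m * z) → AnalyticAt ℂ (BB m n κ) (m * z) →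
      AnalyticAt ℂ β z := by
    intro z h1 h2
    have hlin : AnalyticAt ℂ (fun z : ℂ => (m:ℂ) * z) z := by fun_prop
    exact analyticAt_const.mul ((h1.comp hlin).add (h2.comp hlin))
  refine ⟨1 / M, β, by positivity, ?_, ?_, ?_, ?_, ?_, ?_, ?_, ?_, ?_, ?_⟩
  · -- mass lower bound
    rw [div_mul_eq_mul_div, one_mul, le_div_iff₀ hM0]
    exact ar_mass hω (by linarith) hnle hM0 hMle
  · rw [div_mul_eq_mul_div, one_mul, div_le_one hM0]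
    exact hMge
  · rw [div_mul_eq_mul_div, one_mul, le_div_iff₀ hM0]
    linarith
  · rw [div_mul_eq_mul_div, one_mul, div_le_iff₀ hM0]
    linarith
  · intro z hz
    have hz' : 0 ≤ ((m:ℂ) * z).im := by
      have : ((m:ℂ) * z).im = m * z.im := by simp
      rw [this]; positivity
    have h1 : AnalyticAt ℂ (AD m n) (m * z) := analyticAt_AD (fun j hj _ => pole_ne hz' j hj)
    exact hβan z h1 (analyticAt_BB h1 (DD_ne hm1' hn1' hmκ hκ hz'))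
  · intro z hz
    have hz' : 0 ≤ ((m:ℂ) * z).im := by
      have : ((m:ℂ) * z).im = m * z.im := by simp
      rw [this]; positivity
    have h1 := AD_im (m := m) (n := n) hz'
    have h2 := BB_im (n := n) hm1' hn1' hmκ hκ hz'
    have e : β z = ((m / M : ℝ) : ℂ) * (AD m n (m * z) + BB m n κ (m * z)) := by
      rw [hβ]; push_cast; rfl
    rw [e, im_ofReal_mul, add_im]
    exact ar_im (by positivity) h1 h2
  · intro z hz
    have hz' : 50 * (m:ℝ) ≤ ‖(m:ℂ) * z‖ := by rw [hscale]; exact ar_50 hm' hz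
    have h1 : AnalyticAt ℂ (AD m n) (m * z) :=
      analyticAt_AD (fun j _ hj => far_X_ne_pole hm1' hnm' hz' hj)
    refine hβan z h1 (analyticAt_BB h1 ?_)
    rw [DD_eq hn1' κ (fun j hj => far_X_ne_node hm1' hz' hj)]
    exact mul_ne_zero (PP_ne (fun j hj => far_X_ne_node hm1' hz' hj))
      (far_RR_ne hm1' hn1' hnm' hκ.le hκ1 hz')
  · intro z hz
    have hz' : 50 * (m:ℝ) ≤ ‖(m:ℂ) * z‖ := by rw [hscale]; exact ar_50 hm' hz
    have h1 : AnalyticAt ℂ (AD m n) (m * z) :=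
      analyticAt_AD (fun j _ hj => far_X_ne_pole hm1' hnm' hz' hj)
    have h2 : AnalyticAt ℂ β z := by
      refine hβan z h1 (analyticAt_BB h1 ?_)
      rw [DD_eq hn1' κ (fun j hj => far_X_ne_node hm1' hz' hj)]
      exact mul_ne_zero (PP_ne (fun j hj => far_X_ne_node hm1' hz' hj))
        (far_RR_ne hm1' hn1' hnm' hκ.le hκ1 hz')
    unfold HH
    apply AnalyticAt.fun_add _ h2
    apply Finset.analyticAt_fun_sum
    intro j hj
    rw [mem_Icc] at hj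
    apply AnalyticAt.div
    · fun_prop
    · fun_prop
    · intro h
      apply far_X_ne_node hm1' hz' (abs_le.2 hj)
      have : z = j / m := sub_eq_zero.1 h
      rw [this]
      field_simp
  · intro z hz
    have hz' : 50 * (m:ℝ) ≤ ‖(m:ℂ) * z‖ := by rw [hscale]; exact ar_50 hm' hz
    have hz0 : 0 < ‖z‖ := by linarith
    have hzne : z ≠ 0 := norm_pos_iff.1 hz0
    have h1 := far_GG hm1' hn1' hnm' hκ.le hκ1 hz'
    rw [hH]
    have e : (m / M : ℂ) * GG m n κ (m * z) - 1 / z =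
        ((m / M : ℝ) : ℂ) * (GG m n κ (m * z) - M / (m * z)) := by
      push_cast
      field_simp
    rw [e, norm_mul, norm_real, Real.norm_eq_abs, abs_of_pos (by positivity : 0 < (m:ℝ) / M)]
    calc (m:ℝ) / M * ‖GG m n κ (m * z) - M / (m * z)‖ ≤
          (m:ℝ) / M * (16 * m * M / ‖(m:ℂ) * z‖ ^ 2) := by gcongr
      _ = 16 / ‖z‖ ^ 2 := by
          rw [hscale]
          field_simp
  · intro x hx hxn
    have hX : |(m:ℝ) * x| ≤ 100 * m := by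
      rw [abs_mul, Nat.abs_cast]
      exact ar_100 hm' hx
    have hXn : ∀ j : ℤ, |j| ≤ (m:ℤ) → (m:ℝ) * x ≠ j := by
      intro j hj h
      apply hxn j hj
      rw [← h]
      field_simp
    have hcast : ((m:ℂ) * (x:ℂ)) = (((m:ℝ) * x : ℝ) : ℂ) := by push_cast; ring
    obtain ⟨h1, -⟩ := GG_ge (n := n) hm1' hn1' hmκ hκ hX hXn
    have hlog : 2 * (28 + 2 * Real.log ((2 * (m + n) : ℕ) / n)) ^ 2 + 17 ≤ Dω ω := by
      unfold Dω
      have h3 : (1:ℝ) ≤ ((2 * (m + n) : ℕ):ℝ) / n := by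
        rw [le_div_iff₀ (by linarith)]
        push_cast
        linarith
      have h4 : ((2 * (m + n) : ℕ):ℝ) / n ≤ 8 / ω := by
        push_cast
        exact ar_log (by linarith) hω hω1 hnge
      have h5 := Real.log_nonneg h3
      have h6 := Real.log_le_log (by linarith) h4
      gcongr
    have h2 := GG_deriv_le (n := n) hm1' hn1' hmκ hκ hκ1 hX hXn hlog
    have hnorm : ‖HH m (1 / M) β x‖ = m / M * ‖GG m n κ ((m * x : ℝ):ℂ)‖ := by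
      rw [hH]
      have e : (m / M : ℂ) = ((m / M : ℝ) : ℂ) := by push_cast; rfl
      simp only
      rw [hcast, e, norm_mul, norm_real, Real.norm_eq_abs, abs_of_pos (by positivity : 0 < (m:ℝ) / M)]
    constructor
    · rw [hnorm]
      have h3 : 1 / 6 ≤ (m:ℝ) / M := by
        rw [le_div_iff₀ hM0]
        linarith
      have h4 : κ / 480000 = 1 / 6 * (κ / 80000) := by ring
      rw [h4]
      gcongr
    · have hxp : ∀ j : ℤ, |j| ≤ (m:ℤ) + n → (((m * x : ℝ)):ℂ) ≠ pole m j :=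
        fun j _ => real_ne_pole hXn j
      have hXn' : ∀ j : ℤ, |j| ≤ (m:ℤ) → (((m * x : ℝ)):ℂ) ≠ j := by
        intro j hj h
        apply hXn j hj
        have : (((m * x : ℝ)):ℂ) = ((j:ℝ):ℂ) := by rw [h]; simp
        exact_mod_cast this
      have hRn := RR_norm_ge (n := n) hm1' hmκ hκ hXn
      have hRpos : 0 < ‖RR m n κ ((m * x : ℝ):ℂ)‖ := lt_of_lt_of_le (by positivity) hRn
      have hd : DifferentiableAt ℂ (GG m n κ) ((m * x : ℝ):ℂ) :=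
        ((hasDerivAt_AA hxp).add (hasDerivAt_BB hn1' κ hxp hXn' (norm_pos_iff.1 hRpos))).differentiableAt
      have hd2 : HasDerivAt (HH m (1 / M) β) ((m / M : ℂ) * (deriv (GG m n κ) ((m * x : ℝ):ℂ) * m)) x := by
        rw [hH]
        have h5 : HasDerivAt (fun z : ℂ => (m:ℂ) * z) (m:ℂ) (x:ℂ) := by
          simpa using (hasDerivAt_id (x:ℂ)).const_mul (m:ℂ)
        have h6 : HasDerivAt (GG m n κ) (deriv (GG m n κ) ((m * x : ℝ):ℂ)) ((m:ℂ) * (x:ℂ)) := by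
          rw [hcast]; exact hd.hasDerivAt
        have h7 := (h6.comp (x:ℂ) h5).const_mul (m / M : ℂ)
        exact h7
      rw [hd2.deriv, hnorm, norm_mul, norm_mul, norm_div, Complex.norm_natCast, norm_real,
        Real.norm_eq_abs, abs_of_pos hM0]
      have hK : 80000 ^ 2 * (2 * Dω ω + 2) / κ ^ 2 = Kω ω / κ ^ 2 := by rw [Kω]
      rw [hK] at h2
      have hK0 : 0 ≤ Kω ω / κ ^ 2 := by
        unfold Kω Dω
        positivity
      set gg := ‖GG m n κ ((m * x : ℝ):ℂ)‖ with hgg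
      calc (m:ℝ) / M * (‖deriv (GG m n κ) ((m * x : ℝ):ℂ)‖ * m) ≤
            (m:ℝ) / M * ((Kω ω / κ ^ 2 * gg ^ 2) * m) := by gcongr
        _ = M * (Kω ω / κ ^ 2) * (m / M * gg) ^ 2 := by field_simp
        _ ≤ 6 * m * (Kω ω / κ ^ 2) * (m / M * gg) ^ 2 := by gcongr

end Pool.Agent.E8helper79.PS
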