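import Pool.Agent.E8helper79.PS.Seq
import Pool.Agent.E8helper79.PS.Cayley

/-!
# Transfer to the disc
-/

set_option autoImplicit false

open Complex Filter Topology Metric Set

namespace Pool.Agent.E8helper79.PS

/-- the stage function on the disc -/
noncomputable def VV (P : Finset ℝ) (μ : ℝ) (b : ℂ → ℂ) (ζ : ℂ) : ℂ :=
  open Classical in if ζ = -1 then 1 else Uf P μ b (Phi ζ)

section

variable {α : ℝ} {P : Finset ℝ} {μ : ℝ} {b : ℂ → ℂ} {Λ : ℝ}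

lemma VV_neg_one : VV P μ b (-1) = 1 := by simp [VV]

lemma VV_ne {ζ : ℂ} (h : ζ ≠ -1) : VV P μ b ζ = Uf P μ b (Phi ζ) := by simp [VV, h]

lemma IsStage.far (hS : IsStage α P μ b (1 / 2) (1 / 2) Λ) {z : ℂ} (hz : 2 ≤ ‖z‖) :
    AnalyticAt ℂ (Uf P μ b) z ∧ ‖Uf P μ b z‖ ≤ 2 ∧ ‖Uf P μ b z - 1‖ ≤ 1 / ‖z‖ := by
  have hzP : ∀ p ∈ P, z ≠ (p:ℂ) := by
    intro p hp h
    have h1 := hS.hcP p hp
    rw [h, norm_real, Real.norm_eq_abs] at hz
    linarith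
  have hG := hS.gfar z hz
  have hz0 : 0 < ‖z‖ := by linarith
  have hG4 : ‖Gf P μ b z‖ ≤ 1 / 4 := by
    refine hG.trans ?_
    rw [div_le_div_iff₀ hz0 (by norm_num)]
    linarith
  have h1 : 3 / 4 ≤ ‖1 + Gf P μ b z‖ := by
    have := norm_sub_le (1 + Gf P μ b z) (Gf P μ b z)
    rw [add_sub_cancel_right, norm_one] at this
    linarith
  have hne : 1 + Gf P μ b z ≠ 0 := norm_pos_iff.1 (by linarith)
  have hinv : ‖(1 + Gf P μ b z)⁻¹‖ ≤ 4 / 3 := by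
    rw [norm_inv, inv_le_comm₀ (by linarith) (by norm_num)]
    norm_num
    linarith
  refine ⟨?_, ?_, ?_⟩
  · apply analyticAt_Uf (hS.bfar z hz)
    rw [DU_eq hzP]
    exact mul_ne_zero (QQ_ne hzP) hne
  · rw [Uf_eq hzP]
    linarith
  · rw [Uf_eq hzP]
    have e : (1 + Gf P μ b z)⁻¹ - 1 = -(Gf P μ b z * (1 + Gf P μ b z)⁻¹) := by
      field_simp
      ring
    rw [e, norm_neg, norm_mul]
    calc ‖Gf P μ b z‖ * ‖(1 + Gf P μ b z)⁻¹‖ ≤ (1 / 2 / ‖z‖) * (4 / 3) := by gcongr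
      _ ≤ 1 / ‖z‖ := by
          rw [div_mul_eq_mul_div, div_le_div_iff₀ hz0 hz0]
          nlinarith

lemma IsStage.VV_sub_one (hS : IsStage α P μ b (1 / 2) (1 / 2) Λ) {ζ : ℂ} (hζ : ‖ζ + 1‖ < 2 / 3) :
    ‖VV P μ b ζ - 1‖ ≤ ‖ζ + 1‖ := by
  by_cases h : ζ = -1
  · rw [h, VV_neg_one]; simp
  · rw [VV_ne h]
    refine (hS.far (Phi_norm_ge hζ h)).2.2.trans ?_
    have h0 : 0 < ‖1 + ζ‖ := norm_pos_iff.2 (add_one_ne h)
    have h1 : ‖(2:ℂ)‖ ≤ ‖1 - ζ‖ + ‖1 + ζ‖ := by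
      have : (2:ℂ) = (1 - ζ) + (1 + ζ) := by ring
      rw [this]
      exact norm_add_le _ _
    have h3 : ‖(2:ℂ)‖ = 2 := by simp
    rw [h3] at h1
    rw [add_comm ζ 1] at hζ ⊢
    rw [Phi_norm, one_div_div, div_le_iff₀ (by linarith)]
    nlinarith

lemma VV_differentiableAt {ζ : ℂ} (h : ζ ≠ -1)
    (hU : AnalyticAt ℂ (Uf P μ b) (Phi ζ)) : DifferentiableAt ℂ (VV P μ b) ζ := by
  have h1 : VV P μ b =ᶠ[𝓝 ζ] fun ζ => Uf P μ b (Phi ζ) := by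
    filter_upwards [isOpen_ne.mem_nhds h] with y hy
    exact VV_ne hy
  exact (DifferentiableAt.comp ζ hU.differentiableAt (Phi_differentiableAt h)).congr_of_eventuallyEq h1

lemma IsStage.VV_cont_neg_one (hS : IsStage α P μ b (1 / 2) (1 / 2) Λ) :
    ContinuousAt (VV P μ b) (-1) := by
  rw [Metric.continuousAt_iff]
  intro ε hε
  refine ⟨min ε (2 / 3), lt_min hε (by norm_num), fun {x} hx => ?_⟩
  rw [VV_neg_one, dist_eq_norm]
  rw [dist_eq_norm, sub_neg_eq_add] at hx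
  exact (hS.VV_sub_one (hx.trans_le (min_le_right _ _))).trans_lt (hx.trans_le (min_le_left _ _))

lemma IsStage.VV_near (hS : IsStage α P μ b (1 / 2) (1 / 2) Λ) :
    DifferentiableOn ℂ (VV P μ b) (ball (-1) (2 / 3)) := by
  rw [← Complex.differentiableOn_compl_singleton_and_continuousAt_iff
    (ball_mem_nhds (-1:ℂ) (by norm_num : (0:ℝ) < 2 / 3))]
  refine ⟨fun ζ hζ => ?_, hS.VV_cont_neg_one⟩
  have h1 : ζ ≠ -1 := hζ.2
  have h2 : ‖ζ + 1‖ < 2 / 3 := by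
    have := hζ.1
    rw [mem_ball, dist_eq_norm, sub_neg_eq_add] at this
    exact this
  exact (VV_differentiableAt h1 (hS.far (Phi_norm_ge h2 h1)).1).differentiableWithinAt

lemma IsStage.VV_near_lip (hS : IsStage α P μ b (1 / 2) (1 / 2) Λ) {ζ ξ : ℂ} (hζ : ‖ζ + 1‖ < 3 / 5)
    (hξ : ‖ξ + 1‖ < 3 / 5) : ‖VV P μ b ζ - VV P μ b ξ‖ ≤ 32 * ‖ζ - ξ‖ := by
  have hd : ∀ x ∈ ball (-1:ℂ) (3 / 5), DifferentiableAt ℂ (VV P μ b) x := by
    intro x hx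
    apply hS.VV_near.differentiableAt
    exact isOpen_ball.mem_nhds (ball_subset_ball (by norm_num) hx)
  have hb : ∀ x ∈ ball (-1:ℂ) (3 / 5), ‖deriv (VV P μ b) x‖ ≤ 32 := by
    intro x hx
    have hsub : closedBall x (1 / 16) ⊆ ball (-1:ℂ) (2 / 3) := by
      intro y hy
      rw [mem_ball] at hx ⊢
      rw [mem_closedBall] at hy
      have := dist_triangle y x (-1)
      linarith
    have h1 : DiffContOnCl ℂ (VV P μ b) (ball x (1 / 16)) := by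
      apply DifferentiableOn.diffContOnCl
      rw [closure_ball x (by norm_num)]
      exact hS.VV_near.mono hsub
    have h2 := Complex.norm_deriv_le_of_forall_mem_sphere_norm_le (C := 2) (by norm_num) h1 (by
      intro y hy
      have hy' := hsub (sphere_subset_closedBall hy)
      rw [mem_ball, dist_eq_norm, sub_neg_eq_add] at hy'
      have h3 := hS.VV_sub_one hy'
      have h4 := norm_add_le (VV P μ b y - 1) 1
      rw [sub_add_cancel, norm_one] at h4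
      linarith)
    refine h2.trans (by norm_num)
  have h := Convex.norm_image_sub_le_of_norm_deriv_le hd hb (convex_ball _ _)
    (x := ξ) (y := ζ) (by rw [mem_ball, dist_eq_norm, sub_neg_eq_add]; exact hξ)
    (by rw [mem_ball, dist_eq_norm, sub_neg_eq_add]; exact hζ)
  exact h

lemma IsStage.VV_diffCont (hS : IsStage α P μ b (1 / 2) (1 / 2) Λ) :
    DiffContOnCl ℂ (VV P μ b) (ball 0 1) := by
  have hUan : ∀ z : ℂ, 0 ≤ z.im → AnalyticAt ℂ (Uf P μ b) z := fun z hz =>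
    analyticAt_Uf (hS.ban z hz) (DU_ne hS.hμ hz (hS.bre z hz))
  have h : ∀ ζ ∈ closedBall (0:ℂ) 1, ζ ≠ -1 → DifferentiableAt ℂ (VV P μ b) ζ := by
    intro ζ hζ hne
    rw [mem_closedBall, dist_zero_right] at hζ
    exact VV_differentiableAt hne (hUan _ (Phi_im_nonneg hζ hne))
  constructor
  · intro ζ hζ
    have hne : ζ ≠ -1 := by
      rintro rfl
      simp at hζ
    exact (h ζ (ball_subset_closedBall hζ) hne).differentiableWithinAt
  · rw [closure_ball (0:ℂ) one_ne_zero]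
    intro ζ hζ
    by_cases hne : ζ = -1
    · rw [hne]
      exact hS.VV_cont_neg_one.continuousWithinAt
    · exact (h ζ hζ hne).continuousAt.continuousWithinAt

lemma IsStage.VV_re (hS : IsStage α P μ b (1 / 2) (1 / 2) Λ) {ζ : ℂ} (hζ : ‖ζ‖ ≤ 1) :
    ‖VV P μ b ζ‖ ^ 2 ≤ (VV P μ b ζ).re := by
  by_cases hne : ζ = -1
  · rw [hne, VV_neg_one]; simp
  · rw [VV_ne hne]
    have h := Phi_im_nonneg hζ hne
    exact Uf_re hS.hμ h (hS.bre _ h)

/-- Hölder bound on the circle, uniform over stages -/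
lemma IsStage.VV_lip (hS : IsStage α P μ b (1 / 2) (1 / 2) Λ) (hα : 0 < α) (hα1 : α < 1)
    (hΛ : 0 ≤ Λ) {ζ ξ : ℂ} (hζ : ‖ζ‖ = 1) (hξ : ‖ξ‖ = 1) :
    ‖VV P μ b ζ - VV P μ b ξ‖ ≤ (Λ * (17 / 2) + 84) * ‖ζ - ξ‖ ^ α := by
  have hd : ‖ζ - ξ‖ ≤ 2 := (norm_sub_le _ _).trans (by rw [hζ, hξ]; norm_num)
  have hd0 : 0 ≤ ‖ζ - ξ‖ ^ α := by positivity
  have hcase2 : ‖ζ + 1‖ < 3 / 5 → ‖ξ + 1‖ < 3 / 5 →
      ‖VV P μ b ζ - VV P μ b ξ‖ ≤ (Λ * (17 / 2) + 84) * ‖ζ - ξ‖ ^ α := by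
    intro h1 h2
    refine (hS.VV_near_lip h1 h2).trans ?_
    have h3 := lin_split hα1.le hα (norm_nonneg (ζ - ξ)) hd
    have h4 : (2:ℝ) ^ (1 - α) ≤ 2 := by
      calc (2:ℝ) ^ (1 - α) ≤ 2 ^ (1:ℝ) := Real.rpow_le_rpow_of_exponent_le (by norm_num) (by linarith)
        _ = 2 := by simp
    calc 32 * ‖ζ - ξ‖ ≤ 32 * (2 ^ (1 - α) * ‖ζ - ξ‖ ^ α) := by gcongr
      _ ≤ 32 * (2 * ‖ζ - ξ‖ ^ α) := by gcongr
      _ = 64 * ‖ζ - ξ‖ ^ α := by ring
      _ ≤ _ := by gcongr; linarith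
  have hcase3 : 1 / 10 ≤ ‖ζ - ξ‖ →
      ‖VV P μ b ζ - VV P μ b ξ‖ ≤ (Λ * (17 / 2) + 84) * ‖ζ - ξ‖ ^ α := by
    intro h1
    have h2 : ‖VV P μ b ζ - VV P μ b ξ‖ ≤ 2 := by
      refine (norm_sub_le _ _).trans ?_
      have a1 := norm_le_one_of_sq_le (hS.VV_re hζ.le)
      have a2 := norm_le_one_of_sq_le (hS.VV_re hξ.le)
      linarith
    have h3 : 1 / 10 ≤ ‖ζ - ξ‖ ^ α := by
      calc (1:ℝ) / 10 = (1 / 10) ^ (1:ℝ) := by simp
        _ ≤ (1 / 10) ^ α := Real.rpow_le_rpow_of_exponent_ge (by norm_num) (by norm_num) hα1.le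
        _ ≤ ‖ζ - ξ‖ ^ α := by gcongr
    refine h2.trans ?_
    calc (2:ℝ) = 20 * (1 / 10) := by norm_num
      _ ≤ 20 * ‖ζ - ξ‖ ^ α := by gcongr
      _ ≤ _ := by gcongr; linarith
  by_cases c1 : 1 / 2 ≤ ‖ζ + 1‖
  · by_cases c2 : 1 / 2 ≤ ‖ξ + 1‖
    · have n1 : ζ ≠ -1 := by
        rintro rfl
        norm_num at c1
      have n2 : ξ ≠ -1 := by
        rintro rfl
        norm_num at c2
      have h1 := Phi_norm_le hζ c1
      have h2 := Phi_norm_le hξ c2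
      rw [VV_ne n1, VV_ne n2, Phi_real hζ n1, Phi_real hξ n2]
      refine (hS.lip (Phi ζ).re (abs_le.1 h1) (Phi ξ).re (abs_le.1 h2)).trans ?_
      have h3 := le_cay_sub h1 h2
      rw [cay_Phi hζ n1, cay_Phi hξ n2] at h3
      have h4 : |(Phi ζ).re - (Phi ξ).re| ^ α ≤ 17 / 2 * ‖ζ - ξ‖ ^ α := by
        calc |(Phi ζ).re - (Phi ξ).re| ^ α ≤ (17 / 2 * ‖ζ - ξ‖) ^ α := by gcongr
          _ = (17 / 2) ^ α * ‖ζ - ξ‖ ^ α := Real.mul_rpow (by norm_num) (norm_nonneg _)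
          _ ≤ (17 / 2) ^ (1:ℝ) * ‖ζ - ξ‖ ^ α := by
              gcongr
              norm_num
          _ = 17 / 2 * ‖ζ - ξ‖ ^ α := by simp
      calc Λ * |(Phi ζ).re - (Phi ξ).re| ^ α ≤ Λ * (17 / 2 * ‖ζ - ξ‖ ^ α) := by gcongr
        _ = Λ * (17 / 2) * ‖ζ - ξ‖ ^ α := by ring
        _ ≤ _ := by gcongr; linarith
    · push Not at c2
      by_cases c3 : ‖ζ + 1‖ < 3 / 5
      · exact hcase2 c3 (by linarith)
      · push Not at c3
        apply hcase3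
        have := norm_sub_norm_le (ζ + 1) (ξ + 1)
        have e : ζ + 1 - (ξ + 1) = ζ - ξ := by ring
        rw [e] at this
        linarith
  · push Not at c1
    by_cases c3 : ‖ξ + 1‖ < 3 / 5
    · exact hcase2 (by linarith) c3
    · push Not at c3
      apply hcase3
      have := norm_sub_norm_le (ξ + 1) (ζ + 1)
      have e : ξ + 1 - (ζ + 1) = ξ - ζ := by ring
      rw [e, norm_sub_rev] at this
      linarith

end

end Pool.Agent.E8helper79.PS
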