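import Pool.Agent.E8helper79.PS.Cayley

/-!
# Divergence of the distance integral
-/

set_option autoImplicit false

open Complex Filter Topology Metric Set MeasureTheory

namespace Pool.Agent.E8helper79.PS

lemma dist_cont (α : ℝ) (E : Set ℂ) {h : ℝ} (hh : 0 < h) :
    Continuous (fun x : ℝ => (infDist (cay x) E + h) ^ (-α)) := by
  have h1 : Continuous (fun x : ℝ => infDist (cay x) E + h) :=
    ((continuous_infDist_pt E).comp continuous_cay).add continuous_const
  apply h1.rpow_const
  intro x
  left
  have : 0 ≤ infDist (cay x) E := infDist_nonneg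
  linarith

lemma integral_ind {c d : ℝ} (hc : -1 ≤ c) (hcd : c ≤ d) (hd : d ≤ 1) :
    ∫ x in (-1:ℝ)..1, (Icc c d).indicator (fun _ => (1:ℝ)) x = d - c := by
  rw [intervalIntegral.integral_of_le (by norm_num), ← integral_Icc_eq_integral_Ioc,
    setIntegral_indicator measurableSet_Icc]
  have : Icc (-1:ℝ) 1 ∩ Icc c d = Icc c d := by
    apply inter_eq_self_of_subset_right
    exact Icc_subset_Icc hc hd
  rw [this, setIntegral_const, smul_eq_mul, mul_one, Real.volume_real_Icc_of_le hcd]

lemma ind_integrable (c d : ℝ) : IntervalIntegrable (fun x => (Icc c d).indicator (fun _ => (1:ℝ)) x)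
    volume (-1) 1 := by
  rw [intervalIntegrable_iff_integrableOn_Ioc_of_le (by norm_num)]
  apply Integrable.indicator _ measurableSet_Icc
  exact integrable_const _

theorem diverge {α : ℝ} (hα : 0 < α) (hα1 : α ≤ 1) {E : Set ℂ} {P : ℕ → Finset ℝ}
    {L s t : ℕ → ℝ} (hE : ∀ k, ∀ p ∈ P k, cay p ∈ E) (hP : ∀ k, ∀ p ∈ P k, |p| ≤ 1 / 2)
    (hL : ∀ k, 0 < L k) (hL2 : ∀ k, L k ≤ 1 / 2) (hs : ∀ k, 0 < s k)
    (hs2 : ∀ k, 2 * s k ^ (-α) ≤ s (k + 1) ^ (-α))
    (hsep : ∀ k, ∀ p ∈ P k, ∀ q ∈ P k, p ≠ q → 2 * L k < |p - q|)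
    (hcov : ∀ k, ∀ p ∈ P k, ∀ x : ℝ, |x - p| ≤ L k → ∃ p' ∈ P (k + 1), |x - p'| ≤ s k)
    (ht : ∀ k, t k ≤ (P k).card * (2 * L k) * s k ^ (-α))
    (htend : Tendsto (fun n => ∑ k ∈ Finset.range n, t k) atTop atTop) (M : ℝ) :
    ∃ h : ℝ, 0 < h ∧ h ≤ 1 / 2 ∧ M ≤ ∫ x in (-1:ℝ)..1, (infDist (cay x) E + h) ^ (-α) := by
  obtain ⟨K, hK⟩ := (htend.eventually (eventually_ge_atTop (6 * M))).exists
  set a : ℕ → ℝ := fun k => s k ^ (-α) with ha
  have ha0 : ∀ k, 0 < a k := fun k => Real.rpow_pos_of_pos (hs k) _
  have ha2 : ∀ k, 2 * a k ≤ a (k + 1) := hs2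
  -- s is decreasing
  have hsmono : ∀ k j, k ≤ j → s j ≤ s k := by
    intro k j hkj
    induction j, hkj using Nat.le_induction with
    | base => exact le_rfl
    | succ j _ ih =>
      refine le_trans ?_ ih
      by_contra hcon
      push Not at hcon
      have h1 : a (j + 1) ≤ a j := Real.rpow_le_rpow_of_nonpos (hs j) hcon.le (by linarith)
      have h2 := ha2 j
      have h3 := ha0 j
      linarith
  set h : ℝ := min (s K) (1 / 2) with hh
  have hh0 : 0 < h := lt_min (hs K) (by norm_num)
  refine ⟨h, hh0, min_le_right _ _, ?_⟩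
  set Ind : ℕ → ℝ → ℝ := fun k x =>
    ∑ p ∈ P k, (Icc (p - L k) (p + L k)).indicator (fun _ => (1:ℝ)) x with hInd
  set F : ℕ → ℝ → ℝ := fun n x => ∑ k ∈ Finset.range n, a k * Ind k x with hF
  have hmem : ∀ (k : ℕ) (p x : ℝ), x ∈ Icc (p - L k) (p + L k) ↔ |x - p| ≤ L k := by
    intro k p x
    rw [mem_Icc, abs_le]
    constructor
    · intro h; constructor <;> linarith [h.1, h.2]
    · intro h; constructor <;> linarith [h.1, h.2]
  have hInd0 : ∀ k x, (¬ ∃ p ∈ P k, |x - p| ≤ L k) → Ind k x = 0 := by
    intro k x hx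
    push Not at hx
    apply Finset.sum_eq_zero
    intro p hp
    rw [indicator_of_notMem]
    rw [hmem]
    exact not_le.2 (hx p hp)
  have hInd1 : ∀ k x, Ind k x ≤ 1 := by
    intro k x
    by_cases hx : ∃ p ∈ P k, |x - p| ≤ L k
    · obtain ⟨p, hp, hxp⟩ := hx
      simp only [hInd]
      rw [Finset.sum_eq_single p]
      · rw [indicator_of_mem ((hmem k p x).2 hxp)]
      · intro q hq hqp
        rw [indicator_of_notMem]
        rw [hmem]
        intro hxq
        have h1 := hsep k p hp q hq hqp.symm
        have h2 := abs_sub_le p x q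
        rw [abs_sub_comm p x] at h2
        linarith
      · intro hcon; exact absurd hp hcon
    · rw [hInd0 k x hx]; norm_num
  have hC1 : ∀ n x, F n x ≤ a n := by
    intro n x
    induction n with
    | zero => simp only [hF, Finset.range_zero, Finset.sum_empty]; exact (ha0 0).le
    | succ n ih =>
      simp only [hF] at ih ⊢
      rw [Finset.sum_range_succ]
      have h1 := hInd1 n x
      have h2 := ha0 n
      have h3 := ha2 n
      nlinarith
  have hC2 : ∀ n x B, 0 ≤ B → (∀ k < n, (∃ p ∈ P k, |x - p| ≤ L k) → a k ≤ B) → F n x ≤ 2 * B := by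
    intro n x B hB
    induction n with
    | zero => intro _; simp only [hF, Finset.range_zero, Finset.sum_empty]; linarith
    | succ n ih =>
      intro hk
      have hFs : F (n + 1) x = F n x + a n * Ind n x := by
        simp only [hF]; rw [Finset.sum_range_succ]
      rw [hFs]
      by_cases hx : ∃ p ∈ P n, |x - p| ≤ L n
      · have h1 := hk n (by omega) hx
        have h2 := hC1 n x
        have h3 := hInd1 n x
        have h4 := ha0 n
        nlinarith
      · rw [hInd0 n x hx, mul_zero, add_zero]
        exact ih (fun k hkn => hk k (by omega))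
  have hpt : ∀ x : ℝ, F K x ≤ 6 * (infDist (cay x) E + h) ^ (-α) := by
    intro x
    have h0 : 0 ≤ infDist (cay x) E := infDist_nonneg
    have h1 : 0 < (infDist (cay x) E + h) ^ (-α) := Real.rpow_pos_of_pos (by linarith) _
    have h2 := hC2 K x (3 * (infDist (cay x) E + h) ^ (-α)) (by positivity) (by
      rintro k hk ⟨p, hp, hxp⟩
      obtain ⟨p', hp', hxp'⟩ := hcov k p hp x hxp
      have h3 : infDist (cay x) E ≤ 2 * s k := by
        refine (infDist_le_dist_of_mem (hE (k + 1) p' hp')).trans ?_
        rw [dist_eq_norm]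
        refine (cay_sub_le x p').trans ?_
        linarith
      have h4 : h ≤ s k := (min_le_left _ _).trans (hsmono k K hk.le)
      have h5 : (3 * s k) ^ (-α) ≤ (infDist (cay x) E + h) ^ (-α) :=
        Real.rpow_le_rpow_of_nonpos (by linarith) (by linarith) (by linarith)
      have h6 : (3 * s k) ^ (-α) = 3 ^ (-α) * a k := Real.mul_rpow (by norm_num) (hs k).le
      have h7 : (1:ℝ) / 3 ≤ 3 ^ (-α) := by
        calc (1:ℝ) / 3 = 3 ^ (-(1:ℝ)) := by rw [Real.rpow_neg_one]; norm_num
          _ ≤ 3 ^ (-α) := Real.rpow_le_rpow_of_exponent_le (by norm_num) (by linarith)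
      have h8 := ha0 k
      rw [h6] at h5
      nlinarith)
    linarith
  have hFint : IntervalIntegrable (F K) volume (-1) 1 := by
    have : F K = ∑ k ∈ Finset.range K, fun x => a k * Ind k x := by
      funext x; simp only [hF, Finset.sum_apply]
    rw [this]
    apply IntervalIntegrable.sum
    intro k _
    apply IntervalIntegrable.const_mul
    have : Ind k = ∑ p ∈ P k, fun x => (Icc (p - L k) (p + L k)).indicator (fun _ => (1:ℝ)) x := by
      funext x; simp only [hInd, Finset.sum_apply]
    rw [this]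
    apply IntervalIntegrable.sum
    intro p _
    exact ind_integrable _ _
  have hFval : ∫ x in (-1:ℝ)..1, F K x = ∑ k ∈ Finset.range K, a k * ((P k).card * (2 * L k)) := by
    simp only [hF]
    rw [intervalIntegral.integral_finsetSum]
    · apply Finset.sum_congr rfl
      intro k _
      rw [intervalIntegral.integral_const_mul]
      congr 1
      simp only [hInd]
      rw [intervalIntegral.integral_finsetSum]
      · have : ∀ p ∈ P k, ∫ x in (-1:ℝ)..1, (Icc (p - L k) (p + L k)).indicator (fun _ => (1:ℝ)) x =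
            2 * L k := by
          intro p hp
          have h1 := abs_le.1 (hP k p hp)
          have h2 := hL k
          have h3 := hL2 k
          rw [integral_ind (by linarith) (by linarith) (by linarith)]
          ring
        rw [Finset.sum_congr rfl this, Finset.sum_const, nsmul_eq_mul]
      · intro p _
        exact ind_integrable _ _
    · intro k _
      apply IntervalIntegrable.const_mul
      have : Ind k = ∑ p ∈ P k, fun x => (Icc (p - L k) (p + L k)).indicator (fun _ => (1:ℝ)) x := by
        funext x; simp only [hInd, Finset.sum_apply]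
      rw [this]
      apply IntervalIntegrable.sum
      intro p _
      exact ind_integrable _ _
  have hsum : ∑ k ∈ Finset.range K, t k ≤ ∫ x in (-1:ℝ)..1, F K x := by
    rw [hFval]
    apply Finset.sum_le_sum
    intro k _
    refine (ht k).trans (le_of_eq ?_)
    simp only [ha]; ring
  have hmono : ∫ x in (-1:ℝ)..1, F K x ≤
      ∫ x in (-1:ℝ)..1, 6 * (infDist (cay x) E + h) ^ (-α) := by
    apply intervalIntegral.integral_mono_on (by norm_num) hFint
    · exact ((dist_cont α E hh0).const_mul 6).intervalIntegrable _ _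
    · intro x _
      exact hpt x
  rw [intervalIntegral.integral_const_mul] at hmono
  linarith

end Pool.Agent.E8helper79.PS
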