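import Mathlib

/-!
# Elementary facts about Hölder bounds on the real line
-/

set_option autoImplicit false

open Complex Filter Topology Set

namespace Pool.Agent.E8helper79.PS

/-- Hölder bound of order `α` on a set -/
def LipOn (α Λ : ℝ) (f : ℝ → ℂ) (S : Set ℝ) : Prop :=
  ∀ x ∈ S, ∀ y ∈ S, ‖f x - f y‖ ≤ Λ * |x - y| ^ α

lemma LipOn.mono {α Λ Λ' : ℝ} {f : ℝ → ℂ} {S S' : Set ℝ} (h : LipOn α Λ f S) (hΛ : Λ ≤ Λ')
    (hS : S' ⊆ S) : LipOn α Λ' f S' := by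
  intro x hx y hy
  refine (h x (hS hx) y (hS hy)).trans ?_
  gcongr

lemma lin_split {α d ℓ : ℝ} (hα1 : α ≤ 1) (hα : 0 < α) (hd : 0 ≤ d) (hdℓ : d ≤ ℓ) :
    d ≤ ℓ ^ (1 - α) * d ^ α := by
  rcases hd.eq_or_lt with h | h
  · rw [← h, Real.zero_rpow hα.ne', mul_zero]
  · calc d = d ^ (1 - α) * d ^ α := by
          rw [← Real.rpow_add h]; simp
      _ ≤ ℓ ^ (1 - α) * d ^ α := by
          gcongr

lemma lipOn_of_lin {α A ℓ : ℝ} {f : ℝ → ℂ} {S : Set ℝ} (hα : 0 < α) (hα1 : α ≤ 1) (hA : 0 ≤ A)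
    (hℓ : ∀ x ∈ S, ∀ y ∈ S, |x - y| ≤ ℓ)
    (h : ∀ x ∈ S, ∀ y ∈ S, ‖f x - f y‖ ≤ A * |x - y|) : LipOn α (A * ℓ ^ (1 - α)) f S := by
  intro x hx y hy
  refine (h x hx y hy).trans ?_
  rw [mul_assoc]
  exact mul_le_mul_of_nonneg_left (lin_split hα1 hα (abs_nonneg _) (hℓ x hx y hy)) hA

lemma lipOn_of_interp {α A1 A2 : ℝ} {f : ℝ → ℂ} {S : Set ℝ} (hα : 0 < α) (hα1 : α ≤ 1)
    (hA2 : 0 ≤ A2) (hf : ∀ x ∈ S, ‖f x‖ ≤ A1)
    (h : ∀ x ∈ S, ∀ y ∈ S, ‖f x - f y‖ ≤ A2 * |x - y|) :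
    LipOn α ((2 * A1) ^ (1 - α) * A2 ^ α) f S := by
  intro x hx y hy
  have h1 : ‖f x - f y‖ ≤ 2 * A1 := by
    refine (norm_sub_le _ _).trans ?_
    have := hf x hx
    have := hf y hy
    linarith
  have h2 := h x hx y hy
  refine (lin_split hα1 hα (norm_nonneg _) h1).trans ?_
  have h3 : ‖f x - f y‖ ^ α ≤ (A2 * |x - y|) ^ α := by gcongr
  rw [Real.mul_rpow hA2 (abs_nonneg _)] at h3
  rw [mul_assoc]
  have h4 : 0 ≤ (2 * A1) ^ (1 - α) := Real.rpow_nonneg (le_trans (norm_nonneg _) h1) _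
  exact mul_le_mul_of_nonneg_left h3 h4

lemma lipOn_glue {α Λ1 Λ2 a b c : ℝ} {f : ℝ → ℂ} (hα : 0 < α) (h1 : 0 ≤ Λ1) (h2 : 0 ≤ Λ2)
    (ha : LipOn α Λ1 f (Icc a b)) (hc : LipOn α Λ2 f (Icc b c)) :
    LipOn α (Λ1 + Λ2) f (Icc a c) := by
  have key : ∀ x ∈ Icc a b, ∀ y ∈ Icc b c, ‖f x - f y‖ ≤ (Λ1 + Λ2) * |x - y| ^ α := by
    intro x hx y hy
    have hb1 : b ∈ Icc a b := ⟨hx.1.trans hx.2, le_rfl⟩
    have hb2 : b ∈ Icc b c := ⟨le_rfl, hy.1.trans hy.2⟩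
    have e : f x - f y = (f x - f b) + (f b - f y) := by ring
    rw [e]
    refine (norm_add_le _ _).trans ?_
    rw [add_mul]
    have k1 : |x - b| ≤ |x - y| := by
      rw [abs_of_nonpos (by linarith [hx.2]), abs_of_nonpos (by linarith [hx.2, hy.1])]
      linarith [hy.1]
    have k2 : |b - y| ≤ |x - y| := by
      rw [abs_of_nonpos (by linarith [hy.1]), abs_of_nonpos (by linarith [hx.2, hy.1])]
      linarith [hx.2]
    apply add_le_add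
    · refine (ha x hx b hb1).trans ?_
      gcongr
    · refine (hc b hb2 y hy).trans ?_
      gcongr
  intro x hx y hy
  rcases le_total x b with hxb | hxb
  · rcases le_total y b with hyb | hyb
    · refine (ha x ⟨hx.1, hxb⟩ y ⟨hy.1, hyb⟩).trans ?_
      gcongr
      linarith
    · exact key x ⟨hx.1, hxb⟩ y ⟨hyb, hy.2⟩
  · rcases le_total y b with hyb | hyb
    · rw [norm_sub_rev, abs_sub_comm]
      exact key y ⟨hy.1, hyb⟩ x ⟨hxb, hx.2⟩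
    · refine (hc x ⟨hxb, hx.2⟩ y ⟨hyb, hy.2⟩).trans ?_
      gcongr
      linarith

lemma le_of_off_finite {φ : ℝ → ℝ} {a b A : ℝ} (hab : a < b) (hφ : ContinuousOn φ (Icc a b))
    (F : Finset ℝ) (h : ∀ x ∈ Icc a b, x ∉ F → φ x ≤ A) : ∀ x ∈ Icc a b, φ x ≤ A := by
  intro x hx
  have hd : Dense ((F : Set ℝ)ᶜ) := F.countable_toSet.dense_compl ℝ
  have h1 : Ioo a b ⊆ closure (Ioo a b ∩ (F : Set ℝ)ᶜ) := hd.open_subset_closure_inter isOpen_Ioo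
  have h2 : x ∈ closure (Ioo a b ∩ (F : Set ℝ)ᶜ) := by
    have h3 : x ∈ closure (Ioo a b) := by rw [closure_Ioo hab.ne]; exact hx
    have h4 := closure_mono h1 h3
    rwa [closure_closure] at h4
  have hcont : ContinuousWithinAt φ (Ioo a b ∩ (F : Set ℝ)ᶜ) x :=
    (hφ x hx).mono (fun y hy => Ioo_subset_Icc_self hy.1)
  have h5 := hcont.mem_closure_image h2
  have h6 : φ '' (Ioo a b ∩ (F : Set ℝ)ᶜ) ⊆ Iic A := by
    rintro _ ⟨y, hy, rfl⟩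
    exact h y (Ioo_subset_Icc_self hy.1) (fun hF => hy.2 (by exact_mod_cast hF))
  exact (closure_minimal h6 isClosed_Iic) h5

lemma lin_of_hasDeriv {g : ℂ → ℂ} {g' : ℝ → ℂ} {a b A : ℝ}
    (hg : ∀ x ∈ Icc a b, HasDerivAt g (g' x) (x:ℂ)) (hA : ∀ x ∈ Icc a b, ‖g' x‖ ≤ A) :
    ∀ x ∈ Icc a b, ∀ y ∈ Icc a b, ‖g (x:ℂ) - g (y:ℂ)‖ ≤ A * |x - y| := by
  intro x hx y hy
  have h1 : ∀ x ∈ Icc a b, HasDerivWithinAt (fun x : ℝ => g (x:ℂ)) (g' x) (Icc a b) x :=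
    fun x hx => (hg x hx).comp_ofReal.hasDerivWithinAt
  have h2 := Convex.norm_image_sub_le_of_norm_hasDerivWithin_le h1 hA (convex_Icc a b) hy hx
  rw [Real.norm_eq_abs] at h2
  exact h2

lemma lin_of_deriv {g : ℂ → ℂ} {a b A : ℝ} (hg : ∀ x ∈ Icc a b, AnalyticAt ℂ g (x:ℂ))
    (F : Finset ℝ) (hA : ∀ x ∈ Icc a b, x ∉ F → ‖deriv g (x:ℂ)‖ ≤ A) :
    ∀ x ∈ Icc a b, ∀ y ∈ Icc a b, ‖g (x:ℂ) - g (y:ℂ)‖ ≤ A * |x - y| := by
  intro x hx y hy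
  rcases lt_or_ge a b with hab | hab
  · have hcont : ContinuousOn (fun x : ℝ => ‖deriv g (x:ℂ)‖) (Icc a b) := by
      intro x hx
      have h1 : ContinuousAt (deriv g) (x:ℂ) := (hg x hx).deriv.continuousAt
      have h2 : ContinuousAt (fun x : ℝ => deriv g (x:ℂ)) x :=
        ContinuousAt.comp (f := fun x : ℝ => (x:ℂ)) h1 (by fun_prop)
      exact h2.norm.continuousWithinAt
    have h3 := le_of_off_finite hab hcont F hA
    exact lin_of_hasDeriv (g' := fun x => deriv g (x:ℂ))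
      (fun x hx => (hg x hx).differentiableAt.hasDerivAt) h3 x hx y hy
  · have : x = y := by linarith [hx.1, hx.2, hy.1, hy.2]
    rw [this]; simp

end Pool.Agent.E8helper79.PS
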