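import Mathlib

/-!
# A finite lattice of point masses with a displaced linear taper
-/

set_option autoImplicit false

open Complex Finset

namespace Pool.Agent.E8helper79.PS

/-- the trapezoidal profile -/
noncomputable def tau (m n : ℕ) (j : ℤ) : ℝ := max 0 (min 1 (((m:ℝ) + n - |(j:ℝ)|) / n))

/-- the displacement -/
noncomputable def yy (m : ℕ) (j : ℤ) : ℝ := if |j| ≤ (m:ℤ) then 0 else 1

/-- the positions -/
noncomputable def pole (m : ℕ) (j : ℤ) : ℂ := (j:ℂ) - I * (yy m j : ℂ)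

/-- the term of index `j` -/
noncomputable def term (m n : ℕ) (X : ℂ) (j : ℤ) : ℂ := (tau m n j : ℂ) / (X - pole m j)

/-- the lattice sum -/
noncomputable def AA (m n : ℕ) (X : ℂ) : ℂ := ∑ j ∈ Icc (-((m:ℤ) + n)) ((m:ℤ) + n), term m n X j

lemma tau_nonneg (m n : ℕ) (j : ℤ) : 0 ≤ tau m n j := le_max_left _ _

lemma tau_le_one (m n : ℕ) (j : ℤ) : tau m n j ≤ 1 := by
  unfold tau
  exact max_le (by norm_num) (min_le_left _ _)

lemma tau_eq_one {m n : ℕ} (hn : 1 ≤ n) {j : ℤ} (hj : |j| ≤ (m:ℤ)) : tau m n j = 1 := by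
  unfold tau
  have h1 : |(j:ℝ)| ≤ m := by exact_mod_cast hj
  have hn' : (0:ℝ) < n := by exact_mod_cast hn
  have h2 : 1 ≤ ((m:ℝ) + n - |(j:ℝ)|) / n := by
    rw [le_div_iff₀ hn']; linarith
  rw [min_eq_left h2]
  norm_num

lemma tau_eq_zero {m n : ℕ} (hn : 1 ≤ n) {j : ℤ} (hj : (m:ℤ) + n ≤ |j|) : tau m n j = 0 := by
  unfold tau
  have h1 : (m:ℝ) + n ≤ |(j:ℝ)| := by exact_mod_cast hj
  have hn' : (0:ℝ) < n := by exact_mod_cast hn
  have h2 : ((m:ℝ) + n - |(j:ℝ)|) / n ≤ 0 := by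
    apply div_nonpos_of_nonpos_of_nonneg _ hn'.le
    linarith
  have h3 : min 1 (((m:ℝ) + n - |(j:ℝ)|) / n) ≤ 0 := (min_le_right _ _).trans h2
  exact max_eq_left h3

lemma tau_lip {m n : ℕ} (hn : 1 ≤ n) (j k : ℤ) : |tau m n j - tau m n k| ≤ |(j:ℝ) - k| / n := by
  unfold tau
  have hn' : (0:ℝ) < n := by exact_mod_cast hn
  have h1 := abs_max_sub_max_le_abs (min 1 (((m:ℝ) + n - |(j:ℝ)|) / n))
    (min 1 (((m:ℝ) + n - |(k:ℝ)|) / n)) 0
  rw [max_comm, max_comm 0]
  have h2 : |min 1 (((m:ℝ) + n - |(j:ℝ)|) / n) - min 1 (((m:ℝ) + n - |(k:ℝ)|) / n)| ≤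
      |((m:ℝ) + n - |(j:ℝ)|) / n - ((m:ℝ) + n - |(k:ℝ)|) / n| := by
    have := abs_min_sub_min_le_max 1 (((m:ℝ) + n - |(j:ℝ)|) / n) 1 (((m:ℝ) + n - |(k:ℝ)|) / n)
    simpa using this
  refine (h1.trans h2).trans ?_
  rw [← sub_div, abs_div, abs_of_pos hn']
  apply div_le_div_of_nonneg_right _ hn'.le
  have : (m:ℝ) + n - |(j:ℝ)| - ((m:ℝ) + n - |(k:ℝ)|) = |(k:ℝ)| - |(j:ℝ)| := by ring
  rw [this]
  refine (abs_abs_sub_abs_le (k:ℝ) (j:ℝ)).trans ?_
  rw [abs_sub_comm]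

lemma yy_nonneg (m : ℕ) (j : ℤ) : 0 ≤ yy m j := by unfold yy; split_ifs <;> norm_num

lemma yy_le_one (m : ℕ) (j : ℤ) : yy m j ≤ 1 := by unfold yy; split_ifs <;> norm_num

lemma pole_re (m : ℕ) (j : ℤ) : (pole m j).re = j := by simp [pole]

lemma pole_im (m : ℕ) (j : ℤ) : (pole m j).im = - yy m j := by simp [pole]

/-! ### symmetric summation -/

lemma sum_symm {M : Type*} [AddCommMonoid M] (f : ℤ → M) (c : ℤ) (N : ℕ) :
    ∑ j ∈ Icc (c - N) (c + N), f j =
      f c + ∑ i ∈ range N, (f (c - (i + 1)) + f (c + (i + 1))) := by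
  induction N with
  | zero => simp
  | succ N ih =>
    have h : Icc (c - ((N + 1 : ℕ) : ℤ)) (c + ((N + 1 : ℕ) : ℤ)) =
        insert (c - (N + 1)) (insert (c + (N + 1)) (Icc (c - N) (c + N))) := by
      ext j
      simp only [mem_Icc, mem_insert]
      push_cast
      omega
    rw [h, sum_insert, sum_insert, ih, sum_range_succ]
    · abel
    · simp only [mem_Icc]; omega
    · simp only [mem_Icc, mem_insert]; omega

lemma sum_inv_sq (N : ℕ) : ∑ i ∈ range N, (1:ℝ) / ((i:ℝ) + 1) ^ 2 ≤ 2 := by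
  have h : ∀ N : ℕ, ∑ i ∈ range (N + 1), (1:ℝ) / ((i:ℝ) + 1) ^ 2 ≤ 2 - 1 / ((N:ℝ) + 1) := by
    intro N
    induction N with
    | zero => norm_num
    | succ N ih =>
      rw [sum_range_succ]
      have h1 : (1:ℝ) / (((N + 1 : ℕ):ℝ) + 1) ^ 2 ≤ 1 / ((N:ℝ) + 1) - 1 / (((N + 1 : ℕ):ℝ) + 1) := by
        push_cast
        have h0 : (0:ℝ) ≤ N := by positivity
        rw [div_sub_div _ _ (by positivity) (by positivity), div_le_div_iff₀ (by positivity) (by positivity)]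
        nlinarith
      linarith
  cases N with
  | zero => norm_num
  | succ N =>
    refine (h N).trans ?_
    have : (0:ℝ) ≤ 1 / ((N:ℝ) + 1) := by positivity
    linarith

lemma sum_log (a : ℕ) (ha : 1 ≤ a) (N : ℕ) (hN : a ≤ N) :
    ∑ i ∈ (range N).filter (fun i => a ≤ i), (1:ℝ) / ((i:ℝ) + 1) ≤ Real.log (N / a) := by
  induction N, hN using Nat.le_induction with
  | base =>
    have : (range a).filter (fun i => a ≤ i) = ∅ := by
      ext i; simp
    rw [this]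
    have ha' : (a:ℝ) ≠ 0 := by positivity
    simp [div_self ha']
  | succ N hN ih =>
    rw [range_add_one, filter_insert, if_pos hN, sum_insert (by simp)]
    have hN0 : (0:ℝ) < N := by have : 1 ≤ N := ha.trans hN; exact_mod_cast this
    have ha0 : (0:ℝ) < a := by exact_mod_cast ha
    have h1 : Real.log (((N + 1 : ℕ):ℝ) / a) = Real.log (((N:ℝ) + 1) / N) + Real.log (N / a) := by
      rw [← Real.log_mul (by positivity) (by positivity)]
      congr 1
      push_cast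
      field_simp
    rw [h1]
    have h2 : (1:ℝ) / ((N:ℝ) + 1) ≤ Real.log (((N:ℝ) + 1) / N) := by
      have := Real.one_sub_inv_le_log_of_pos (show (0:ℝ) < ((N:ℝ) + 1) / N by positivity)
      refine le_trans (le_of_eq ?_) this
      field_simp
      ring
    linarith

/-- the rest of the lattice sum near the lattice point `c` -/
noncomputable def rest (m n : ℕ) (X : ℂ) (c : ℤ) (N : ℕ) : ℂ :=
  ∑ i ∈ range N, (term m n X (c - (i + 1)) + term m n X (c + (i + 1)))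

lemma AA_split {m n : ℕ} (hn : 1 ≤ n) (X : ℂ) {c : ℤ} (hc : |c| ≤ (m:ℤ) + n) :
    AA m n X = term m n X c + rest m n X c (2 * (m + n)) := by
  unfold AA rest
  rw [← sum_symm (term m n X) c (2 * (m + n))]
  apply sum_subset
  · intro j
    simp only [mem_Icc]
    have := abs_le.1 hc
    push_cast
    omega
  · intro j _ hj2
    simp only [mem_Icc, not_and_or, not_le] at hj2
    have : (m:ℤ) + n ≤ |j| := by
      rcases hj2 with h | h
      · have := neg_le_abs j; omega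
      · have := le_abs_self j; omega
    rw [term, tau_eq_zero hn this]
    simp

lemma pair_bound {m n : ℕ} {x : ℝ} {c : ℤ} (hx : |x - c| ≤ 1 / 2) (i : ℕ) :
    ‖term m n x (c - (i + 1)) + term m n x (c + (i + 1))‖ ≤
      |tau m n (c - (i + 1)) - tau m n (c + (i + 1))| * (2 / ((i:ℝ) + 1)) + 12 * (1 / ((i:ℝ) + 1) ^ 2) := by
  set δ : ℝ := x - c with hδ
  set t1 := tau m n (c - (i + 1)) with ht1
  set t2 := tau m n (c + (i + 1)) with ht2
  set y1 := yy m (c - (i + 1)) with hy1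
  set y2 := yy m (c + (i + 1)) with hy2
  have hi : (0:ℝ) ≤ i := by positivity
  have hδ' := abs_le.1 hx
  set u : ℂ := ((δ + (i + 1) : ℝ) : ℂ) + I * y1 with hu
  set v : ℂ := (((i + 1) - δ : ℝ) : ℂ) - I * y2 with hv
  have e1 : term m n x (c - (i + 1)) = t1 / u := by
    unfold term pole
    rw [hu, hδ]
    congr 1
    push_cast
    ring
  have e2 : term m n x (c + (i + 1)) = - (t2 / v) := by
    unfold term pole
    rw [hv, hδ, ← div_neg]
    congr 1
    push_cast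
    ring
  have hu' : ((i:ℝ) + 1) / 2 ≤ ‖u‖ := by
    have h := abs_re_le_norm u
    have h2 : u.re = δ + (i + 1) := by simp [hu]
    rw [h2] at h
    have := le_abs_self (δ + ((i:ℝ) + 1))
    linarith [hδ'.1]
  have hv' : ((i:ℝ) + 1) / 2 ≤ ‖v‖ := by
    have h := abs_re_le_norm v
    have h2 : v.re = (i + 1) - δ := by simp [hv]
    rw [h2] at h
    have := le_abs_self (((i:ℝ) + 1) - δ)
    linarith [hδ'.2]
  have hu0 : 0 < ‖u‖ := lt_of_lt_of_le (by positivity) hu'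
  have hv0 : 0 < ‖v‖ := lt_of_lt_of_le (by positivity) hv'
  have hun : u ≠ 0 := norm_pos_iff.1 hu0
  have hvn : v ≠ 0 := norm_pos_iff.1 hv0
  have key : term m n x (c - (i + 1)) + term m n x (c + (i + 1)) =
      ((t1 - t2 : ℝ) : ℂ) / u + t2 * ((v - u) / (u * v)) := by
    rw [e1, e2]
    push_cast
    field_simp
    ring
  have hvu : ‖v - u‖ ≤ 3 := by
    have : v - u = ((-2 * δ : ℝ) : ℂ) - I * ((y1 + y2 : ℝ) : ℂ) := by
      rw [hu, hv]; push_cast; ring
    rw [this]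
    refine (norm_sub_le _ _).trans ?_
    rw [norm_mul, norm_I, one_mul, norm_real, norm_real, Real.norm_eq_abs, Real.norm_eq_abs,
      abs_mul, abs_of_nonneg (add_nonneg (yy_nonneg m _) (yy_nonneg m _))]
    have := yy_le_one m (c - (i + 1))
    have := yy_le_one m (c + (i + 1))
    have h3 : |(-2:ℝ)| = 2 := by norm_num
    rw [h3]
    linarith
  rw [key]
  refine (norm_add_le _ _).trans ?_
  have hp : (0:ℝ) < (i:ℝ) + 1 := by positivity
  apply add_le_add
  · rw [norm_div, norm_real, Real.norm_eq_abs, div_eq_mul_inv]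
    apply mul_le_mul_of_nonneg_left _ (abs_nonneg _)
    rw [inv_eq_one_div, div_le_div_iff₀ hu0 hp]
    linarith
  · rw [norm_mul, norm_div, norm_mul, norm_real, Real.norm_eq_abs,
      abs_of_nonneg (tau_nonneg m n _)]
    have h1 : t2 ≤ 1 := tau_le_one m n _
    have h0 : 0 ≤ t2 := tau_nonneg m n _
    have h2 : ‖v - u‖ / (‖u‖ * ‖v‖) ≤ 12 * (1 / ((i:ℝ) + 1) ^ 2) := by
      rw [mul_one_div, div_le_div_iff₀ (by positivity) (by positivity)]
      have h3 : ((i:ℝ) + 1) / 2 * (((i:ℝ) + 1) / 2) ≤ ‖u‖ * ‖v‖ :=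
        mul_le_mul hu' hv' (by positivity) hu0.le
      nlinarith [norm_nonneg (v - u)]
    calc t2 * (‖v - u‖ / (‖u‖ * ‖v‖)) ≤ 1 * (‖v - u‖ / (‖u‖ * ‖v‖)) := by gcongr
      _ ≤ _ := by rw [one_mul]; exact h2

lemma rest_bound {m n : ℕ} (hn : 1 ≤ n) {x : ℝ} {c : ℤ} (hx : |x - c| ≤ 1 / 2) (N : ℕ) (hN : n ≤ N) :
    ‖rest m n x c N‖ ≤ 28 + 2 * Real.log (N / n) := by
  unfold rest
  have hn' : (0:ℝ) < n := by exact_mod_cast hn
  have h1 : ∀ i ∈ range N, ‖term m n x (c - (i + 1)) + term m n x (c + (i + 1))‖ ≤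
      (if i < n then (4:ℝ) / n else 2 * (1 / ((i:ℝ) + 1))) + 12 * (1 / ((i:ℝ) + 1) ^ 2) := by
    intro i _
    refine (pair_bound hx i).trans ?_
    have hp : (0:ℝ) < (i:ℝ) + 1 := by positivity
    apply add_le_add _ le_rfl
    split_ifs with h
    · have h2 := tau_lip (m := m) hn (c - (i + 1)) (c + (i + 1))
      have h3 : |(((c - (i + 1) : ℤ)):ℝ) - ((c + (i + 1) : ℤ):ℝ)| = 2 * (i + 1) := by
        push_cast
        have : (c:ℝ) - (i + 1) - (c + (i + 1)) = - (2 * (i + 1)) := by ring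
        rw [this, abs_neg, abs_of_pos (by positivity)]
      rw [h3] at h2
      calc _ ≤ (2 * ((i:ℝ) + 1) / n) * (2 / ((i:ℝ) + 1)) := by gcongr
        _ = 4 / n := by field_simp; ring
    · have h2 : |tau m n (c - (i + 1)) - tau m n (c + (i + 1))| ≤ 1 := by
        rw [abs_le]
        have a1 := tau_nonneg m n (c - (i + 1))
        have a2 := tau_nonneg m n (c + (i + 1))
        have a3 := tau_le_one m n (c - (i + 1))
        have a4 := tau_le_one m n (c + (i + 1))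
        constructor <;> linarith
      calc _ ≤ 1 * (2 / ((i:ℝ) + 1)) := by gcongr
        _ = 2 * (1 / ((i:ℝ) + 1)) := by ring
  refine (norm_sum_le _ _).trans ((sum_le_sum h1).trans ?_)
  rw [sum_add_distrib, ← mul_sum]
  have h2 := sum_inv_sq N
  have h3 : ∑ i ∈ range N, (if i < n then (4:ℝ) / n else 2 * (1 / ((i:ℝ) + 1))) ≤
      4 + 2 * Real.log (N / n) := by
    rw [sum_ite]
    have h4 : ∑ i ∈ (range N).filter (fun i => i < n), (4:ℝ) / n ≤ 4 := by
      rw [sum_const, nsmul_eq_mul]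
      have : (((range N).filter (fun i => i < n)).card : ℝ) ≤ n := by
        have h5 : ((range N).filter (fun i => i < n)) ⊆ range n := by
          intro i hi
          simp only [mem_filter, mem_range] at hi ⊢
          exact hi.2
        have := card_le_card h5
        rw [card_range] at this
        exact_mod_cast this
      calc _ ≤ (n:ℝ) * (4 / n) := by gcongr
        _ = 4 := by field_simp
    have h5 : ∑ i ∈ (range N).filter (fun i => ¬ i < n), 2 * ((1:ℝ) / ((i:ℝ) + 1)) ≤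
        2 * Real.log (N / n) := by
      rw [← mul_sum]
      have := sum_log n hn N hN
      simp only [not_lt]
      linarith
    linarith
  linarith

/-! ### the derivative -/

/-- the derivative of the lattice sum -/
noncomputable def dA (m n : ℕ) (X : ℂ) : ℂ :=
  - ∑ j ∈ Icc (-((m:ℤ) + n)) ((m:ℤ) + n), (tau m n j : ℂ) / (X - pole m j) ^ 2

lemma norm_sub_pole_ge {m : ℕ} {x : ℝ} {c : ℤ} (hx : |x - c| ≤ 1 / 2) {j : ℤ} (hj : j ≠ c) :
    |((j:ℝ) - c)| / 2 ≤ ‖(x:ℂ) - pole m j‖ := by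
  have h := abs_re_le_norm ((x:ℂ) - pole m j)
  have h2 : ((x:ℂ) - pole m j).re = x - j := by simp [pole_re]
  rw [h2] at h
  have h3 : (1:ℝ) ≤ |(j:ℝ) - c| := by
    have : (1:ℤ) ≤ |j - c| := Int.one_le_abs (sub_ne_zero.2 hj)
    exact_mod_cast this
  have h4 : |(j:ℝ) - c| ≤ |x - j| + |x - c| := by
    have := abs_sub_le (j:ℝ) x c
    rw [abs_sub_comm (j:ℝ) x] at this
    exact this
  linarith

lemma dA_bound {m n : ℕ} {x : ℝ} {c : ℤ} (hx : |x - c| ≤ 1 / 2) :
    ‖dA m n x‖ ≤ tau m n c / ‖(x:ℂ) - pole m c‖ ^ 2 + 16 := by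
  unfold dA
  rw [norm_neg]
  refine (norm_sum_le _ _).trans ?_
  set f : ℤ → ℝ := fun j => tau m n j / ‖(x:ℂ) - pole m j‖ ^ 2 with hf
  have hf0 : ∀ j, 0 ≤ f j := fun j => div_nonneg (tau_nonneg m n j) (by positivity)
  have h1 : ∑ j ∈ Icc (-((m:ℤ) + n)) ((m:ℤ) + n), ‖(tau m n j : ℂ) / ((x:ℂ) - pole m j) ^ 2‖ =
      ∑ j ∈ Icc (-((m:ℤ) + n)) ((m:ℤ) + n), f j := by
    apply sum_congr rfl
    intro j _
    rw [norm_div, norm_pow, norm_real, Real.norm_eq_abs, abs_of_nonneg (tau_nonneg m n j)]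
  rw [h1]
  set N : ℕ := c.natAbs + m + n with hN
  have h2 : ∑ j ∈ Icc (-((m:ℤ) + n)) ((m:ℤ) + n), f j ≤ ∑ j ∈ Icc (c - N) (c + N), f j := by
    apply sum_le_sum_of_subset_of_nonneg
    · intro j
      simp only [mem_Icc]
      omega
    · intro j _ _
      exact hf0 j
  refine h2.trans ?_
  rw [sum_symm]
  apply add_le_add le_rfl
  have h3 : ∀ i ∈ range N, f (c - (i + 1)) + f (c + (i + 1)) ≤ 8 * (1 / ((i:ℝ) + 1) ^ 2) := by
    intro i _
    have hp : (0:ℝ) < (i:ℝ) + 1 := by positivity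
    have aux : ∀ j : ℤ, |((j:ℝ) - c)| = (i:ℝ) + 1 → j ≠ c → f j ≤ 4 * (1 / ((i:ℝ) + 1) ^ 2) := by
      intro j hj hjc
      have h4 := norm_sub_pole_ge (m := m) hx hjc
      rw [hj] at h4
      have h5 : (((i:ℝ) + 1) / 2) ^ 2 ≤ ‖(x:ℂ) - pole m j‖ ^ 2 := by gcongr
      calc f j ≤ 1 / (((i:ℝ) + 1) / 2) ^ 2 := by
            simp only [hf]
            apply div_le_div₀ (by norm_num) (tau_le_one m n j) (by positivity) h5
        _ = 4 * (1 / ((i:ℝ) + 1) ^ 2) := by field_simp; ring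
    have a1 := aux (c - (i + 1)) (by
      push_cast
      have : (c:ℝ) - (i + 1) - c = - (i + 1) := by ring
      rw [this, abs_neg, abs_of_pos hp]) (by omega)
    have a2 := aux (c + (i + 1)) (by
      push_cast
      have : (c:ℝ) + (i + 1) - c = (i + 1) := by ring
      rw [this, abs_of_pos hp]) (by omega)
    linarith
  refine (sum_le_sum h3).trans ?_
  rw [← mul_sum]
  have := sum_inv_sq N
  linarith

/-- the main lattice estimate: `|A'| ≤ 2 |A|² + C` on the real line -/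
lemma dA_le {m n : ℕ} (hn : 1 ≤ n) (x : ℝ) (hx : ∀ j : ℤ, |j| ≤ (m:ℤ) → x ≠ j) :
    ‖dA m n x‖ ≤ 2 * ‖AA m n x‖ ^ 2 +
      (2 * (28 + 2 * Real.log ((2 * (m + n) : ℕ) / n)) ^ 2 + 17) := by
  set c : ℤ := round x with hc
  have hxc : |x - c| ≤ 1 / 2 := abs_sub_round x
  have h1 := dA_bound (m := m) (n := n) hxc
  by_cases hcm : |c| ≤ (m:ℤ)
  · have hsplit := AA_split (m := m) hn (x:ℂ) (c := c) (by omega)
    have hr := rest_bound (m := m) hn hxc (2 * (m + n)) (by omega)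
    set C : ℝ := 28 + 2 * Real.log ((2 * (m + n) : ℕ) / n) with hC
    have hpole : pole m c = c := by
      simp [pole, yy, hcm]
    have hne : (x:ℂ) - c ≠ 0 := by
      intro h
      have h2 : (x:ℂ) = ((c:ℝ):ℂ) := by push_cast; exact sub_eq_zero.1 h
      exact hx c hcm (by exact_mod_cast h2)
    have ht : tau m n c = 1 := tau_eq_one hn hcm
    have hterm : term m n x c = 1 / ((x:ℂ) - c) := by
      rw [term, ht, hpole]; push_cast; rfl
    rw [ht, hpole] at h1
    have h3 : 1 / ‖(x:ℂ) - c‖ ≤ ‖AA m n x‖ + C := by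
      have : 1 / ((x:ℂ) - c) = AA m n x - rest m n x c (2 * (m + n)) := by
        rw [hsplit, hterm]; ring
      calc 1 / ‖(x:ℂ) - c‖ = ‖1 / ((x:ℂ) - c)‖ := by rw [norm_div, norm_one]
        _ = ‖AA m n x - rest m n x c (2 * (m + n))‖ := by rw [this]
        _ ≤ ‖AA m n x‖ + ‖rest m n x c (2 * (m + n))‖ := norm_sub_le _ _
        _ ≤ _ := by linarith
    have h4 : 1 / ‖(x:ℂ) - c‖ ^ 2 ≤ (‖AA m n x‖ + C) ^ 2 := by
      rw [← one_div_pow]
      gcongr
    have h5 : (‖AA m n x‖ + C) ^ 2 ≤ 2 * ‖AA m n x‖ ^ 2 + 2 * C ^ 2 := by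
      nlinarith [sq_nonneg (‖AA m n x‖ - C)]
    linarith
  · have hy : yy m c = 1 := by simp [yy, hcm]
    have h2 : 1 ≤ ‖(x:ℂ) - pole m c‖ := by
      have h := abs_im_le_norm ((x:ℂ) - pole m c)
      have h3 : ((x:ℂ) - pole m c).im = 1 := by simp [pole_im, hy]
      rw [h3, abs_one] at h
      exact h
    have h3 : tau m n c / ‖(x:ℂ) - pole m c‖ ^ 2 ≤ 1 := by
      rw [div_le_one (by positivity)]
      have : (1:ℝ) ≤ ‖(x:ℂ) - pole m c‖ ^ 2 := one_le_pow₀ h2
      linarith [tau_le_one m n c]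
    have h4 : 0 ≤ 2 * ‖AA m n x‖ ^ 2 := by positivity
    have h5 : 0 ≤ 2 * (28 + 2 * Real.log ((2 * (m + n) : ℕ) / n)) ^ 2 := by positivity
    linarith

end Pool.Agent.E8helper79.PS
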