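import Pool.Agent.E8helper79.PS.Disc

/-!
# The limit function
-/

set_option autoImplicit false

open Complex Filter Topology Metric Set

namespace Pool.Agent.E8helper79.PS

theorem exists_disc {α : ℝ} (hα : 0 < α) (hα1 : α < 1) :
    ∃ (V : ℂ → ℂ) (P : ℕ → Finset ℝ) (L s t : ℕ → ℝ) (C : ℝ),
      DiffContOnCl ℂ V (ball 0 1) ∧ (∀ ζ : ℂ, ‖ζ‖ ≤ 1 → ‖V ζ‖ ^ 2 ≤ (V ζ).re) ∧
      (∀ ζ ξ : ℂ, ‖ζ‖ = 1 → ‖ξ‖ = 1 → ‖V ζ - V ξ‖ ≤ C * ‖ζ - ξ‖ ^ α) ∧
      (∀ k, ∀ p ∈ P k, V (cay p) = 0) ∧ (∀ k, ∀ p ∈ P k, |p| ≤ 1 / 2) ∧ (∀ k, (P k).Nonempty) ∧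
      (∀ k, 0 < L k) ∧ (∀ k, L k ≤ 1 / 2) ∧ (∀ k, 0 < s k) ∧
      (∀ k, 2 * s k ^ (-α) ≤ s (k + 1) ^ (-α)) ∧
      (∀ k, ∀ p ∈ P k, ∀ q ∈ P k, p ≠ q → 2 * L k < |p - q|) ∧
      (∀ k, ∀ p ∈ P k, ∀ x : ℝ, |x - p| ≤ L k → ∃ p' ∈ P (k + 1), |x - p'| ≤ s k) ∧
      (∀ k, t k ≤ (P k).card * (2 * L k) * s k ^ (-α)) ∧
      Tendsto (fun n => ∑ k ∈ Finset.range n, t k) atTop atTop := by
  obtain ⟨P, μ, b, L, s, t, Λ, hΛ, hS, hsub, hdiff, hL, hL2, hs, hs2, hsep, hcov, ht, htend⟩ :=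
    exists_seq hα hα1
  set v : ℕ → ℂ → ℂ := fun k => VV (P k) (μ k) (b k) with hv
  have hdc : ∀ k, DiffContOnCl ℂ (v k) (ball 0 1) := fun k => (hS k).VV_diffCont
  have h1 : ∀ k, ∀ ζ ∈ closedBall (0:ℂ) 1, ‖v (k + 1) ζ - v k ζ‖ ≤ (1 / 2) ^ (k + 3) := by
    intro k ζ hζ
    have h := Complex.norm_le_of_forall_mem_frontier_norm_le (isBounded_ball (x := (0:ℂ)) (r := 1))
      ((hdc (k + 1)).sub (hdc k)) (C := (1 / 2) ^ (k + 3)) ?_ (z := ζ) ?_
    · exact h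
    · intro z hz
      rw [frontier_ball (0:ℂ) one_ne_zero, mem_sphere_zero_iff_norm] at hz
      by_cases hne : z = -1
      · simp only [Pi.sub_apply, hv, hne, VV_neg_one, sub_self, norm_zero]
        positivity
      · simp only [Pi.sub_apply, hv, VV_ne hne]
        rw [Phi_real hz hne]
        exact hdiff k _
    · rw [closure_ball (0:ℂ) one_ne_zero]; exact hζ
  have h2 : ∀ ζ ∈ closedBall (0:ℂ) 1, ∀ k, dist (v k ζ) (v (k + 1) ζ) ≤ 1 / 8 * (1 / 2) ^ k := by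
    intro ζ hζ k
    rw [dist_eq_norm, norm_sub_rev]
    refine (h1 k ζ hζ).trans (le_of_eq ?_)
    rw [pow_add]
    norm_num
    ring
  have h3 : ∀ ζ : ℂ, ∃ y : ℂ, ζ ∈ closedBall (0:ℂ) 1 → Tendsto (fun k => v k ζ) atTop (𝓝 y) := by
    intro ζ
    by_cases hζ : ζ ∈ closedBall (0:ℂ) 1
    · obtain ⟨y, hy⟩ := cauchySeq_tendsto_of_complete
        (cauchySeq_of_le_geometric (1 / 2) (1 / 8) (by norm_num) (h2 ζ hζ))
      exact ⟨y, fun _ => hy⟩
    · exact ⟨0, fun h => absurd h hζ⟩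
  choose V hV using h3
  have hunif : TendstoUniformlyOn v V atTop (closedBall 0 1) := by
    rw [Metric.tendstoUniformlyOn_iff]
    intro ε hε
    have h4 : Tendsto (fun k : ℕ => (1:ℝ) / 8 * (1 / 2) ^ k / (1 - 1 / 2)) atTop (𝓝 0) := by
      have h5 := (tendsto_pow_atTop_nhds_zero_of_lt_one (by norm_num : (0:ℝ) ≤ 1 / 2)
        (by norm_num)).const_mul (1 / 8 : ℝ)
      have h6 := h5.div_const (1 - 1 / 2 : ℝ)
      simpa using h6
    filter_upwards [h4.eventually (gt_mem_nhds hε)] with k hk ζ hζ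
    have h5 := dist_le_of_le_geometric_of_tendsto (1 / 2) (1 / 8) (by norm_num) (h2 ζ hζ) (hV ζ hζ) k
    rw [dist_comm]
    exact h5.trans_lt hk
  have hmono : ∀ k j, k ≤ j → P k ⊆ P j := by
    intro k j hkj
    induction j, hkj using Nat.le_induction with
    | base => exact subset_rfl
    | succ j _ ih => exact ih.trans (hsub j)
  refine ⟨V, P, L, s, t, Λ * (17 / 2) + 84, ⟨?_, ?_⟩, ?_, ?_, ?_, fun k => (hS k).hcP,
    fun k => (hS k).hne, hL, hL2, hs, hs2, hsep, hcov, ht, htend⟩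
  · have h4 : TendstoLocallyUniformlyOn v V atTop (ball 0 1) :=
      (hunif.mono ball_subset_closedBall).tendstoLocallyUniformlyOn
    exact h4.differentiableOn (Eventually.of_forall fun k => (hdc k).differentiableOn) isOpen_ball
  · rw [closure_ball (0:ℂ) one_ne_zero]
    apply hunif.continuousOn
    apply Frequently.of_forall
    intro k
    have := (hdc k).continuousOn
    rw [closure_ball (0:ℂ) one_ne_zero] at this
    exact this
  · intro ζ hζ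
    have h4 := hV ζ (by rw [mem_closedBall, dist_zero_right]; exact hζ)
    have h5 : Tendsto (fun k => ‖v k ζ‖ ^ 2) atTop (𝓝 (‖V ζ‖ ^ 2)) := (h4.norm).pow 2
    have h6 : Tendsto (fun k => (v k ζ).re) atTop (𝓝 ((V ζ).re)) :=
      (Complex.continuous_re.tendsto _).comp h4
    exact le_of_tendsto_of_tendsto' h5 h6 (fun k => (hS k).VV_re hζ)
  · intro ζ ξ hζ hξ
    have h4 := hV ζ (by rw [mem_closedBall, dist_zero_right]; exact hζ.le)
    have h5 := hV ξ (by rw [mem_closedBall, dist_zero_right]; exact hξ.le)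
    exact le_of_tendsto' (h4.sub h5).norm (fun k => (hS k).VV_lip hα hα1 hΛ hζ hξ)
  · intro k p hp
    have h4 := hV (cay p) (by rw [mem_closedBall, dist_zero_right, cay_norm])
    have h5 : Tendsto (fun j => v j (cay p)) atTop (𝓝 0) := by
      apply tendsto_const_nhds.congr'
      filter_upwards [eventually_ge_atTop k] with j hj
      simp only [hv, VV_ne (cay_ne p), Phi_cay]
      exact (Uf_node (hmono k j hj hp)).symm
    exact tendsto_nhds_unique h4 h5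

end Pool.Agent.E8helper79.PS
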