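import Pool.Agent.E8helper79.PS.Cluster5

/-!
# Choice of parameters
-/

set_option autoImplicit false

open Finset Filter Topology

namespace Pool.Agent.E8helper79.PS

lemma Kω_bound {s : ℝ} (hs : 0 < s) : ∃ C2 > 0, ∀ κ : ℝ, 0 < κ → κ ≤ 1 →
    Kω (κ ^ 2) ≤ C2 * κ ^ (-(4 * s)) := by
  set C1 : ℝ := 2 * (28 + 2 / s) ^ 2 + 17 with hC1
  refine ⟨80000 ^ 2 * (2 * C1 + 2) * 8 ^ (2 * s), by positivity, fun κ hκ hκ1 => ?_⟩
  have hκ2 : κ ^ 2 ≤ 1 := by nlinarith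
  have h8 : 1 ≤ 8 / κ ^ 2 := by
    rw [le_div_iff₀ (by positivity)]
    linarith
  set y : ℝ := (8 / κ ^ 2) ^ s with hy
  have hy1 : 1 ≤ y := Real.one_le_rpow h8 hs.le
  have hlog : Real.log (8 / κ ^ 2) ≤ y / s := Real.log_le_rpow_div (by positivity) hs
  have hlog0 : 0 ≤ Real.log (8 / κ ^ 2) := Real.log_nonneg h8
  have h1 : 28 + 2 * Real.log (8 / κ ^ 2) ≤ (28 + 2 / s) * y := by
    have : 2 * (y / s) = 2 / s * y := by ring
    nlinarith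
  have hD : Dω (κ ^ 2) ≤ C1 * y ^ 2 := by
    unfold Dω
    have h2 : (28 + 2 * Real.log (8 / κ ^ 2)) ^ 2 ≤ ((28 + 2 / s) * y) ^ 2 := by gcongr
    have h3 : 1 ≤ y ^ 2 := one_le_pow₀ hy1
    rw [hC1]
    nlinarith
  have hy2 : y ^ 2 = 8 ^ (2 * s) * κ ^ (-(4 * s)) := by
    rw [hy, ← Real.rpow_natCast, ← Real.rpow_mul (by positivity), div_eq_mul_inv,
      Real.mul_rpow (by norm_num) (by positivity), ← Real.rpow_natCast κ 2,
      ← Real.rpow_neg hκ.le, ← Real.rpow_mul hκ.le]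
    push_cast
    congr 2 <;> ring
  unfold Kω
  have h3 : 1 ≤ y ^ 2 := one_le_pow₀ hy1
  calc 80000 ^ 2 * (2 * Dω (κ ^ 2) + 2) ≤ 80000 ^ 2 * (2 * (C1 * y ^ 2) + 2 * y ^ 2) := by
        gcongr
        linarith
    _ = 80000 ^ 2 * (2 * C1 + 2) * y ^ 2 := by ring
    _ = _ := by rw [hy2]; ring

lemma Kω_pos (ω : ℝ) : 0 < Kω ω := by
  unfold Kω Dω
  positivity

lemma T_bound {α s : ℝ} (hα : 0 < α) (hs : 0 < s) : ∃ C3 > 0, ∀ κ : ℝ, 0 < κ → κ ≤ 1 →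
    (4 / (κ / 480000)) ^ (1 - α) * (8 * (6 * (Kω (κ ^ 2) / κ ^ 2))) ^ α ≤
      C3 * κ ^ (-(1 + α + 4 * s * α)) := by
  obtain ⟨C2, hC2, h⟩ := Kω_bound hs
  refine ⟨1920000 ^ (1 - α) * (48 * C2) ^ α, by positivity, fun κ hκ hκ1 => ?_⟩
  have e1 : (4 / (κ / 480000)) ^ (1 - α) = 1920000 ^ (1 - α) * κ ^ (-(1 - α)) := by
    rw [Real.rpow_neg hκ.le, ← Real.inv_rpow hκ.le, ← Real.mul_rpow (by norm_num) (by positivity)]
    congr 1
    field_simp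
    norm_num
  have e2 : 8 * (6 * (Kω (κ ^ 2) / κ ^ 2)) ≤ (48 * C2) * κ ^ (-(4 * s) - 2) := by
    have h1 := h κ hκ hκ1
    have h2 : κ ^ (-(4 * s) - 2) = κ ^ (-(4 * s)) / κ ^ 2 := by
      rw [Real.rpow_sub hκ]
      norm_num
    rw [h2]
    calc 8 * (6 * (Kω (κ ^ 2) / κ ^ 2)) = 48 * (Kω (κ ^ 2) / κ ^ 2) := by ring
      _ ≤ 48 * (C2 * κ ^ (-(4 * s)) / κ ^ 2) := by gcongr
      _ = _ := by ring
  have hK := Kω_pos (κ ^ 2)
  have e3 : (8 * (6 * (Kω (κ ^ 2) / κ ^ 2))) ^ α ≤ (48 * C2) ^ α * κ ^ ((-(4 * s) - 2) * α) := by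
    rw [Real.rpow_mul hκ.le, ← Real.mul_rpow (by positivity) (by positivity)]
    gcongr
  rw [e1]
  calc 1920000 ^ (1 - α) * κ ^ (-(1 - α)) * (8 * (6 * (Kω (κ ^ 2) / κ ^ 2))) ^ α ≤
        1920000 ^ (1 - α) * κ ^ (-(1 - α)) * ((48 * C2) ^ α * κ ^ ((-(4 * s) - 2) * α)) := by
          gcongr
    _ = 1920000 ^ (1 - α) * (48 * C2) ^ α * (κ ^ (-(1 - α)) * κ ^ ((-(4 * s) - 2) * α)) := by ring
    _ = _ := by
        rw [← Real.rpow_add hκ]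
        congr 2
        ring

theorem params {α : ℝ} (hα : 0 < α) (hα1 : α < 1) : ∃ κ t : ℕ → ℝ,
    (∀ k, 0 < κ k) ∧ (∀ k, κ k ≤ 1) ∧ (∀ k, 0 < t k) ∧
    (∀ k, (4 / (κ k / 480000)) ^ (1 - α) * (8 * (6 * (Kω (κ k ^ 2) / κ k ^ 2))) ^ α * t k ≤ 2 / 3) ∧
    (∀ n, ∑ k ∈ range n, 2 * κ k ^ 2 ≤ 1 / 2) ∧
    Tendsto (fun n => ∑ k ∈ range n, t k) atTop atTop := by
  set s : ℝ := (1 - α) / 8 with hs
  have hs0 : 0 < s := by rw [hs]; linarith
  obtain ⟨C3, hC3, h⟩ := T_bound hα hs0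
  set A : ℝ := 1 + α + 4 * s * α with hA
  have hA0 : 0 < A := by positivity
  have hA2 : A < 2 := by
    rw [hA, hs]
    nlinarith
  have hp : 1 < 2 / A := by rw [lt_div_iff₀ hA0]; linarith
  have hsum : Summable (fun k : ℕ => ((k:ℝ) + 1) ^ (-(2 / A))) := by
    have h1 : Summable (fun k : ℕ => (k:ℝ) ^ (-(2 / A))) := Real.summable_nat_rpow.2 (by linarith)
    have h2 := (summable_nat_add_iff 1).2 h1
    refine h2.congr (fun k => ?_)
    push_cast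
    rfl
  set S : ℝ := ∑' k : ℕ, ((k:ℝ) + 1) ^ (-(2 / A)) with hS
  have hS0 : 0 ≤ S := tsum_nonneg (fun k => by positivity)
  set κs : ℝ := 1 / (2 * (1 + S)) with hκs
  have hκs0 : 0 < κs := by positivity
  have hκs1 : κs ≤ 1 := by
    rw [hκs, div_le_one (by positivity)]
    linarith
  set κ : ℕ → ℝ := fun k => κs * ((k:ℝ) + 1) ^ (-(1 / A)) with hκ
  set c : ℝ := (2 / 3) / (C3 * κs ^ (-A)) with hc
  have hc0 : 0 < c := by
    have : 0 < κs ^ (-A) := Real.rpow_pos_of_pos hκs0 _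
    positivity
  have hκ0 : ∀ k, 0 < κ k := by
    intro k
    have : 0 < ((k:ℝ) + 1) ^ (-(1 / A)) := Real.rpow_pos_of_pos (by positivity) _
    exact mul_pos hκs0 this
  have hκ1 : ∀ k, κ k ≤ 1 := by
    intro k
    have h1 : ((k:ℝ) + 1) ^ (-(1 / A)) ≤ 1 := by
      apply Real.rpow_le_one_of_one_le_of_nonpos
      · have : (0:ℝ) ≤ k := by positivity
        linarith
      · have : 0 < 1 / A := by positivity
        linarith
    have h2 : 0 < ((k:ℝ) + 1) ^ (-(1 / A)) := Real.rpow_pos_of_pos (by positivity) _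
    simp only [hκ]
    nlinarith
  refine ⟨κ, fun k => c * (1 / ((k:ℝ) + 1)), hκ0, hκ1, fun k => by positivity, ?_, ?_, ?_⟩
  · intro k
    have h1 := h (κ k) (hκ0 k) (hκ1 k)
    have hk : (0:ℝ) < (k:ℝ) + 1 := by positivity
    have h2 : κ k ^ (-A) = κs ^ (-A) * ((k:ℝ) + 1) := by
      simp only [hκ]
      rw [Real.mul_rpow hκs0.le (by positivity), ← Real.rpow_mul hk.le]
      congr 1
      have : -(1 / A) * -A = 1 := by field_simp
      rw [this, Real.rpow_one]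
    rw [h2] at h1
    have hκA : 0 < κs ^ (-A) := Real.rpow_pos_of_pos hκs0 _
    calc _ ≤ (C3 * (κs ^ (-A) * ((k:ℝ) + 1))) * (c * (1 / ((k:ℝ) + 1))) := by gcongr
      _ = 2 / 3 := by rw [hc]; field_simp
  · intro n
    have h1 : ∀ k : ℕ, 2 * κ k ^ 2 = 2 * κs ^ 2 * ((k:ℝ) + 1) ^ (-(2 / A)) := by
      intro k
      have hk : (0:ℝ) < (k:ℝ) + 1 := by positivity
      simp only [hκ]
      rw [mul_pow, ← Real.rpow_natCast (((k:ℝ) + 1) ^ (-(1 / A))) 2, ← Real.rpow_mul hk.le]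
      have : -(1 / A) * ((2:ℕ):ℝ) = -(2 / A) := by push_cast; ring
      rw [this]
      ring
    simp only [h1]
    rw [← mul_sum]
    have h2 : ∑ k ∈ range n, ((k:ℝ) + 1) ^ (-(2 / A)) ≤ S :=
      hsum.sum_le_tsum _ (fun k _ => by positivity)
    calc 2 * κs ^ 2 * ∑ k ∈ range n, ((k:ℝ) + 1) ^ (-(2 / A)) ≤ 2 * κs ^ 2 * S := by gcongr
      _ ≤ 1 / 2 := by
          rw [hκs, one_div_pow, mul_one_div, div_mul_eq_mul_div, div_le_div_iff₀ (by positivity)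
            (by norm_num)]
          nlinarith
  · have h1 : (fun n => ∑ k ∈ range n, c * (1 / ((k:ℝ) + 1))) =
        fun n => c * ∑ k ∈ range n, 1 / ((k:ℝ) + 1) := by
      funext n
      rw [mul_sum]
    rw [h1]
    exact Real.tendsto_sum_range_one_div_nat_succ_atTop.const_mul_atTop hc0

end Pool.Agent.E8helper79.PS
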