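import Pool.Agent.E8helper79.PS.Step6
import Pool.Agent.E8helper79.PS.Params

/-!
# The sequence of stages
-/

set_option autoImplicit false

open Complex Finset Filter Topology

namespace Pool.Agent.E8helper79.PS

lemma IsStage.mono {α : ℝ} {P : Finset ℝ} {μ : ℝ} {b : ℂ → ℂ} {c C Λ c' C' Λ' : ℝ}
    (h : IsStage α P μ b c C Λ) (hc : c ≤ c') (hC : C ≤ C') (hΛ : Λ ≤ Λ') :
    IsStage α P μ b c' C' Λ' := by
  refine ⟨h.hμ, h.hne, fun p hp => (h.hcP p hp).trans hc, h.ban, h.bre, h.bfar, fun z hz => ?_,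
    h.lip.mono hΛ subset_rfl⟩
  refine (h.gfar z hz).trans ?_
  gcongr

lemma init_stage {α : ℝ} (hα : 0 < α) (hα1 : α < 1) :
    IsStage α {0} (1 / 4) 0 0 (1 / 4) (4 * 8 ^ (1 - α)) := by
  refine ⟨by norm_num, ⟨0, by simp⟩, by simp, fun z _ => analyticAt_const, by simp,
    fun z _ => analyticAt_const, ?_, ?_⟩
  · intro z _
    unfold Gf
    simp only [sum_singleton, Pi.zero_apply, add_zero, ofReal_zero, sub_zero, norm_div, norm_mul,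
      norm_I, one_mul]
    norm_num
  · have han : ∀ x ∈ Set.Icc (-4:ℝ) 4, AnalyticAt ℂ (Uf {0} (1 / 4) 0) (x:ℂ) := fun x _ =>
      analyticAt_Uf analyticAt_const (DU_ne (by norm_num) (by simp) (by simp))
    have hder : ∀ x ∈ Set.Icc (-4:ℝ) 4, x ∉ ({0} : Finset ℝ) →
        ‖deriv (Uf {0} (1 / 4) 0) (x:ℂ)‖ ≤ 4 := by
      intro x _ hx0
      have hx : x ≠ 0 := by simpa using hx0
      have hx' : (x:ℂ) ≠ 0 := by exact_mod_cast hx
      have hne := ofReal_ne_of_not_mem hx0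
      have hG := hasDerivAt_Gf (P := {0}) (μ := 1 / 4) (b := 0) (z := (x:ℂ)) hne
        (differentiableAt_const (0:ℂ))
      have hU := hasDerivAt_Uf hne hG (one_add_Gf_ne (by norm_num) (by simp) (by simp))
      rw [hU.deriv, Uf_eq hne]
      have e1 : Gf {0} (1 / 4) 0 (x:ℂ) = ((1 / (4 * x) : ℝ) : ℂ) * I := by
        unfold Gf
        simp only [sum_singleton, Pi.zero_apply, add_zero, ofReal_zero, sub_zero]
        push_cast
        field_simp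
      have e2 : (-∑ p ∈ ({0} : Finset ℝ), I * ((1 / 4 : ℝ) : ℂ) / ((x:ℂ) - (p:ℝ)) ^ 2 +
          deriv (0 : ℂ → ℂ) (x:ℂ)) = -(((1 / (4 * x ^ 2) : ℝ) : ℂ) * I) := by
        simp only [sum_singleton, ofReal_zero, sub_zero]
        have : deriv (0 : ℂ → ℂ) (x:ℂ) = 0 := by
          have := deriv_const (x:ℂ) (0:ℂ)
          exact this
        rw [this]
        push_cast
        field_simp
        ring
      rw [e2, e1, neg_neg, norm_mul, norm_mul, norm_I, mul_one, norm_pow, norm_inv, norm_real,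
        Real.norm_eq_abs, abs_of_pos (by positivity)]
      have h1 : |1 / (4 * x)| ≤ ‖1 + ((1 / (4 * x) : ℝ) : ℂ) * I‖ := by
        have := abs_im_le_norm (1 + ((1 / (4 * x) : ℝ) : ℂ) * I)
        have e3 : (1 + ((1 / (4 * x) : ℝ) : ℂ) * I).im = 1 / (4 * x) := by
          rw [add_im, im_ofReal_mul]; simp
        rw [e3] at this
        exact this
      have h2 : 0 < |1 / (4 * x)| := by
        apply abs_pos.2
        positivity
      have h3 : ‖1 + ((1 / (4 * x) : ℝ) : ℂ) * I‖⁻¹ ≤ |1 / (4 * x)|⁻¹ := by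
        gcongr
      calc 1 / (4 * x ^ 2) * ‖1 + ((1 / (4 * x) : ℝ) : ℂ) * I‖⁻¹ ^ 2 ≤
            1 / (4 * x ^ 2) * |1 / (4 * x)|⁻¹ ^ 2 := by gcongr
        _ = 4 := by
            rw [inv_pow, sq_abs]
            field_simp
    have h1 := lin_of_deriv han {0} hder
    exact lipOn_of_lin (f := fun x : ℝ => Uf {0} (1 / 4) 0 (x:ℂ)) (ℓ := 8) hα hα1.le (by norm_num)
      (fun x hx y hy => by
        rw [abs_le]
        constructor <;> linarith [hx.1, hx.2, hy.1, hy.2]) h1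

/-- the invariant at level `k` -/
def Good (α Λ0 : ℝ) (k : ℕ) (x : Finset ℝ × ℝ × (ℂ → ℂ) × ℝ) : Prop :=
  IsStage α x.1 x.2.1 x.2.2.1 (1 / 2 - (1 / 2) ^ (k + 2)) (1 / 2 - (1 / 2) ^ (k + 2))
    (Λ0 + (1 / 2 - (1 / 2) ^ (k + 2))) ∧ 0 < x.2.2.2

/-- the relation between consecutive levels -/
def Rel (α : ℝ) (κ t : ℕ → ℝ) (k : ℕ) (x y : Finset ℝ × ℝ × (ℂ → ℂ) × ℝ) : Prop :=
  x.1 ⊆ y.1 ∧ (∀ r : ℝ, ‖Uf y.1 y.2.1 y.2.2.1 r - Uf x.1 x.2.1 x.2.2.1 r‖ ≤ (1 / 2) ^ (k + 3)) ∧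
  2 * x.2.2.2 ^ (-α) ≤ y.2.2.2 ^ (-α) ∧
  (1 - 2 * κ k ^ 2) * (x.1.card * x.2.1) ≤ y.1.card * y.2.1 ∧
  ∃ L : ℝ, 0 < L ∧ L ≤ 1 / 2 ∧ (∀ p ∈ x.1, ∀ q ∈ x.1, p ≠ q → 2 * L < |p - q|) ∧
    (∀ p ∈ x.1, ∀ r : ℝ, |r - p| ≤ L → ∃ p' ∈ y.1, |r - p'| ≤ y.2.2.2) ∧
    1 / 3 * t k * (x.1.card * x.2.1) ≤ x.1.card * (2 * L) * y.2.2.2 ^ (-α)

lemma good_step {α Λ0 : ℝ} (hα : 0 < α) (hα1 : α < 1) (hΛ0 : 1 ≤ Λ0) {κ t : ℕ → ℝ}
    (hκ : ∀ k, 0 < κ k) (hκ1 : ∀ k, κ k ≤ 1) (ht : ∀ k, 0 < t k)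
    (hT : ∀ k, (4 / (κ k / 480000)) ^ (1 - α) *
      (8 * (6 * (Kω (κ k ^ 2) / κ k ^ 2))) ^ α * t k ≤ 2 / 3)
    (k : ℕ) (x : Finset ℝ × ℝ × (ℂ → ℂ) × ℝ) (hx : Good α Λ0 k x) :
    ∃ y, Good α Λ0 (k + 1) y ∧ Rel α κ t k x y := by
  obtain ⟨P, μ, b, σ⟩ := x
  obtain ⟨hS, hσ⟩ := hx
  simp only at hS hσ
  have hpow : (0:ℝ) < (1 / 2) ^ (k + 2) := by positivity
  have hpow1 : ((1:ℝ) / 2) ^ (k + 2) ≤ 1 / 4 := by
    calc ((1:ℝ) / 2) ^ (k + 2) ≤ (1 / 2) ^ 2 :=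
          pow_le_pow_of_le_one (by norm_num) (by norm_num) (by omega)
      _ = 1 / 4 := by norm_num
  set δ : ℝ := min ((1 / 2) ^ (k + 3)) (2 ^ (-(1 / α)) * σ) with hδ
  have hδ0 : 0 < δ := by
    apply lt_min (by positivity)
    have : (0:ℝ) < 2 ^ (-(1 / α)) := Real.rpow_pos_of_pos (by norm_num) _
    positivity
  have hδ1 : δ ≤ (1 / 2) ^ (k + 3) := min_le_left _ _
  have hδ2 : δ ≤ 2 ^ (-(1 / α)) * σ := min_le_right _ _
  have hδ3 : δ ≤ 1 / 2 := hδ1.trans (by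
    calc ((1:ℝ) / 2) ^ (k + 3) ≤ (1 / 2) ^ 1 :=
          pow_le_pow_of_le_one (by norm_num) (by norm_num) (by omega)
      _ = 1 / 2 := by norm_num)
  have hκ2 : κ k ^ 2 ≤ 1 := by nlinarith [hκ k, hκ1 k]
  obtain ⟨P', μ', b', L, s, hst, hsub, hdiff, hs0, hsδ, hL0, hLδ, hsep, hcov, hmass, hdiv⟩ :=
    step hα hα1 hS (by linarith) (by linarith) (hκ k) (hκ1 k) (pow_pos (hκ k) 2) hκ2 (ht k) (hT k)
      hδ0
  have hstep : ((1:ℝ) / 2) ^ (k + 2) = 2 * (1 / 2) ^ (k + 3) := by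
    rw [pow_succ _ (k + 2)]; ring
  refine ⟨⟨P', μ', b', s⟩, ⟨?_, hs0⟩, hsub, fun r => (hdiff r).trans hδ1, ?_, ?_, L, hL0,
    hLδ.trans hδ3, hsep, hcov, hdiv⟩
  · simp only
    apply hst.mono
    · have : k + 1 + 2 = k + 3 := by ring
      rw [this]
      linarith
    · have : k + 1 + 2 = k + 3 := by ring
      rw [this]
      linarith
    · have : k + 1 + 2 = k + 3 := by ring
      rw [this]
      apply max_le
      · linarith
      · have : ((1:ℝ) / 2) ^ (k + 3) ≤ 1 / 2 := by linarith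
        linarith
  · simp only
    have h1 : s ≤ 2 ^ (-(1 / α)) * σ := hsδ.trans hδ2
    have h2 : (2 ^ (-(1 / α)) * σ) ^ (-α) ≤ s ^ (-α) :=
      Real.rpow_le_rpow_of_nonpos hs0 h1 (by linarith)
    have h3 : ((2:ℝ) ^ (-(1 / α)) * σ) ^ (-α) = 2 * σ ^ (-α) := by
      rw [Real.mul_rpow (by positivity) hσ.le, ← Real.rpow_mul (by norm_num)]
      have : -(1 / α) * -α = 1 := by field_simp
      rw [this, Real.rpow_one]
    rw [h3] at h2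
    exact h2
  · simp only
    have e : 1 - 2 * κ k ^ 2 = 1 - κ k ^ 2 - κ k ^ 2 := by ring
    rw [e]
    exact hmass

theorem exists_seq {α : ℝ} (hα : 0 < α) (hα1 : α < 1) :
    ∃ (P : ℕ → Finset ℝ) (μ : ℕ → ℝ) (b : ℕ → ℂ → ℂ) (L s t : ℕ → ℝ) (Λ : ℝ),
      0 ≤ Λ ∧ (∀ k, IsStage α (P k) (μ k) (b k) (1 / 2) (1 / 2) Λ) ∧ (∀ k, P k ⊆ P (k + 1)) ∧
      (∀ k, ∀ x : ℝ, ‖Uf (P (k + 1)) (μ (k + 1)) (b (k + 1)) x - Uf (P k) (μ k) (b k) x‖ ≤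
        (1 / 2) ^ (k + 3)) ∧
      (∀ k, 0 < L k) ∧ (∀ k, L k ≤ 1 / 2) ∧ (∀ k, 0 < s k) ∧
      (∀ k, 2 * s k ^ (-α) ≤ s (k + 1) ^ (-α)) ∧
      (∀ k, ∀ p ∈ P k, ∀ q ∈ P k, p ≠ q → 2 * L k < |p - q|) ∧
      (∀ k, ∀ p ∈ P k, ∀ x : ℝ, |x - p| ≤ L k → ∃ p' ∈ P (k + 1), |x - p'| ≤ s k) ∧
      (∀ k, t k ≤ (P k).card * (2 * L k) * s k ^ (-α)) ∧
      Tendsto (fun n => ∑ k ∈ range n, t k) atTop atTop := by
  obtain ⟨κ, t, hκ, hκ1, ht, hT, hsum, htend⟩ := params hα hα1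
  set Λ0 : ℝ := max (4 * 8 ^ (1 - α)) 1 with hΛ0
  have hΛ01 : 1 ≤ Λ0 := le_max_right _ _
  have hstep := good_step hα hα1 hΛ01 hκ hκ1 ht hT
  choose! f hf1 hf2 using hstep
  set x0 : Finset ℝ × ℝ × (ℂ → ℂ) × ℝ := ⟨{0}, 1 / 4, 0, 1⟩ with hx0
  set x : ℕ → Finset ℝ × ℝ × (ℂ → ℂ) × ℝ := fun k => Nat.rec x0 (fun k y => f k y) k with hx
  have hx_succ : ∀ k, x (k + 1) = f k (x k) := fun k => rfl
  have hgood : ∀ k, Good α Λ0 k (x k) := by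
    intro k
    induction k with
    | zero =>
      refine ⟨?_, by simp [hx, hx0]⟩
      simp only [hx, hx0]
      apply (init_stage hα hα1).mono (by norm_num) (by norm_num)
      have := le_max_left (4 * (8:ℝ) ^ (1 - α)) 1
      rw [← hΛ0] at this
      have h2 : (0:ℝ) ≤ 1 / 2 - (1 / 2) ^ (0 + 2) := by norm_num
      linarith
    | succ k ih =>
      rw [hx_succ]
      exact hf1 k (x k) ih
  have hrel : ∀ k, Rel α κ t k (x k) (x (k + 1)) := by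
    intro k
    rw [hx_succ]
    exact hf2 k (x k) (hgood k)
  have hmass : ∀ k, 1 / 4 * (1 - ∑ j ∈ range k, 2 * κ j ^ 2) ≤ (x k).1.card * (x k).2.1 := by
    intro k
    induction k with
    | zero => simp [hx, hx0]
    | succ k ih =>
      have h1 := (hrel k).2.2.2.1
      rw [sum_range_succ]
      have h2 := hsum (k + 1)
      rw [sum_range_succ] at h2
      have h3 : 0 ≤ ∑ j ∈ range k, 2 * κ j ^ 2 := sum_nonneg (fun j _ => by positivity)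
      have h4 : 0 ≤ κ k ^ 2 := by positivity
      have h5 : (1 - 2 * κ k ^ 2) * (1 / 4 * (1 - ∑ j ∈ range k, 2 * κ j ^ 2)) ≤
          (1 - 2 * κ k ^ 2) * ((x k).1.card * (x k).2.1) :=
        mul_le_mul_of_nonneg_left ih (by linarith)
      nlinarith [mul_nonneg h4 h3]
  have hmass' : ∀ k, 1 / 8 ≤ (x k).1.card * (x k).2.1 := by
    intro k
    have := hmass k
    have := hsum k
    linarith
  have hL : ∀ k, ∃ L : ℝ, 0 < L ∧ L ≤ 1 / 2 ∧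
      (∀ p ∈ (x k).1, ∀ q ∈ (x k).1, p ≠ q → 2 * L < |p - q|) ∧
      (∀ p ∈ (x k).1, ∀ r : ℝ, |r - p| ≤ L → ∃ p' ∈ (x (k + 1)).1, |r - p'| ≤ (x (k + 1)).2.2.2) ∧
      1 / 3 * t k * ((x k).1.card * (x k).2.1) ≤
        (x k).1.card * (2 * L) * (x (k + 1)).2.2.2 ^ (-α) := fun k => (hrel k).2.2.2.2
  choose L hL1 hL2 hL3 hL4 hL5 using hL
  have hpow : ∀ k : ℕ, (0:ℝ) < (1 / 2) ^ (k + 2) := fun k => by positivity
  refine ⟨fun k => (x k).1, fun k => (x k).2.1, fun k => (x k).2.2.1, L,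
    fun k => (x (k + 1)).2.2.2, fun k => 1 / 24 * t k, Λ0 + 1 / 2, by linarith, ?_, ?_, ?_, hL1,
    hL2, ?_, ?_, hL3, hL4, ?_, ?_⟩
  · intro k
    exact (hgood k).1.mono (by linarith [hpow k]) (by linarith [hpow k]) (by linarith [hpow k])
  · exact fun k => (hrel k).1
  · exact fun k => (hrel k).2.1
  · exact fun k => (hgood (k + 1)).2
  · exact fun k => (hrel (k + 1)).2.2.1
  · intro k
    refine le_trans ?_ (hL5 k)
    have h1 := hmass' k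
    have h2 := ht k
    calc 1 / 24 * t k = 1 / 3 * t k * (1 / 8) := by ring
      _ ≤ 1 / 3 * t k * ((x k).1.card * (x k).2.1) := by gcongr
  · have h1 : (fun n => ∑ k ∈ range n, 1 / 24 * t k) = fun n => 1 / 24 * ∑ k ∈ range n, t k := by
      funext n
      rw [mul_sum]
    rw [h1]
    exact htend.const_mul_atTop (by norm_num)

end Pool.Agent.E8helper79.PS
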