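import Mathlib

/-!
# Functions built from finitely many boundary point masses
-/

set_option autoImplicit false

open Complex Finset Filter Topology

namespace Pool.Agent.E8helper79.PS

/-- the function with positive real part -/
noncomputable def Gf (P : Finset ℝ) (μ : ℝ) (b : ℂ → ℂ) (z : ℂ) : ℂ :=
  ∑ p ∈ P, I * μ / (z - p) + b z

/-- polynomial vanishing at the nodes -/
noncomputable def QQ (P : Finset ℝ) (z : ℂ) : ℂ := ∏ p ∈ P, (z - p)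

/-- its derivative -/
noncomputable def NQ (P : Finset ℝ) (z : ℂ) : ℂ := ∑ p ∈ P, ∏ q ∈ P.erase p, (z - q)

/-- denominator of `Uf` -/
noncomputable def DU (P : Finset ℝ) (μ : ℝ) (b : ℂ → ℂ) (z : ℂ) : ℂ :=
  QQ P z * (1 + b z) + I * μ * NQ P z

/-- the function `1 / (1 + G)` -/
noncomputable def Uf (P : Finset ℝ) (μ : ℝ) (b : ℂ → ℂ) (z : ℂ) : ℂ := QQ P z / DU P μ b z

section

variable {P : Finset ℝ} {μ : ℝ} {b : ℂ → ℂ} {z : ℂ}

lemma QQ_ne (hz : ∀ p ∈ P, z ≠ (p:ℂ)) : QQ P z ≠ 0 := by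
  rw [QQ, prod_ne_zero_iff]
  intro p hp
  exact sub_ne_zero.2 (hz p hp)

lemma QQ_node {p : ℝ} (hp : p ∈ P) : QQ P (p:ℂ) = 0 := by
  rw [QQ]
  exact prod_eq_zero hp (by simp)

lemma NQ_eq (hz : ∀ p ∈ P, z ≠ (p:ℂ)) : NQ P z = QQ P z * ∑ p ∈ P, 1 / (z - p) := by
  rw [NQ, mul_sum]
  apply sum_congr rfl
  intro p hp
  have hne : z - (p:ℂ) ≠ 0 := sub_ne_zero.2 (hz p hp)
  rw [QQ, ← mul_prod_erase _ _ hp]
  field_simp

lemma DU_eq (hz : ∀ p ∈ P, z ≠ (p:ℂ)) : DU P μ b z = QQ P z * (1 + Gf P μ b z) := by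
  rw [DU, NQ_eq hz, Gf]
  have : ∑ p ∈ P, I * μ / (z - p) = I * μ * ∑ p ∈ P, 1 / (z - p) := by
    rw [mul_sum]
    apply sum_congr rfl
    intro p _
    ring
  rw [this]
  ring

lemma NQ_node {p : ℝ} (hp : p ∈ P) : NQ P (p:ℂ) = ∏ q ∈ P.erase p, ((p:ℂ) - q) := by
  rw [NQ]
  rw [sum_eq_single p]
  · intro q _ hqp
    apply prod_eq_zero (i := p)
    · rw [mem_erase]; exact ⟨hqp.symm, hp⟩
    · simp
  · intro h; exact absurd hp h

lemma NQ_node_ne {p : ℝ} (hp : p ∈ P) : NQ P (p:ℂ) ≠ 0 := by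
  rw [NQ_node hp, prod_ne_zero_iff]
  intro q hq
  rw [mem_erase] at hq
  rw [sub_ne_zero]
  intro h
  exact hq.1 (by exact_mod_cast h.symm)

lemma Uf_eq (hz : ∀ p ∈ P, z ≠ (p:ℂ)) : Uf P μ b z = (1 + Gf P μ b z)⁻¹ := by
  rw [Uf, DU_eq hz]
  have := QQ_ne hz
  rw [div_mul_eq_div_div, div_self this, one_div]

lemma Uf_node {p : ℝ} (hp : p ∈ P) : Uf P μ b (p:ℂ) = 0 := by
  rw [Uf, QQ_node hp, zero_div]

lemma Gf_re (hμ : 0 ≤ μ) (hz : 0 ≤ z.im) (hb : 0 ≤ (b z).re) : 0 ≤ (Gf P μ b z).re := by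
  rw [Gf, add_re, re_sum]
  apply add_nonneg _ hb
  apply sum_nonneg
  intro p _
  have : I * μ / (z - p) = (μ:ℂ) * (I / (z - p)) := by ring
  rw [this, re_ofReal_mul]
  apply mul_nonneg hμ
  rw [div_re]
  simp only [I_re, zero_mul, zero_div, I_im, one_mul, zero_add, sub_im, ofReal_im, sub_zero]
  exact div_nonneg hz (normSq_nonneg _)

lemma DU_ne (hμ : 0 < μ) (hz : 0 ≤ z.im) (hb : 0 ≤ (b z).re) : DU P μ b z ≠ 0 := by
  by_cases h : ∃ p ∈ P, z = (p:ℂ)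
  · obtain ⟨p, hp, rfl⟩ := h
    rw [DU, QQ_node hp, zero_mul, zero_add]
    refine mul_ne_zero (mul_ne_zero I_ne_zero ?_) (NQ_node_ne hp)
    exact_mod_cast hμ.ne'
  · push Not at h
    rw [DU_eq h]
    apply mul_ne_zero (QQ_ne h)
    intro h0
    have h1 := Gf_re (P := P) hμ.le hz hb
    have h2 : (1 + Gf P μ b z).re = 0 := by rw [h0]; simp
    rw [add_re, one_re] at h2
    linarith

lemma norm_sq_inv_le {g : ℂ} (hg : 0 ≤ g.re) : ‖(1 + g)⁻¹‖ ^ 2 ≤ ((1 + g)⁻¹).re := by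
  have h1 : 1 ≤ (1 + g).re := by simp [hg]
  have h2 : 0 < normSq (1 + g) := by
    apply normSq_pos.2
    intro h
    rw [h] at h1
    norm_num at h1
  rw [← normSq_eq_norm_sq, map_inv₀, inv_re, inv_eq_one_div]
  gcongr

lemma Uf_re (hμ : 0 < μ) (hz : 0 ≤ z.im) (hb : 0 ≤ (b z).re) :
    ‖Uf P μ b z‖ ^ 2 ≤ (Uf P μ b z).re := by
  by_cases h : ∃ p ∈ P, z = (p:ℂ)
  · obtain ⟨p, hp, rfl⟩ := h
    rw [Uf_node hp]
    simp
  · push Not at h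
    rw [Uf_eq h]
    exact norm_sq_inv_le (Gf_re hμ.le hz hb)

lemma norm_le_one_of_sq_le {u : ℂ} (h : ‖u‖ ^ 2 ≤ u.re) : ‖u‖ ≤ 1 := by
  have h1 := re_le_norm u
  have h2 := norm_nonneg u
  by_contra h3
  push Not at h3
  nlinarith

lemma Uf_norm_le (hμ : 0 < μ) (hz : 0 ≤ z.im) (hb : 0 ≤ (b z).re) : ‖Uf P μ b z‖ ≤ 1 :=
  norm_le_one_of_sq_le (Uf_re hμ hz hb)

lemma analyticAt_QQ : AnalyticAt ℂ (QQ P) z := by
  unfold QQ
  apply Finset.analyticAt_fun_prod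
  intro j _
  fun_prop

lemma analyticAt_NQ : AnalyticAt ℂ (NQ P) z := by
  unfold NQ
  apply Finset.analyticAt_fun_sum
  intro j _
  apply Finset.analyticAt_fun_prod
  intro j _
  fun_prop

lemma analyticAt_DU (hb : AnalyticAt ℂ b z) : AnalyticAt ℂ (DU P μ b) z := by
  unfold DU
  exact (analyticAt_QQ.mul (analyticAt_const.add hb)).add (analyticAt_const.mul analyticAt_NQ)

lemma analyticAt_Uf (hb : AnalyticAt ℂ b z) (hD : DU P μ b z ≠ 0) :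
    AnalyticAt ℂ (Uf P μ b) z := by
  unfold Uf
  exact analyticAt_QQ.div (analyticAt_DU hb) hD

/-- the derivative of the point-mass part -/
lemma hasDerivAt_Gf (hz : ∀ p ∈ P, z ≠ (p:ℂ)) (hb : DifferentiableAt ℂ b z) :
    HasDerivAt (Gf P μ b) (-∑ p ∈ P, I * μ / (z - p) ^ 2 + deriv b z) z := by
  unfold Gf
  apply HasDerivAt.fun_add _ hb.hasDerivAt
  rw [← sum_neg_distrib]
  apply HasDerivAt.fun_sum
  intro p hp
  have hne : z - (p:ℂ) ≠ 0 := sub_ne_zero.2 (hz p hp)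
  have h1 : HasDerivAt (fun z : ℂ => z - (p:ℂ)) 1 z := (hasDerivAt_id z).sub_const _
  have h2 := (hasDerivAt_const z (I * μ : ℂ)).div h1 hne
  exact h2.congr_deriv (by ring)

lemma eventually_nonnode' (hz : ∀ p ∈ P, z ≠ (p:ℂ)) :
    ∀ᶠ y : ℂ in 𝓝 z, ∀ p ∈ P, y ≠ (p:ℂ) := by
  have h1 : ∀ᶠ y in 𝓝 z, QQ P y ≠ 0 :=
    (analyticAt_QQ).continuousAt.eventually_ne (QQ_ne hz)
  filter_upwards [h1] with y hy p hp h
  apply hy
  rw [h]
  exact QQ_node hp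

lemma hasDerivAt_Uf {d : ℂ} (hz : ∀ p ∈ P, z ≠ (p:ℂ)) (hG : HasDerivAt (Gf P μ b) d z)
    (hne : 1 + Gf P μ b z ≠ 0) : HasDerivAt (Uf P μ b) (-d * Uf P μ b z ^ 2) z := by
  have h1 : Uf P μ b =ᶠ[𝓝 z] fun y => (1 + Gf P μ b y)⁻¹ := by
    filter_upwards [eventually_nonnode' hz] with y hy
    exact Uf_eq hy
  have h2 : HasDerivAt (fun y => (1 + Gf P μ b y)⁻¹) (-d / (1 + Gf P μ b z) ^ 2) z :=
    (hG.const_add 1).inv hne
  refine (h2.congr_of_eventuallyEq h1).congr_deriv ?_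
  rw [Uf_eq hz]
  field_simp

lemma one_add_Gf_ne (hμ : 0 < μ) (hz : 0 ≤ z.im) (hb : 0 ≤ (b z).re) : 1 + Gf P μ b z ≠ 0 := by
  intro h0
  have h1 := Gf_re (P := P) hμ.le hz hb
  have h2 : (1 + Gf P μ b z).re = 0 := by rw [h0]; simp
  rw [add_re, one_re] at h2
  linarith

end

end Pool.Agent.E8helper79.PS
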