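import Pool.Agent.E8helper79.PS.Cluster5
import Pool.Agent.E8helper79.PS.Stage
import Pool.Agent.E8helper79.PS.Holder

/-!
# Replacing each point mass by a scaled cluster
-/

set_option autoImplicit false

open Complex Finset Filter Topology

namespace Pool.Agent.E8helper79.PS

/-- the properties of a unit-scale cluster that the construction uses -/
structure Clus (m : ℕ) (w : ℝ) (β : ℂ → ℂ) (κ1 K1 : ℝ) : Prop where
  hm : 1 ≤ m
  hw : 0 < w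
  hwm : w * m ≤ 1 / 2
  an : ∀ z : ℂ, 0 ≤ z.im → AnalyticAt ℂ β z
  im : ∀ z : ℂ, 0 ≤ z.im → (β z).im ≤ 0
  anfar : ∀ z : ℂ, 50 ≤ ‖z‖ → AnalyticAt ℂ β z
  anH : ∀ z : ℂ, 50 ≤ ‖z‖ → AnalyticAt ℂ (HH m w β) z
  far : ∀ z : ℂ, 50 ≤ ‖z‖ → ‖HH m w β z - 1 / z‖ ≤ 16 / ‖z‖ ^ 2
  low : ∀ x : ℝ, |x| ≤ 100 → (∀ j : ℤ, |j| ≤ (m:ℤ) → x ≠ j / m) → κ1 ≤ ‖HH m w β x‖
  der : ∀ x : ℝ, |x| ≤ 100 → (∀ j : ℤ, |j| ≤ (m:ℤ) → x ≠ j / m) →
    ‖deriv (HH m w β) x‖ ≤ K1 * m * ‖HH m w β x‖ ^ 2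

lemma Clus.derfar {m : ℕ} {w : ℝ} {β : ℂ → ℂ} {κ1 K1 : ℝ} (h : Clus m w β κ1 K1) {z : ℂ}
    (hz : 100 ≤ ‖z‖) : ‖deriv (HH m w β) z + 1 / z ^ 2‖ ≤ 128 / ‖z‖ ^ 3 := by
  have hz0 : 0 < ‖z‖ := by linarith
  have hzne : z ≠ 0 := norm_pos_iff.1 hz0
  have hball : ∀ y ∈ Metric.closedBall z (‖z‖ / 2), ‖z‖ / 2 ≤ ‖y‖ := by
    intro y hy
    rw [mem_closedBall_iff_norm] at hy
    have := norm_sub_norm_le z (z - y)
    have e : z - (z - y) = y := by ring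
    rw [e, norm_sub_rev z y] at this
    linarith
  set F : ℂ → ℂ := fun y => HH m w β y - 1 / y with hF
  have hFd : ∀ y ∈ Metric.closedBall z (‖z‖ / 2), DifferentiableAt ℂ F y := by
    intro y hy
    have h1 := hball y hy
    have hy0 : y ≠ 0 := norm_pos_iff.1 (by linarith)
    exact (h.anH y (by linarith)).differentiableAt.sub
      ((differentiableAt_const _).div differentiableAt_id hy0)
  have hdc : DiffContOnCl ℂ F (Metric.ball z (‖z‖ / 2)) := by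
    apply DifferentiableOn.diffContOnCl
    rw [closure_ball z (by positivity)]
    intro y hy
    exact (hFd y hy).differentiableWithinAt
  have h2 : ∀ y ∈ Metric.sphere z (‖z‖ / 2), ‖F y‖ ≤ 16 / (‖z‖ / 2) ^ 2 := by
    intro y hy
    have h1 := hball y (Metric.sphere_subset_closedBall hy)
    refine (h.far y (by linarith)).trans ?_
    gcongr
  have h3 := Complex.norm_deriv_le_of_forall_mem_sphere_norm_le (by positivity) hdc h2
  have h4 : deriv F z = deriv (HH m w β) z + 1 / z ^ 2 := by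
    have h5 : HasDerivAt F (deriv (HH m w β) z - (-(1 / z ^ 2))) z := by
      apply ((h.anH z (by linarith)).differentiableAt.hasDerivAt).fun_sub
      have h6 := (hasDerivAt_const z (1:ℂ)).div (hasDerivAt_id z) hzne
      exact h6.congr_deriv (by simp [neg_div])
    rw [h5.deriv]; ring
  rw [h4] at h3
  refine h3.trans (le_of_eq ?_)
  field_simp
  norm_num

section

variable {m : ℕ} {w : ℝ} {β : ℂ → ℂ} {κ1 K1 : ℝ}

/-- the scaled cluster centered at `p` -/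
noncomputable def hp (m : ℕ) (w : ℝ) (β : ℂ → ℂ) (μ L p : ℝ) (z : ℂ) : ℂ :=
  I * μ / L * HH m w β ((z - p) / L)

/-- its derivative -/
noncomputable def dhp (m : ℕ) (w : ℝ) (β : ℂ → ℂ) (μ L p : ℝ) (z : ℂ) : ℂ :=
  I * μ / L ^ 2 * deriv (HH m w β) ((z - p) / L)

/-- the new nodes -/
noncomputable def newP (P : Finset ℝ) (m : ℕ) (L : ℝ) : Finset ℝ :=
  (P ×ˢ Icc (-(m:ℤ)) (m:ℤ)).image (fun x => x.1 + L * x.2 / m)

/-- the new remainder -/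
noncomputable def newb (P : Finset ℝ) (μ : ℝ) (b : ℂ → ℂ) (L : ℝ) (β : ℂ → ℂ) (z : ℂ) : ℂ :=
  ∑ p ∈ P, I * μ / L * β ((z - p) / L) + b z

lemma newP_inj {P : Finset ℝ} {L : ℝ} (hm : 1 ≤ m) (hL : 0 < L)
    (hsep : ∀ p ∈ P, ∀ q ∈ P, p ≠ q → 2 * L < |p - q|) :
    Set.InjOn (fun x : ℝ × ℤ => x.1 + L * x.2 / m) (P ×ˢ Icc (-(m:ℤ)) (m:ℤ) : Finset (ℝ × ℤ)) := by
  intro x hx y hy hxy
  simp only [coe_product, Set.mem_prod, mem_coe, mem_Icc] at hx hy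
  have hm' : (0:ℝ) < m := by exact_mod_cast hm
  simp only at hxy
  have hb : ∀ j : ℤ, -(m:ℤ) ≤ j ∧ j ≤ (m:ℤ) → |L * j / m| ≤ L := by
    intro j hj
    have : |(j:ℝ)| ≤ m := by
      have := abs_le.2 hj
      exact_mod_cast this
    rw [abs_div, abs_mul, abs_of_pos hL, abs_of_pos hm', div_le_iff₀ hm']
    gcongr
  have h1 : x.1 = y.1 := by
    by_contra hne
    have h2 := hsep x.1 hx.1 y.1 hy.1 hne
    have h3 : x.1 - y.1 = L * y.2 / m - L * x.2 / m := by linarith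
    rw [h3] at h2
    have h4 := abs_sub (L * (y.2:ℝ) / m) (L * x.2 / m)
    have h5 := hb x.2 hx.2
    have h6 := hb y.2 hy.2
    linarith
  have h2 : (x.2:ℝ) = y.2 := by
    rw [h1] at hxy
    have h3 : L * (x.2:ℝ) / m = L * y.2 / m := by linarith
    rw [div_left_inj' hm'.ne'] at h3
    exact mul_left_cancel₀ hL.ne' h3
  exact Prod.ext h1 (by exact_mod_cast h2)

lemma newP_sum {M : Type*} [AddCommMonoid M] {P : Finset ℝ} {L : ℝ} (hm : 1 ≤ m) (hL : 0 < L)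
    (hsep : ∀ p ∈ P, ∀ q ∈ P, p ≠ q → 2 * L < |p - q|) (f : ℝ → M) :
    ∑ p ∈ newP P m L, f p = ∑ p ∈ P, ∑ j ∈ Icc (-(m:ℤ)) (m:ℤ), f (p + L * j / m) := by
  unfold newP
  rw [sum_image (newP_inj hm hL hsep), sum_product]

lemma newP_card {P : Finset ℝ} {L : ℝ} (hm : 1 ≤ m) (hL : 0 < L)
    (hsep : ∀ p ∈ P, ∀ q ∈ P, p ≠ q → 2 * L < |p - q|) :
    ((newP P m L).card : ℝ) = P.card * (2 * m + 1) := by
  unfold newP
  rw [card_image_of_injOn (newP_inj hm hL hsep), card_product, Int.card_Icc]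
  have : ((m:ℤ) + 1 - -(m:ℤ)).toNat = 2 * m + 1 := by omega
  rw [this]
  push_cast
  ring

lemma newG {P : Finset ℝ} {μ L : ℝ} {b : ℂ → ℂ} (hm : 1 ≤ m) (hL : 0 < L)
    (hsep : ∀ p ∈ P, ∀ q ∈ P, p ≠ q → 2 * L < |p - q|) (z : ℂ) :
    Gf (newP P m L) (μ * w) (newb P μ b L β) z = ∑ p ∈ P, hp m w β μ L p z + b z := by
  unfold Gf newb
  rw [newP_sum hm hL hsep, ← add_assoc, ← sum_add_distrib]
  congr 1
  apply sum_congr rfl
  intro p _
  unfold hp HH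
  rw [mul_add, mul_sum]
  congr 1
  apply sum_congr rfl
  intro j _
  have hm' : (m:ℂ) ≠ 0 := by exact_mod_cast (by omega : m ≠ 0)
  have hL' : (L:ℂ) ≠ 0 := by exact_mod_cast hL.ne'
  have e : (z - p) / L - j / m = (z - ((p + L * j / m : ℝ):ℂ)) / L := by
    push_cast
    field_simp
    ring
  rw [e]
  push_cast
  field_simp

lemma mem_newP {P : Finset ℝ} {L x : ℝ} : x ∈ newP P m L ↔
    ∃ p ∈ P, ∃ j : ℤ, |j| ≤ (m:ℤ) ∧ x = p + L * j / m := by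
  unfold newP
  simp only [mem_image, mem_product, mem_Icc, Prod.exists]
  constructor
  · rintro ⟨p, j, ⟨hp, hj⟩, rfl⟩
    exact ⟨p, hp, j, abs_le.2 hj, rfl⟩
  · rintro ⟨p, hp, j, hj, rfl⟩
    exact ⟨p, j, ⟨hp, abs_le.1 hj⟩, rfl⟩

lemma subset_newP {P : Finset ℝ} {L : ℝ} : P ⊆ newP P m L := by
  intro p hp
  rw [mem_newP]
  exact ⟨p, hp, 0, by simp, by simp⟩

/-- distance from the cluster's center -/
lemma hp_far (h : Clus m w β κ1 K1) {μ L p : ℝ} (hμ : 0 < μ) (hL : 0 < L) {z : ℂ}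
    (hz : 50 * L ≤ ‖z - p‖) : ‖hp m w β μ L p z - I * μ / (z - p)‖ ≤ 16 * μ * L / ‖z - p‖ ^ 2 := by
  have hz0 : 0 < ‖z - p‖ := by linarith
  have hzne : z - p ≠ 0 := norm_pos_iff.1 hz0
  have hL' : (L:ℂ) ≠ 0 := by exact_mod_cast hL.ne'
  have hs : ‖(z - p) / L‖ = ‖z - p‖ / L := by
    rw [norm_div, norm_real, Real.norm_eq_abs, abs_of_pos hL]
  have h1 := h.far ((z - p) / L) (by rw [hs, le_div_iff₀ hL]; exact hz)
  have e : hp m w β μ L p z - I * μ / (z - p) =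
      ((μ / L : ℝ):ℂ) * I * (HH m w β ((z - p) / L) - 1 / ((z - p) / L)) := by
    unfold hp
    push_cast
    field_simp
  rw [e, norm_mul, norm_mul, norm_I, mul_one, norm_real, Real.norm_eq_abs,
    abs_of_pos (by positivity : 0 < μ / L)]
  calc μ / L * ‖HH m w β ((z - p) / L) - 1 / ((z - p) / L)‖ ≤
        μ / L * (16 / ‖(z - p) / L‖ ^ 2) := by gcongr
    _ = 16 * μ * L / ‖z - p‖ ^ 2 := by
        rw [hs]; field_simp

lemma dhp_far (h : Clus m w β κ1 K1) {μ L p : ℝ} (hμ : 0 < μ) (hL : 0 < L) {z : ℂ}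
    (hz : 100 * L ≤ ‖z - p‖) :
    ‖dhp m w β μ L p z + I * μ / (z - p) ^ 2‖ ≤ 128 * μ * L / ‖z - p‖ ^ 3 := by
  have hz0 : 0 < ‖z - p‖ := by linarith
  have hzne : z - p ≠ 0 := norm_pos_iff.1 hz0
  have hL' : (L:ℂ) ≠ 0 := by exact_mod_cast hL.ne'
  have hs : ‖(z - p) / L‖ = ‖z - p‖ / L := by
    rw [norm_div, norm_real, Real.norm_eq_abs, abs_of_pos hL]
  have h1 := h.derfar (z := (z - p) / L) (by rw [hs, le_div_iff₀ hL]; exact hz)
  have e : dhp m w β μ L p z + I * μ / (z - p) ^ 2 =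
      ((μ / L ^ 2 : ℝ):ℂ) * I * (deriv (HH m w β) ((z - p) / L) + 1 / ((z - p) / L) ^ 2) := by
    unfold dhp
    push_cast
    field_simp
  rw [e, norm_mul, norm_mul, norm_I, mul_one, norm_real, Real.norm_eq_abs,
    abs_of_pos (by positivity : 0 < μ / L ^ 2)]
  calc μ / L ^ 2 * ‖deriv (HH m w β) ((z - p) / L) + 1 / ((z - p) / L) ^ 2‖ ≤
        μ / L ^ 2 * (128 / ‖(z - p) / L‖ ^ 3) := by gcongr
    _ = 128 * μ * L / ‖z - p‖ ^ 3 := by
        rw [hs]; field_simp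

lemma hasDerivAt_hp {μ L p : ℝ} {z : ℂ} (hL : 0 < L)
    (h : DifferentiableAt ℂ (HH m w β) ((z - p) / L)) :
    HasDerivAt (hp m w β μ L p) (dhp m w β μ L p z) z := by
  unfold hp dhp
  have h1 : HasDerivAt (fun z : ℂ => (z - p) / L) (1 / L) z :=
    ((hasDerivAt_id z).sub_const _).div_const _
  have h2 := (h.hasDerivAt.comp z h1).const_mul (I * μ / L : ℂ)
  have hL' : (L:ℂ) ≠ 0 := by exact_mod_cast hL.ne'
  exact h2.congr_deriv (by field_simp)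

/-- norm bounds in the far region -/
lemma hp_far_le (h : Clus m w β κ1 K1) {μ L p : ℝ} (hμ : 0 < μ) (hL : 0 < L) {z : ℂ}
    (hz : 100 * L ≤ ‖z - p‖) : ‖hp m w β μ L p z‖ ≤ 2 * μ / ‖z - p‖ := by
  have hz0 : 0 < ‖z - p‖ := by linarith
  have h1 := hp_far h hμ hL (by linarith : 50 * L ≤ ‖z - p‖)
  have h2 : ‖I * μ / (z - p)‖ = μ / ‖z - p‖ := by
    rw [norm_div, norm_mul, norm_I, one_mul, norm_real, Real.norm_eq_abs, abs_of_pos hμ]
  have h3 : ‖hp m w β μ L p z‖ ≤ ‖hp m w β μ L p z - I * μ / (z - p)‖ + ‖I * μ / (z - p)‖ := by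
    have := norm_add_le (hp m w β μ L p z - I * μ / (z - p)) (I * μ / (z - p))
    simpa using this
  have h4 : 16 * μ * L / ‖z - p‖ ^ 2 ≤ μ / ‖z - p‖ := by
    rw [div_le_div_iff₀ (by positivity) hz0]
    nlinarith [mul_pos hμ hz0]
  have h5 : 2 * μ / ‖z - p‖ = μ / ‖z - p‖ + μ / ‖z - p‖ := by ring
  linarith

lemma hp_far_ge (h : Clus m w β κ1 K1) {μ L p : ℝ} (hμ : 0 < μ) (hL : 0 < L) {z : ℂ}
    (hz : 100 * L ≤ ‖z - p‖) : 4 / 5 * (μ / ‖z - p‖) ≤ ‖hp m w β μ L p z‖ := by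
  have hz0 : 0 < ‖z - p‖ := by linarith
  have h1 := hp_far h hμ hL (by linarith : 50 * L ≤ ‖z - p‖)
  have h2 : ‖I * μ / (z - p)‖ = μ / ‖z - p‖ := by
    rw [norm_div, norm_mul, norm_I, one_mul, norm_real, Real.norm_eq_abs, abs_of_pos hμ]
  have h3 : ‖I * μ / (z - p)‖ ≤ ‖hp m w β μ L p z - I * μ / (z - p)‖ + ‖hp m w β μ L p z‖ := by
    have := norm_sub_le (hp m w β μ L p z) (hp m w β μ L p z - I * μ / (z - p))
    rw [sub_sub_cancel] at this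
    linarith
  have h4 : 16 * μ * L / ‖z - p‖ ^ 2 ≤ 1 / 5 * (μ / ‖z - p‖) := by
    rw [mul_div_assoc', div_le_div_iff₀ (by positivity) hz0]
    nlinarith [mul_pos hμ hz0]
  linarith

lemma dhp_far_le (h : Clus m w β κ1 K1) {μ L p : ℝ} (hμ : 0 < μ) (hL : 0 < L) {z : ℂ}
    (hz : 100 * L ≤ ‖z - p‖) : ‖dhp m w β μ L p z‖ ≤ 3 * μ / ‖z - p‖ ^ 2 := by
  have hz0 : 0 < ‖z - p‖ := by linarith
  have h1 := dhp_far h hμ hL hz
  have h2 : ‖I * μ / (z - p) ^ 2‖ = μ / ‖z - p‖ ^ 2 := by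
    rw [norm_div, norm_mul, norm_I, one_mul, norm_real, Real.norm_eq_abs, abs_of_pos hμ, norm_pow]
  have h3 : ‖dhp m w β μ L p z‖ ≤ ‖dhp m w β μ L p z + I * μ / (z - p) ^ 2‖ +
      ‖I * μ / (z - p) ^ 2‖ := by
    have := norm_sub_le (dhp m w β μ L p z + I * μ / (z - p) ^ 2) (I * μ / (z - p) ^ 2)
    simpa using this
  have h4 : 128 * μ * L / ‖z - p‖ ^ 3 ≤ 2 * (μ / ‖z - p‖ ^ 2) := by
    rw [mul_div_assoc', div_le_div_iff₀ (by positivity) (by positivity)]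
    have : 0 < μ * ‖z - p‖ ^ 2 := by positivity
    nlinarith
  have h5 : 3 * μ / ‖z - p‖ ^ 2 = 2 * (μ / ‖z - p‖ ^ 2) + μ / ‖z - p‖ ^ 2 := by ring
  linarith

end

end Pool.Agent.E8helper79.PS
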