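import Pool.Agent.E8helper79.PS.Step1

/-!
# Estimates near a node
-/

set_option autoImplicit false

open Complex Finset Filter Topology

namespace Pool.Agent.E8helper79.PS

/-- the standing assumptions for one replacement step -/
structure SD (P : Finset ℝ) (μ : ℝ) (b : ℂ → ℂ) (m : ℕ) (w : ℝ) (β : ℂ → ℂ) (κ1 K1 L : ℝ) :
    Prop where
  hc : Clus m w β κ1 K1
  hκ1 : 0 < κ1
  hK1 : 0 < K1
  hμ : 0 < μ
  hL : 0 < L
  hsep : ∀ p ∈ P, ∀ q ∈ P, p ≠ q → 2 * L < |p - q|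
  ban : ∀ z : ℂ, 0 ≤ z.im → AnalyticAt ℂ b z
  bre : ∀ z : ℂ, 0 ≤ z.im → 0 ≤ (b z).re

/-- the new function -/
noncomputable def GN (P : Finset ℝ) (μ : ℝ) (b : ℂ → ℂ) (m : ℕ) (w : ℝ) (β : ℂ → ℂ) (L : ℝ)
    (z : ℂ) : ℂ := Gf (newP P m L) (μ * w) (newb P μ b L β) z

/-- the new bounded function -/
noncomputable def UN (P : Finset ℝ) (μ : ℝ) (b : ℂ → ℂ) (m : ℕ) (w : ℝ) (β : ℂ → ℂ) (L : ℝ)
    (z : ℂ) : ℂ := Uf (newP P m L) (μ * w) (newb P μ b L β) z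

/-- derivative of the new function -/
noncomputable def dGN (P : Finset ℝ) (μ : ℝ) (b : ℂ → ℂ) (m : ℕ) (w : ℝ) (β : ℂ → ℂ) (L : ℝ)
    (z : ℂ) : ℂ := ∑ p ∈ P, dhp m w β μ L p z + deriv b z

section

variable {P : Finset ℝ} {μ : ℝ} {b : ℂ → ℂ} {m : ℕ} {w : ℝ} {β : ℂ → ℂ} {κ1 K1 L : ℝ}

lemma SD.hμw (h : SD P μ b m w β κ1 K1 L) : 0 < μ * w := mul_pos h.hμ h.hc.hw

lemma SD.im_div (h : SD P μ b m w β κ1 K1 L) {z : ℂ} (hz : 0 ≤ z.im) (p : ℝ) :
    0 ≤ ((z - p) / L).im := by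
  have : ((z - p) / L).im = z.im / L := by
    rw [Complex.div_ofReal_im]; simp
  rw [this]
  exact div_nonneg hz h.hL.le

lemma SD.an_newb (h : SD P μ b m w β κ1 K1 L) {z : ℂ} (hz : 0 ≤ z.im) :
    AnalyticAt ℂ (newb P μ b L β) z := by
  unfold newb
  apply AnalyticAt.fun_add _ (h.ban z hz)
  apply Finset.analyticAt_fun_sum
  intro p _
  have h1 : AnalyticAt ℂ β ((z - p) / L) := h.hc.an _ (h.im_div hz p)
  have hL' : (L:ℂ) ≠ 0 := by exact_mod_cast h.hL.ne'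
  have h2 : AnalyticAt ℂ (fun z : ℂ => (z - p) / L) z := by fun_prop (disch := exact hL')
  exact analyticAt_const.mul (AnalyticAt.comp (f := fun z : ℂ => (z - p) / L) h1 h2)

lemma SD.re_newb (h : SD P μ b m w β κ1 K1 L) {z : ℂ} (hz : 0 ≤ z.im) :
    0 ≤ (newb P μ b L β z).re := by
  unfold newb
  rw [add_re, re_sum]
  apply add_nonneg _ (h.bre z hz)
  apply sum_nonneg
  intro p _
  have h1 := h.hc.im _ (h.im_div hz p)
  have e : I * μ / L * β ((z - p) / L) = ((μ / L : ℝ):ℂ) * (I * β ((z - p) / L)) := by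
    push_cast; ring
  rw [e, re_ofReal_mul]
  have : (I * β ((z - p) / L)).re = - (β ((z - p) / L)).im := by simp
  rw [this]
  have := h.hμ
  have := h.hL
  have : 0 < μ / L := by positivity
  nlinarith

lemma SD.an_UN (h : SD P μ b m w β κ1 K1 L) {z : ℂ} (hz : 0 ≤ z.im) :
    AnalyticAt ℂ (UN P μ b m w β L) z :=
  analyticAt_Uf (h.an_newb hz) (DU_ne h.hμw hz (h.re_newb hz))

lemma SD.UN_re (h : SD P μ b m w β κ1 K1 L) {z : ℂ} (hz : 0 ≤ z.im) :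
    ‖UN P μ b m w β L z‖ ^ 2 ≤ (UN P μ b m w β L z).re :=
  Uf_re h.hμw hz (h.re_newb hz)

lemma SD.UN_le (h : SD P μ b m w β κ1 K1 L) {z : ℂ} (hz : 0 ≤ z.im) :
    ‖UN P μ b m w β L z‖ ≤ 1 :=
  Uf_norm_le h.hμw hz (h.re_newb hz)

lemma SD.UN_node {p : ℝ} (hp : p ∈ newP P m L) : UN P μ b m w β L p = 0 := Uf_node hp

lemma SD.UN_node' {p : ℝ} (hp : p ∈ P) : UN P μ b m w β L p = 0 := Uf_node (subset_newP hp)

lemma SD.GN_eq (h : SD P μ b m w β κ1 K1 L) (z : ℂ) :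
    GN P μ b m w β L z = ∑ p ∈ P, hp m w β μ L p z + b z :=
  newG h.hc.hm h.hL h.hsep z

lemma ofReal_ne_of_not_mem {F : Finset ℝ} {x : ℝ} (hx : x ∉ F) : ∀ p ∈ F, (x:ℂ) ≠ (p:ℂ) := by
  intro p hp h
  have : x = p := by exact_mod_cast h
  exact hx (this ▸ hp)

lemma SD.UN_eq {x : ℝ} (hx : x ∉ newP P m L) :
    UN P μ b m w β L x = (1 + GN P μ b m w β L x)⁻¹ :=
  Uf_eq (ofReal_ne_of_not_mem hx)

lemma SD.one_add_ne (h : SD P μ b m w β κ1 K1 L) {z : ℂ} (hz : 0 ≤ z.im) :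
    1 + GN P μ b m w β L z ≠ 0 :=
  one_add_Gf_ne h.hμw hz (h.re_newb hz)

lemma Clus.anHH (h : Clus m w β κ1 K1) {x : ℝ} (hx : ∀ j : ℤ, |j| ≤ (m:ℤ) → x ≠ j / m) :
    AnalyticAt ℂ (HH m w β) x := by
  unfold HH
  apply AnalyticAt.fun_add _ (h.an x (by simp))
  apply Finset.analyticAt_fun_sum
  intro j hj
  rw [mem_Icc] at hj
  apply AnalyticAt.div
  · fun_prop
  · fun_prop
  · intro h0
    apply hx j (abs_le.2 hj)
    have h1 : (x:ℂ) = ((j / m : ℝ):ℂ) := by push_cast; exact sub_eq_zero.1 h0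
    exact_mod_cast h1

lemma SD.nonnode (h : SD P μ b m w β κ1 K1 L) {x p : ℝ} (hp : p ∈ P) (hx : x ∉ newP P m L) :
    ∀ j : ℤ, |j| ≤ (m:ℤ) → (x - p) / L ≠ j / m := by
  intro j hj hxj
  apply hx
  rw [mem_newP]
  refine ⟨p, hp, j, hj, ?_⟩
  have hL := h.hL
  have hm : (0:ℝ) < m := by exact_mod_cast h.hc.hm
  field_simp at hxj
  field_simp
  linarith

lemma SD.cast_div (x p : ℝ) : ((x:ℂ) - p) / L = (((x - p) / L : ℝ) : ℂ) := by push_cast; rfl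

lemma SD.hasDeriv_GN (h : SD P μ b m w β κ1 K1 L) {x : ℝ} (hx : x ∉ newP P m L) :
    HasDerivAt (GN P μ b m w β L) (dGN P μ b m w β L x) x := by
  have e : GN P μ b m w β L = fun z => ∑ p ∈ P, hp m w β μ L p z + b z := by
    funext z; exact h.GN_eq z
  rw [e]
  unfold dGN
  apply HasDerivAt.fun_add _ (h.ban x (by simp)).differentiableAt.hasDerivAt
  apply HasDerivAt.fun_sum
  intro p hp
  apply hasDerivAt_hp h.hL
  rw [SD.cast_div]
  exact (h.hc.anHH (h.nonnode hp hx)).differentiableAt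

lemma SD.hasDeriv_UN (h : SD P μ b m w β κ1 K1 L) {x : ℝ} (hx : x ∉ newP P m L) :
    HasDerivAt (UN P μ b m w β L) (-dGN P μ b m w β L x * UN P μ b m w β L x ^ 2) x :=
  hasDerivAt_Uf (ofReal_ne_of_not_mem hx) (h.hasDeriv_GN hx) (h.one_add_ne (by simp))

/-- the contribution of the other nodes -/
noncomputable def oth (P : Finset ℝ) (μ : ℝ) (b : ℂ → ℂ) (m : ℕ) (w : ℝ) (β : ℂ → ℂ) (L p0 : ℝ)
    (z : ℂ) : ℂ := ∑ p ∈ P.erase p0, hp m w β μ L p z + b z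

/-- derivative of `oth` -/
noncomputable def doth (P : Finset ℝ) (μ : ℝ) (b : ℂ → ℂ) (m : ℕ) (w : ℝ) (β : ℂ → ℂ) (L p0 : ℝ)
    (z : ℂ) : ℂ := ∑ p ∈ P.erase p0, dhp m w β μ L p z + deriv b z

lemma SD.GN_split (h : SD P μ b m w β κ1 K1 L) {p0 : ℝ} (hp0 : p0 ∈ P) (z : ℂ) :
    GN P μ b m w β L z = hp m w β μ L p0 z + oth P μ b m w β L p0 z := by
  rw [h.GN_eq, oth, ← add_sum_erase _ _ hp0]
  ring

lemma SD.dGN_split {p0 : ℝ} (hp0 : p0 ∈ P) (z : ℂ) :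
    dGN P μ b m w β L z = dhp m w β μ L p0 z + doth P μ b m w β L p0 z := by
  rw [dGN, doth, ← add_sum_erase _ _ hp0]
  ring

lemma norm_real_sub (x p : ℝ) : ‖(x:ℂ) - p‖ = |x - p| := by
  rw [← ofReal_sub, norm_real, Real.norm_eq_abs]

lemma SD.not_mem_of_far (h : SD P μ b m w β κ1 K1 L) {x : ℝ}
    (hx : ∀ p ∈ P, L < |x - p|) : x ∉ newP P m L := by
  intro hxm
  rw [mem_newP] at hxm
  obtain ⟨p, hp, j, hj, rfl⟩ := hxm
  have h1 := hx p hp
  have hL := h.hL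
  have hm : (0:ℝ) < m := by exact_mod_cast h.hc.hm
  have h2 : p + L * j / m - p = L * j / m := by ring
  rw [h2, abs_div, abs_mul, abs_of_pos hL, abs_of_pos hm, lt_div_iff₀ hm] at h1
  have h3 : |(j:ℝ)| ≤ m := by exact_mod_cast hj
  nlinarith

/-- zone B: the outer part of a neighbourhood of a node -/
lemma SD.zoneB (h : SD P μ b m w β κ1 K1 L) {p0 C0 : ℝ} (hp0 : p0 ∈ P) {x : ℝ} (hC0 : 0 ≤ C0)
    (hxP : x ∉ newP P m L)
    (hx1 : 100 * L ≤ |x - p0|) (hx2 : |x - p0| ≤ 1) (hx3 : 4 * |x - p0| * (1 + C0) ≤ μ)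
    (ho : ‖oth P μ b m w β L p0 x‖ ≤ C0) (hdo : ‖doth P μ b m w β L p0 x‖ ≤ C0) :
    ‖deriv (UN P μ b m w β L) x‖ ≤ 11 / μ := by
  have hL := h.hL
  have hμ := h.hμ
  set d := |x - p0| with hd
  have hd0 : 0 < d := by linarith
  have hnd : ‖(x:ℂ) - p0‖ = d := norm_real_sub x p0
  rw [(h.hasDeriv_UN hxP).deriv, norm_mul, norm_neg, norm_pow]
  have h1 := hp_far_ge h.hc hμ hL (z := (x:ℂ)) (p := p0) (by rw [hnd]; exact hx1)
  have h2 := dhp_far_le h.hc hμ hL (z := (x:ℂ)) (p := p0) (by rw [hnd]; exact hx1)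
  rw [hnd] at h1 h2
  have hdG : ‖dGN P μ b m w β L x‖ ≤ 3.25 * μ / d ^ 2 := by
    rw [SD.dGN_split hp0]
    refine (norm_add_le _ _).trans ?_
    have h3 : C0 ≤ 0.25 * μ / d ^ 2 := by
      rw [le_div_iff₀ (by positivity)]
      have : C0 * d ^ 2 ≤ C0 * d := by
        have : d ^ 2 ≤ d := by nlinarith
        nlinarith
      nlinarith
    have h4 : 3.25 * μ / d ^ 2 = 3 * μ / d ^ 2 + 0.25 * μ / d ^ 2 := by ring
    linarith
  have hG : 0.55 * μ / d ≤ ‖1 + GN P μ b m w β L x‖ := by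
    rw [h.GN_split hp0]
    have h3 : ‖hp m w β μ L p0 x‖ ≤ ‖1 + (hp m w β μ L p0 x + oth P μ b m w β L p0 x)‖ +
        ‖1 + oth P μ b m w β L p0 x‖ := by
      have := norm_sub_le (1 + (hp m w β μ L p0 x + oth P μ b m w β L p0 x))
        (1 + oth P μ b m w β L p0 x)
      have e : 1 + (hp m w β μ L p0 x + oth P μ b m w β L p0 x) -
        (1 + oth P μ b m w β L p0 x) = hp m w β μ L p0 x := by ring
      rw [e] at this
      exact this
    have h4 : ‖1 + oth P μ b m w β L p0 x‖ ≤ 1 + C0 := by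
      refine (norm_add_le _ _).trans ?_
      rw [norm_one]; linarith
    have h5 : 1 + C0 ≤ 0.25 * μ / d := by
      rw [le_div_iff₀ hd0]; linarith
    have h6 : 4 / 5 * (μ / d) = 0.55 * μ / d + 0.25 * μ / d := by ring
    linarith
  have hU : ‖UN P μ b m w β L x‖ ≤ d / (0.55 * μ) := by
    rw [SD.UN_eq hxP, norm_inv, inv_le_comm₀ (lt_of_lt_of_le (by positivity) hG) (by positivity),
      inv_div]
    exact hG
  calc ‖dGN P μ b m w β L x‖ * ‖UN P μ b m w β L x‖ ^ 2 ≤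
        (3.25 * μ / d ^ 2) * (d / (0.55 * μ)) ^ 2 := by gcongr
    _ = (3.25 / 0.3025) / μ := by field_simp; norm_num
    _ ≤ 11 / μ := by
        apply div_le_div_of_nonneg_right _ hμ.le
        norm_num

/-- zone C: the inner part of a neighbourhood of a node -/
lemma SD.zoneC (h : SD P μ b m w β κ1 K1 L) {p0 C0 : ℝ} (hp0 : p0 ∈ P) {x : ℝ}
    (hxP : x ∉ newP P m L)
    (hx1 : |x - p0| ≤ 100 * L) (hL1 : 2 * L * (1 + C0) ≤ μ * κ1) (hL2 : L ^ 2 * C0 ≤ μ * K1 * κ1 ^ 2)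
    (ho : ‖oth P μ b m w β L p0 x‖ ≤ C0) (hdo : ‖doth P μ b m w β L p0 x‖ ≤ C0) :
    ‖deriv (UN P μ b m w β L) x‖ ≤ 8 * K1 * m / μ ∧ ‖UN P μ b m w β L x‖ ≤ 2 * L / (μ * κ1) := by
  have hL := h.hL
  have hμ := h.hμ
  have hκ1 := h.hκ1
  have hK1 := h.hK1
  have hm : (1:ℝ) ≤ m := by exact_mod_cast h.hc.hm
  have hs : |(x - p0) / L| ≤ 100 := by
    rw [abs_div, abs_of_pos hL, div_le_iff₀ hL]; exact hx1
  have hlow := h.hc.low _ hs (h.nonnode hp0 hxP)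
  have hder := h.hc.der _ hs (h.nonnode hp0 hxP)
  rw [← SD.cast_div] at hlow hder
  set H := ‖HH m w β (((x:ℂ) - p0) / L)‖ with hH
  have hH0 : 0 < H := by linarith
  have hhp : ‖hp m w β μ L p0 x‖ = μ / L * H := by
    unfold hp
    rw [norm_mul, norm_div, norm_mul, norm_I, one_mul, norm_real, norm_real, Real.norm_eq_abs,
      Real.norm_eq_abs, abs_of_pos hμ, abs_of_pos hL]
  have hdhp : ‖dhp m w β μ L p0 x‖ ≤ μ / L ^ 2 * (K1 * m * H ^ 2) := by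
    unfold dhp
    rw [norm_mul, norm_div, norm_mul, norm_I, one_mul, norm_pow, norm_real, norm_real,
      Real.norm_eq_abs, Real.norm_eq_abs, abs_of_pos hμ, abs_of_pos hL]
    gcongr
  have hdG : ‖dGN P μ b m w β L x‖ ≤ 2 * (μ / L ^ 2 * (K1 * m * H ^ 2)) := by
    rw [SD.dGN_split hp0]
    refine (norm_add_le _ _).trans ?_
    have h3 : C0 ≤ μ / L ^ 2 * (K1 * m * H ^ 2) := by
      rw [div_mul_eq_mul_div, le_div_iff₀ (by positivity)]
      calc C0 * L ^ 2 ≤ μ * (K1 * 1 * κ1 ^ 2) := by linarith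
        _ ≤ μ * (K1 * m * H ^ 2) := by gcongr
    linarith
  have hG : μ / (2 * L) * H ≤ ‖1 + GN P μ b m w β L x‖ := by
    rw [h.GN_split hp0]
    have h3 : ‖hp m w β μ L p0 x‖ ≤ ‖1 + (hp m w β μ L p0 x + oth P μ b m w β L p0 x)‖ +
        ‖1 + oth P μ b m w β L p0 x‖ := by
      have := norm_sub_le (1 + (hp m w β μ L p0 x + oth P μ b m w β L p0 x))
        (1 + oth P μ b m w β L p0 x)
      have e : 1 + (hp m w β μ L p0 x + oth P μ b m w β L p0 x) -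
        (1 + oth P μ b m w β L p0 x) = hp m w β μ L p0 x := by ring
      rw [e] at this
      exact this
    have h4 : ‖1 + oth P μ b m w β L p0 x‖ ≤ 1 + C0 := by
      refine (norm_add_le _ _).trans ?_
      rw [norm_one]; linarith
    have h5 : 1 + C0 ≤ μ / (2 * L) * H := by
      rw [div_mul_eq_mul_div, le_div_iff₀ (by positivity)]
      calc (1 + C0) * (2 * L) ≤ μ * κ1 := by linarith
        _ ≤ μ * H := by gcongr
    have h6 : μ / L * H = μ / (2 * L) * H + μ / (2 * L) * H := by field_simp; ring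
    rw [hhp, h6] at h3
    linarith
  have hU : ‖UN P μ b m w β L x‖ ≤ 2 * L / (μ * H) := by
    rw [SD.UN_eq hxP, norm_inv, inv_le_comm₀ (lt_of_lt_of_le (by positivity) hG) (by positivity),
      inv_div]
    refine le_trans (le_of_eq ?_) hG
    field_simp
  constructor
  · rw [(h.hasDeriv_UN hxP).deriv, norm_mul, norm_neg, norm_pow]
    calc ‖dGN P μ b m w β L x‖ * ‖UN P μ b m w β L x‖ ^ 2 ≤
          (2 * (μ / L ^ 2 * (K1 * m * H ^ 2))) * (2 * L / (μ * H)) ^ 2 := by gcongr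
      _ = 8 * K1 * m / μ := by field_simp; norm_num
  · refine hU.trans ?_
    gcongr

end

end Pool.Agent.E8helper79.PS
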