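import Pool.Agent.E8helper79.PS.Step2

/-!
# Hölder bound near a node
-/

set_option autoImplicit false

open Complex Finset Filter Topology

namespace Pool.Agent.E8helper79.PS

section

variable {P : Finset ℝ} {μ : ℝ} {b : ℂ → ℂ} {m : ℕ} {w : ℝ} {β : ℂ → ℂ} {κ1 K1 L : ℝ}

lemma const_bound {α κ1 K1 L m μ w t : ℝ} (hκ1 : 0 < κ1) (hK1 : 0 < K1)
    (hL : 0 < L) (hm : 0 < m) (hμ : 0 < μ) (ht : 0 ≤ t) (hwm : w * m ≤ 1 / 2)
    (hrel : (L / m) ^ (1 - α) = t * μ * w)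
    (hT : (4 / κ1) ^ (1 - α) * (8 * K1) ^ α * t ≤ 2 / 3) :
    (2 * (2 * L / (μ * κ1))) ^ (1 - α) * (8 * K1 * m / μ) ^ α ≤ 1 / 3 := by
  have e1 : (2 * (2 * L / (μ * κ1))) = (4 / κ1) * ((L / m) * (m / μ)) := by
    field_simp; norm_num
  have e2 : 8 * K1 * m / μ = (8 * K1) * (m / μ) := by ring
  have h0 : 0 < m / μ := by positivity
  have h1 : 0 < L / m := by positivity
  have h4 : 0 < 4 / κ1 := by positivity
  have h8 : 0 < 8 * K1 := by positivity
  rw [e1, e2, Real.mul_rpow h4.le (by positivity), Real.mul_rpow h1.le h0.le,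
    Real.mul_rpow h8.le h0.le, hrel]
  have e3 : (m / μ) ^ (1 - α) * (m / μ) ^ α = m / μ := by
    rw [← Real.rpow_add h0]; simp
  calc (4 / κ1) ^ (1 - α) * (t * μ * w * (m / μ) ^ (1 - α)) * ((8 * K1) ^ α * (m / μ) ^ α)
      = ((4 / κ1) ^ (1 - α) * (8 * K1) ^ α * t) * (μ * w) * ((m / μ) ^ (1 - α) * (m / μ) ^ α) := by
        ring
    _ = ((4 / κ1) ^ (1 - α) * (8 * K1) ^ α * t) * (w * m) := by
        rw [e3]; field_simp
    _ ≤ ((4 / κ1) ^ (1 - α) * (8 * K1) ^ α * t) * (1 / 2) := by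
        apply mul_le_mul_of_nonneg_left hwm
        positivity
    _ ≤ 1 / 3 := by linarith

lemma SD.near (h : SD P μ b m w β κ1 K1 L) {p0 C0 r α t : ℝ} (hα : 0 < α) (hα1 : α < 1)
    (hp0 : p0 ∈ P) (hC0 : 0 ≤ C0) (hr1 : 2 * r ≤ 1) (hr2 : 8 * r * (1 + C0) ≤ μ)
    (hr3 : 11 / μ * (4 * r) ^ (1 - α) ≤ 1 / 3) (hLr : 100 * L ≤ r)
    (hsep : ∀ q ∈ P, q ≠ p0 → 4 * r ≤ |p0 - q|)
    (hL1 : 2 * L * (1 + C0) ≤ μ * κ1) (hL2 : L ^ 2 * C0 ≤ μ * K1 * κ1 ^ 2)
    (ht : 0 ≤ t) (hrel : (L / m) ^ (1 - α) = t * μ * w)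
    (hT : (4 / κ1) ^ (1 - α) * (8 * K1) ^ α * t ≤ 2 / 3)
    (ho : ∀ x : ℝ, |x - p0| ≤ 2 * r → ‖oth P μ b m w β L p0 x‖ ≤ C0)
    (hdo : ∀ x : ℝ, |x - p0| ≤ 2 * r → ‖doth P μ b m w β L p0 x‖ ≤ C0) :
    LipOn α 1 (fun x : ℝ => UN P μ b m w β L x) (Set.Icc (p0 - 2 * r) (p0 + 2 * r)) := by
  have hL := h.hL
  have hμ := h.hμ
  have hκ1 := h.hκ1
  have hK1 := h.hK1
  have hm : (0:ℝ) < m := by exact_mod_cast h.hc.hm
  have han : ∀ x : ℝ, AnalyticAt ℂ (UN P μ b m w β L) x := fun x => h.an_UN (by simp)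
  -- zone B
  have hnon : ∀ x : ℝ, 100 * L ≤ |x - p0| → |x - p0| ≤ 2 * r → x ∉ newP P m L := by
    intro x hx1 hx2
    apply h.not_mem_of_far
    intro q hq
    by_cases hqp : q = p0
    · rw [hqp]; linarith
    · have h1 := hsep q hq hqp
      have h2 := abs_sub_le p0 x q
      rw [abs_sub_comm p0 x] at h2
      linarith
  have hB : ∀ x : ℝ, 100 * L ≤ |x - p0| → |x - p0| ≤ 2 * r →
      ‖deriv (UN P μ b m w β L) x‖ ≤ 11 / μ := by
    intro x hx1 hx2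
    apply h.zoneB hp0 hC0 (hnon x hx1 hx2) hx1 (by linarith) _ (ho x hx2) (hdo x hx2)
    have : 4 * |x - p0| * (1 + C0) ≤ 4 * (2 * r) * (1 + C0) := by gcongr
    linarith
  have hzB : ∀ a b' : ℝ, (∀ x ∈ Set.Icc a b', 100 * L ≤ |x - p0| ∧ |x - p0| ≤ 2 * r) →
      LipOn α (1 / 3) (fun x : ℝ => UN P μ b m w β L x) (Set.Icc a b') := by
    intro a b' hab
    have h1 := lin_of_deriv (a := a) (b := b') (fun x _ => han x) ∅
      (fun x hx _ => hB x (hab x hx).1 (hab x hx).2)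
    have h2 := lipOn_of_lin (f := fun x : ℝ => UN P μ b m w β L x) (ℓ := 4 * r) hα hα1.le
      (by positivity : (0:ℝ) ≤ 11 / μ) (S := Set.Icc a b')
      (fun x hx y hy => by
        have h3 := (hab x hx).2
        have h4 := (hab y hy).2
        have h5 := abs_sub_le x p0 y
        rw [abs_sub_comm p0 y] at h5
        linarith) h1
    exact h2.mono hr3 subset_rfl
  -- zone C
  have hzC : LipOn α (1 / 3) (fun x : ℝ => UN P μ b m w β L x)
      (Set.Icc (p0 - 100 * L) (p0 + 100 * L)) := by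
    have hin : ∀ x ∈ Set.Icc (p0 - 100 * L) (p0 + 100 * L), |x - p0| ≤ 100 * L := by
      intro x hx
      rw [abs_le]
      constructor <;> linarith [hx.1, hx.2]
    have h1 := lin_of_deriv (a := p0 - 100 * L) (b := p0 + 100 * L) (fun x _ => han x)
      (newP P m L) (A := 8 * K1 * m / μ)
      (fun x hx hxn => (h.zoneC hp0 hxn (hin x hx) hL1 hL2 (ho x ((hin x hx).trans (by linarith)))
        (hdo x ((hin x hx).trans (by linarith)))).1)
    have h2 : ∀ x ∈ Set.Icc (p0 - 100 * L) (p0 + 100 * L),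
        ‖UN P μ b m w β L x‖ ≤ 2 * L / (μ * κ1) := by
      intro x hx
      by_cases hxn : x ∈ newP P m L
      · rw [SD.UN_node hxn, norm_zero]; positivity
      · exact (h.zoneC hp0 hxn (hin x hx) hL1 hL2 (ho x ((hin x hx).trans (by linarith)))
          (hdo x ((hin x hx).trans (by linarith)))).2
    have h3 := lipOn_of_interp (f := fun x : ℝ => UN P μ b m w β L x) hα hα1.le
      (by positivity : (0:ℝ) ≤ 8 * K1 * m / μ) h2 h1
    exact h3.mono (const_bound hκ1 hK1 hL hm hμ ht h.hc.hwm hrel hT) subset_rfl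
  have hz1 := hzB (p0 - 2 * r) (p0 - 100 * L) (by
    intro x hx
    have h1 : x - p0 ≤ 0 := by linarith [hx.2]
    rw [abs_of_nonpos h1]
    constructor <;> linarith [hx.1, hx.2])
  have hz2 := hzB (p0 + 100 * L) (p0 + 2 * r) (by
    intro x hx
    have h1 : 0 ≤ x - p0 := by linarith [hx.1]
    rw [abs_of_nonneg h1]
    constructor <;> linarith [hx.1, hx.2])
  have hz3 := lipOn_glue hα (by norm_num) (by norm_num) hz1 hzC
  have hz4 := lipOn_glue hα (by norm_num) (by norm_num) hz3 hz2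
  exact hz4.mono (by norm_num) subset_rfl

end

end Pool.Agent.E8helper79.PS
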