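import Pool.Agent.E8helper79.PS.Step3

/-!
# One replacement step
-/

set_option autoImplicit false

open Complex Finset Filter Topology

namespace Pool.Agent.E8helper79.PS

/-- the invariants of a stage of the construction -/
structure IsStage (α : ℝ) (P : Finset ℝ) (μ : ℝ) (b : ℂ → ℂ) (c C Λ : ℝ) : Prop where
  hμ : 0 < μ
  hne : P.Nonempty
  hcP : ∀ p ∈ P, |p| ≤ c
  ban : ∀ z : ℂ, 0 ≤ z.im → AnalyticAt ℂ b z
  bre : ∀ z : ℂ, 0 ≤ z.im → 0 ≤ (b z).re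
  bfar : ∀ z : ℂ, 2 ≤ ‖z‖ → AnalyticAt ℂ b z
  gfar : ∀ z : ℂ, 2 ≤ ‖z‖ → ‖Gf P μ b z‖ ≤ C / ‖z‖
  lip : LipOn α Λ (fun x : ℝ => Uf P μ b x) (Set.Icc (-4) 4)

lemma norm_sum_le_card {ι : Type*} {P : Finset ι} {f : ι → ℂ} {B : ℝ} (h : ∀ p ∈ P, ‖f p‖ ≤ B) :
    ‖∑ p ∈ P, f p‖ ≤ P.card * B := by
  refine (norm_sum_le_of_le P h).trans (le_of_eq ?_)
  rw [sum_const, nsmul_eq_mul]

section

variable {P : Finset ℝ} {μ : ℝ} {b : ℂ → ℂ} {m : ℕ} {w : ℝ} {β : ℂ → ℂ} {κ1 K1 L : ℝ}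

lemma SD.far_sup (h : SD P μ b m w β κ1 K1 L) {ρ : ℝ} {z : ℂ} (hρ : 50 * L ≤ ρ)
    (hz : ∀ p ∈ P, ρ ≤ ‖z - p‖) :
    ‖GN P μ b m w β L z - Gf P μ b z‖ ≤ P.card * (16 * μ * L / ρ ^ 2) := by
  have hL := h.hL
  have hμ := h.hμ
  rw [h.GN_eq, Gf]
  have e : ∑ p ∈ P, hp m w β μ L p z + b z - (∑ p ∈ P, I * μ / (z - p) + b z) =
      ∑ p ∈ P, (hp m w β μ L p z - I * μ / (z - p)) := by
    rw [sum_sub_distrib]; ring
  rw [e]
  apply norm_sum_le_card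
  · intro p hp
    have hρp := hz p hp
    refine (hp_far h.hc hμ hL (hρ.trans hρp)).trans ?_
    have : 0 < ρ := by linarith
    gcongr

lemma SD.far_der (h : SD P μ b m w β κ1 K1 L) {ρ : ℝ} {z : ℂ} (hρ : 100 * L ≤ ρ)
    (hz : ∀ p ∈ P, ρ ≤ ‖z - p‖) :
    ‖dGN P μ b m w β L z - (-∑ p ∈ P, I * μ / (z - p) ^ 2 + deriv b z)‖ ≤
      P.card * (128 * μ * L / ρ ^ 3) := by
  have hL := h.hL
  have hμ := h.hμ
  rw [dGN]
  have e : ∑ p ∈ P, dhp m w β μ L p z + deriv b z -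
      (-∑ p ∈ P, I * μ / (z - p) ^ 2 + deriv b z) =
      ∑ p ∈ P, (dhp m w β μ L p z + I * μ / (z - p) ^ 2) := by
    rw [sum_add_distrib]; ring
  rw [e]
  apply norm_sum_le_card
  · intro p hp
    have hρp := hz p hp
    refine (dhp_far h.hc hμ hL (hρ.trans hρp)).trans ?_
    have : 0 < ρ := by linarith
    gcongr

lemma dG_norm (hμ : 0 < μ) {ρ B0 : ℝ} {z : ℂ} (hρ : 0 < ρ)
    (hz : ∀ p ∈ P, ρ ≤ ‖z - p‖) (hb : ‖deriv b z‖ ≤ B0) :
    ‖-∑ p ∈ P, I * μ / (z - p) ^ 2 + deriv b z‖ ≤ P.card * (μ / ρ ^ 2) + B0 := by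
  refine (norm_add_le _ _).trans ?_
  rw [norm_neg]
  apply add_le_add _ hb
  apply norm_sum_le_card
  · intro p hp
    have hρp := hz p hp
    rw [norm_div, norm_mul, norm_I, one_mul, norm_real, Real.norm_eq_abs, abs_of_pos hμ, norm_pow]
    gcongr

/-- uniform closeness away from the nodes, on the real line -/
lemma SD.diff_far (h : SD P μ b m w β κ1 K1 L) {ρ x : ℝ} (hρ : 100 * L ≤ ρ)
    (hx : ∀ p ∈ P, ρ ≤ |x - p|) :
    ‖UN P μ b m w β L x - Uf P μ b x‖ ≤ P.card * (16 * μ * L / ρ ^ 2) := by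
  have hL := h.hL
  have hx' : ∀ p ∈ P, ρ ≤ ‖(x:ℂ) - p‖ := by
    intro p hp; rw [norm_real_sub]; exact hx p hp
  have hxN : x ∉ newP P m L := h.not_mem_of_far (fun p hp => by linarith [hx p hp])
  have hxP : x ∉ P := fun hxP => by
    have := hx x hxP
    simp at this
    linarith
  have h1 := h.far_sup (z := (x:ℂ)) (by linarith) hx'
  have n1 : 1 + GN P μ b m w β L x ≠ 0 := h.one_add_ne (by simp)
  have n2 : 1 + Gf P μ b x ≠ 0 := one_add_Gf_ne h.hμ (by simp) (h.bre x (by simp))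
  have e : UN P μ b m w β L x - Uf P μ b x =
      -((GN P μ b m w β L x - Gf P μ b x) * UN P μ b m w β L x * Uf P μ b x) := by
    rw [SD.UN_eq hxN, Uf_eq (ofReal_ne_of_not_mem hxP)]
    field_simp
    ring
  have u1 := h.UN_le (z := (x:ℂ)) (by simp)
  have u2 : ‖Uf P μ b x‖ ≤ 1 := Uf_norm_le h.hμ (by simp) (h.bre x (by simp))
  rw [e, norm_neg, norm_mul, norm_mul]
  calc ‖GN P μ b m w β L x - Gf P μ b x‖ * ‖UN P μ b m w β L x‖ * ‖Uf P μ b x‖ ≤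
        ‖GN P μ b m w β L x - Gf P μ b x‖ * 1 * 1 := by gcongr
    _ ≤ _ := by linarith

/-- the derivative of the difference away from the nodes -/
lemma SD.ddiff_far (h : SD P μ b m w β κ1 K1 L) {ρ x B0 : ℝ} (hρ : 100 * L ≤ ρ)
    (hx : ∀ p ∈ P, ρ ≤ |x - p|) (hb : ‖deriv b x‖ ≤ B0) :
    ∃ d : ℂ, HasDerivAt (fun z => UN P μ b m w β L z - Uf P μ b z) d x ∧
      ‖d‖ ≤ P.card * (128 * μ * L / ρ ^ 3) + (P.card * (μ / ρ ^ 2) + B0) *
        (2 * (P.card * (16 * μ * L / ρ ^ 2))) := by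
  have hL := h.hL
  have hx' : ∀ p ∈ P, ρ ≤ ‖(x:ℂ) - p‖ := by
    intro p hp; rw [norm_real_sub]; exact hx p hp
  have hxN : x ∉ newP P m L := h.not_mem_of_far (fun p hp => by linarith [hx p hp])
  have hxP : x ∉ P := fun hxP => by
    have := hx x hxP
    simp at this
    linarith
  have n2 : 1 + Gf P μ b x ≠ 0 := one_add_Gf_ne h.hμ (by simp) (h.bre x (by simp))
  set dG : ℂ := -∑ p ∈ P, I * μ / ((x:ℂ) - p) ^ 2 + deriv b x with hdG
  have d1 := h.hasDeriv_UN hxN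
  have d2 : HasDerivAt (Uf P μ b) (-dG * Uf P μ b x ^ 2) x :=
    hasDerivAt_Uf (ofReal_ne_of_not_mem hxP)
      (hasDerivAt_Gf (ofReal_ne_of_not_mem hxP) (h.ban x (by simp)).differentiableAt) n2
  refine ⟨_, d1.sub d2, ?_⟩
  have h1 := h.far_der (z := (x:ℂ)) hρ hx'
  rw [← hdG] at h1
  have h2 := dG_norm (b := b) h.hμ (by linarith) hx' hb
  rw [← hdG] at h2
  have h3 := h.diff_far hρ hx
  have u1 := h.UN_le (z := (x:ℂ)) (by simp)
  have u2 : ‖Uf P μ b x‖ ≤ 1 := Uf_norm_le h.hμ (by simp) (h.bre x (by simp))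
  set u := UN P μ b m w β L x with hu
  set v := Uf P μ b x with hv
  set g := dGN P μ b m w β L x with hg
  have e : -g * u ^ 2 - -dG * v ^ 2 = -((g - dG) * u ^ 2) - dG * ((u + v) * (u - v)) := by ring
  rw [e]
  refine (norm_sub_le _ _).trans ?_
  rw [norm_neg, norm_mul, norm_mul, norm_mul, norm_pow]
  have h4 : ‖u + v‖ ≤ 2 := (norm_add_le _ _).trans (by linarith)
  apply add_le_add
  · calc ‖g - dG‖ * ‖u‖ ^ 2 ≤ ‖g - dG‖ * 1 ^ 2 := by gcongr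
      _ ≤ _ := by linarith
  · have h5 : 0 ≤ P.card * (μ / ρ ^ 2) + B0 := le_trans (norm_nonneg _) h2
    gcongr

end

end Pool.Agent.E8helper79.PS
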