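import Pool.Agent.E8helper79.PS.Step4

/-!
# One replacement step, soft form
-/

set_option autoImplicit false

open Complex Finset Filter Topology

namespace Pool.Agent.E8helper79.PS

lemma ev_lin (A : ℝ) {η : ℝ} (hη : 0 < η) : ∀ᶠ r in 𝓝[>] (0:ℝ), A * r ≤ η := by
  have h1 : Tendsto (fun r : ℝ => A * r) (𝓝 0) (𝓝 (A * 0)) := (continuous_const_mul A).tendsto 0
  rw [mul_zero] at h1
  have h2 := h1.eventually (Iic_mem_nhds hη)
  exact (h2.filter_mono nhdsWithin_le_nhds)

lemma ev_pow (A : ℝ) {η s : ℝ} (hs : 0 < s) (hη : 0 < η) :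
    ∀ᶠ r in 𝓝[>] (0:ℝ), A * r ^ s ≤ η := by
  have h0 : Tendsto (fun r : ℝ => r ^ s) (𝓝 0) (𝓝 ((0:ℝ) ^ s)) :=
    (Real.continuous_rpow_const hs.le).tendsto 0
  rw [Real.zero_rpow hs.ne'] at h0
  have h1 := h0.const_mul A
  rw [mul_zero] at h1
  have h2 := h1.eventually (Iic_mem_nhds hη)
  exact (h2.filter_mono nhdsWithin_le_nhds)

lemma exists_gap (P : Finset ℝ) : ∃ g > 0, ∀ p ∈ P, ∀ q ∈ P, p ≠ q → g ≤ |p - q| := by
  have h : ∀ᶠ g in 𝓝[>] (0:ℝ), ∀ p ∈ P, ∀ q ∈ P, p ≠ q → g ≤ |p - q| := by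
    rw [Finset.eventually_all]
    intro p _
    rw [Finset.eventually_all]
    intro q _
    by_cases hpq : p = q
    · simp [hpq]
    · have h1 : 0 < |p - q| := abs_pos.2 (sub_ne_zero.2 hpq)
      have := ev_lin 1 h1
      filter_upwards [this] with g hg _
      linarith
  obtain ⟨g, hg, hpos⟩ := (h.and self_mem_nhdsWithin).exists
  exact ⟨g, hpos, hg⟩

lemma exists_bd {b : ℂ → ℂ} (ban : ∀ z : ℂ, 0 ≤ z.im → AnalyticAt ℂ b z) :
    ∃ B0 : ℝ, 0 ≤ B0 ∧ ∀ x : ℝ, |x| ≤ 5 → ‖b x‖ ≤ B0 ∧ ‖deriv b x‖ ≤ B0 := by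
  have c1 : ContinuousOn (fun x : ℝ => b x) (Set.Icc (-5) 5) := by
    intro x _
    have h1 : ContinuousAt b (x:ℂ) := (ban x (by simp)).continuousAt
    exact (ContinuousAt.comp (f := fun x : ℝ => (x:ℂ)) h1 (by fun_prop)).continuousWithinAt
  have c2 : ContinuousOn (fun x : ℝ => deriv b x) (Set.Icc (-5) 5) := by
    intro x _
    have h1 : ContinuousAt (deriv b) (x:ℂ) := (ban x (by simp)).deriv.continuousAt
    exact (ContinuousAt.comp (f := fun x : ℝ => (x:ℂ)) h1 (by fun_prop)).continuousWithinAt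
  obtain ⟨B1, hB1⟩ := isCompact_Icc.exists_bound_of_continuousOn c1
  obtain ⟨B2, hB2⟩ := isCompact_Icc.exists_bound_of_continuousOn c2
  refine ⟨max 0 (max B1 B2), le_max_left _ _, fun x hx => ?_⟩
  have hx' : x ∈ Set.Icc (-5:ℝ) 5 := abs_le.1 hx
  exact ⟨(hB1 x hx').trans ((le_max_left _ _).trans (le_max_right _ _)),
    (hB2 x hx').trans ((le_max_right _ _).trans (le_max_right _ _))⟩

section

variable {P : Finset ℝ} {μ : ℝ} {b : ℂ → ℂ} {m : ℕ} {w : ℝ} {β : ℂ → ℂ} {κ1 K1 L : ℝ}

lemma SD.oth_bound (h : SD P μ b m w β κ1 K1 L) {g0 B0 p0 x : ℝ} (hg0 : 0 < g0) (hp0 : p0 ∈ P)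
    (hgap : ∀ p ∈ P, ∀ q ∈ P, p ≠ q → g0 ≤ |p - q|) (hLg : 100 * L ≤ g0 / 2)
    (hx : |x - p0| ≤ g0 / 2) (hb : ‖b x‖ ≤ B0) (hdb : ‖deriv b x‖ ≤ B0) :
    ‖oth P μ b m w β L p0 x‖ ≤ P.card * (2 * μ / (g0 / 2)) + B0 ∧
    ‖doth P μ b m w β L p0 x‖ ≤ P.card * (3 * μ / (g0 / 2) ^ 2) + B0 := by
  have hμ := h.hμ
  have hfar : ∀ q ∈ P.erase p0, g0 / 2 ≤ ‖(x:ℂ) - q‖ := by
    intro q hq
    rw [norm_real_sub]
    rw [mem_erase] at hq
    have h1 := hgap p0 hp0 q hq.2 hq.1.symm
    have h2 := abs_sub_le p0 x q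
    rw [abs_sub_comm p0 x] at h2
    linarith
  have hcard : ((P.erase p0).card : ℝ) ≤ P.card := by
    exact_mod_cast card_le_card (erase_subset p0 P)
  constructor
  · unfold oth
    refine (norm_add_le _ _).trans (add_le_add ?_ hb)
    refine (norm_sum_le_card (B := 2 * μ / (g0 / 2)) ?_).trans ?_
    · intro q hq
      have h1 := hfar q hq
      refine (hp_far_le h.hc hμ h.hL (hLg.trans h1)).trans ?_
      gcongr
    · gcongr
  · unfold doth
    refine (norm_add_le _ _).trans (add_le_add ?_ hdb)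
    refine (norm_sum_le_card (B := 3 * μ / (g0 / 2) ^ 2) ?_).trans ?_
    · intro q hq
      have h1 := hfar q hq
      refine (dhp_far_le h.hc hμ h.hL (hLg.trans h1)).trans ?_
      gcongr
    · gcongr

end

lemma ar_LL {L : ℝ} (h0 : 0 < L) (h1 : 1 * L ≤ 1) : L ^ 2 ≤ L := by nlinarith

/-- one step, for all small scales `L` -/
theorem step_soft {α : ℝ} (hα : 0 < α) (hα1 : α < 1) {P : Finset ℝ} {μ : ℝ} {b : ℂ → ℂ}
    {c C Λ : ℝ} (hS : IsStage α P μ b c C Λ) (hc1 : c ≤ 1) (hΛ : 0 ≤ Λ) {κ1 K1 t δ : ℝ}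
    (hκ1 : 0 < κ1) (hK1 : 0 < K1) (ht : 0 ≤ t)
    (hT : (4 / κ1) ^ (1 - α) * (8 * K1) ^ α * t ≤ 2 / 3) (hδ : 0 < δ) :
    ∀ᶠ L in 𝓝[>] (0:ℝ), ∀ (m : ℕ) (w : ℝ) (β : ℂ → ℂ), Clus m w β κ1 K1 →
      (L / m) ^ (1 - α) = t * μ * w →
      IsStage α (newP P m L) (μ * w) (newb P μ b L β) (c + δ) (C + δ) (max (Λ + δ) 1) ∧
      (∀ x : ℝ, ‖UN P μ b m w β L x - Uf P μ b x‖ ≤ δ) ∧
      (∀ p ∈ P, ∀ q ∈ P, p ≠ q → 2 * L < |p - q|) := by
  have hμ := hS.hμ
  obtain ⟨g0, hg0, hgap⟩ := exists_gap P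
  obtain ⟨B0, hB0, hBb⟩ := exists_bd hS.ban
  set N : ℝ := (P.card : ℝ) with hN
  have hN0 : 0 ≤ N := by positivity
  set C0 : ℝ := N * (2 * μ / (g0 / 2)) + N * (3 * μ / (g0 / 2) ^ 2) + B0 with hC0d
  have hC0 : 0 ≤ C0 := by positivity
  -- choice of r
  obtain ⟨r, ⟨⟨⟨⟨hr1, hr2⟩, hr3⟩, hr4⟩, hr0⟩⟩ := (((((ev_lin 2 one_pos).and (ev_lin 4 hg0)).and
    (ev_lin (8 * (1 + C0)) hμ)).and
    (ev_pow (11 / μ * 4 ^ (1 - α)) (s := 1 - α) (by linarith) (by norm_num : (0:ℝ) < 1 / 3))).and
    (self_mem_nhdsWithin)).exists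
  have hr : 0 < r := hr0
  have hr4' : 11 / μ * (4 * r) ^ (1 - α) ≤ 1 / 3 := by
    rw [Real.mul_rpow (by norm_num) hr.le]
    linarith
  set η : ℝ := min δ (δ * r ^ α / 2) with hη
  have hη0 : 0 < η := by
    apply lt_min hδ
    have := Real.rpow_pos_of_pos hr α
    positivity
  obtain ⟨r', ⟨⟨hs1, hs2⟩, hs0⟩⟩ := (((ev_lin 1 hr).and
    (ev_pow (1 + Λ) (s := α) hα hη0)).and (self_mem_nhdsWithin)).exists
  have hr' : 0 < r' := hs0
  have hr'r : r' ≤ r := by linarith
  -- choice of L
  filter_upwards [ev_lin 100 hr', ev_lin (2 * (1 + C0)) (mul_pos hμ hκ1), ev_lin 1 (one_pos),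
    ev_lin C0 (mul_pos (mul_pos hμ hK1) (pow_pos hκ1 2)),
    ev_lin (N * (16 * μ / r' ^ 2)) hη0,
    ev_lin (N * (128 * μ / r ^ 3) + (N * (μ / r ^ 2) + B0) * (2 * (N * (16 * μ / r ^ 2)))) hδ,
    ev_lin (N * (32 * μ)) hδ, ev_lin 1 hδ, self_mem_nhdsWithin] with L h1 h2 h3 h4 h5 h6 h7 h8 hL0
    m w β hc hrel
  have hL : 0 < L := hL0
  have hm : (0:ℝ) < m := by exact_mod_cast hc.hm
  have hsep : ∀ p ∈ P, ∀ q ∈ P, p ≠ q → 2 * L < |p - q| := by
    intro p hp q hq hpq
    have := hgap p hp q hq hpq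
    linarith
  have h : SD P μ b m w β κ1 K1 L := ⟨hc, hκ1, hK1, hμ, hL, hsep, hS.ban, hS.bre⟩
  have hPc : ∀ p ∈ P, |p| ≤ 1 := fun p hp => (hS.hcP p hp).trans hc1
  -- near estimate
  have hnear : ∀ p0 ∈ P, LipOn α 1 (fun x : ℝ => UN P μ b m w β L x)
      (Set.Icc (p0 - 2 * r) (p0 + 2 * r)) := by
    intro p0 hp0
    have hbd : ∀ x : ℝ, |x - p0| ≤ 2 * r → ‖oth P μ b m w β L p0 x‖ ≤ C0 ∧
        ‖doth P μ b m w β L p0 x‖ ≤ C0 := by
      intro x hx
      have hx5 : |x| ≤ 5 := by
        have h9 := abs_sub_abs_le_abs_sub x p0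
        have := hPc p0 hp0
        linarith
      have h10 := h.oth_bound hg0 hp0 hgap (by linarith) (by linarith : |x - p0| ≤ g0 / 2)
        (hBb x hx5).1 (hBb x hx5).2
      have a1 : 0 ≤ N * (2 * μ / (g0 / 2)) := by positivity
      have a2 : 0 ≤ N * (3 * μ / (g0 / 2) ^ 2) := by positivity
      exact ⟨h10.1.trans (by linarith), h10.2.trans (by linarith)⟩
    apply h.near (C0 := C0) (t := t) hα hα1 hp0 hC0 hr1 (by linarith) hr4' (by linarith) _
      (by linarith) _ ht hrel hT (fun x hx => (hbd x hx).1) (fun x hx => (hbd x hx).2)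
    · intro q hq hqp
      exact hr2.trans (hgap p0 hp0 q hq hqp.symm)
    · have : L ^ 2 * C0 ≤ L * C0 := by
        have : L ^ 2 ≤ L := ar_LL hL h3
        gcongr
      linarith
  -- uniform closeness
  have hsup : ∀ x : ℝ, ‖UN P μ b m w β L x - Uf P μ b x‖ ≤ η := by
    intro x
    by_cases hx : ∃ p ∈ P, |x - p| < r'
    · obtain ⟨p, hp, hxp⟩ := hx
      have hpc := hPc p hp
      have e1 : ‖UN P μ b m w β L x‖ ≤ 1 * r' ^ α := by
        have := hnear p hp x (by
          rw [abs_lt] at hxp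
          constructor <;> linarith) p (by constructor <;> linarith)
        simp only [SD.UN_node' hp, sub_zero] at this
        refine this.trans ?_
        gcongr
      have e2 : ‖Uf P μ b x‖ ≤ Λ * r' ^ α := by
        have hxx := abs_sub_abs_le_abs_sub x p
        have := hS.lip x (by
          have : |x| ≤ 4 := by linarith
          exact abs_le.1 this) p (by
          have : |p| ≤ 4 := by linarith
          exact abs_le.1 this)
        simp only [Uf_node hp, sub_zero] at this
        refine this.trans ?_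
        gcongr
      refine (norm_sub_le _ _).trans ?_
      linarith
    · push Not at hx
      refine (h.diff_far h1 hx).trans ?_
      refine le_trans (le_of_eq ?_) h5
      rw [← hN]
      ring
  have hηδ : η ≤ δ := min_le_left _ _
  have hηr : 2 * η ≤ δ * r ^ α := by
    have : η ≤ δ * r ^ α / 2 := min_le_right _ _
    linarith
  refine ⟨⟨h.hμw, ?_, ?_, fun z hz => h.an_newb hz, fun z hz => h.re_newb hz, ?_, ?_, ?_⟩,
    fun x => (hsup x).trans hηδ, hsep⟩
  · obtain ⟨p, hp⟩ := hS.hne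
    exact ⟨p, subset_newP hp⟩
  · intro p' hp'
    rw [mem_newP] at hp'
    obtain ⟨p, hp, j, hj, rfl⟩ := hp'
    have e1 := hS.hcP p hp
    have e2 : |L * j / m| ≤ L := by
      rw [abs_div, abs_mul, abs_of_pos hL, abs_of_pos hm, div_le_iff₀ hm]
      have : |(j:ℝ)| ≤ m := by exact_mod_cast hj
      gcongr
    have e3 := abs_add_le p (L * j / m)
    linarith
  · intro z hz
    unfold newb
    apply AnalyticAt.fun_add _ (hS.bfar z hz)
    apply Finset.analyticAt_fun_sum
    intro p hp
    have hzp : 50 * L ≤ ‖z - p‖ := by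
      have := norm_sub_norm_le z (p:ℂ)
      rw [norm_real, Real.norm_eq_abs] at this
      have := hPc p hp
      linarith
    have hL' : (L:ℂ) ≠ 0 := by exact_mod_cast hL.ne'
    have h9 : AnalyticAt ℂ β ((z - p) / L) := by
      apply hc.anfar
      rw [norm_div, norm_real, Real.norm_eq_abs, abs_of_pos hL, le_div_iff₀ hL]
      exact hzp
    have h10 : AnalyticAt ℂ (fun z : ℂ => (z - p) / L) z := by fun_prop (disch := exact hL')
    exact analyticAt_const.mul (AnalyticAt.comp (f := fun z : ℂ => (z - p) / L) h9 h10)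
  · intro z hz
    have hz0 : 0 < ‖z‖ := by linarith
    have hzp : ∀ p ∈ P, ‖z‖ / 2 ≤ ‖z - p‖ := by
      intro p hp
      have := norm_sub_norm_le z (p:ℂ)
      rw [norm_real, Real.norm_eq_abs] at this
      have := hPc p hp
      linarith
    have h9 := h.far_sup (z := z) (ρ := ‖z‖ / 2) (by linarith) hzp
    have h10 := hS.gfar z hz
    have h11 : N * (16 * μ * L / (‖z‖ / 2) ^ 2) ≤ δ / ‖z‖ := by
      rw [div_pow, div_div_eq_mul_div, mul_div_assoc', div_le_div_iff₀ (by positivity) hz0]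
      have : N * (16 * μ * L * 2 ^ 2) * ‖z‖ = (N * (32 * μ) * L) * (2 * ‖z‖) := by ring
      rw [this]
      have : δ * ‖z‖ ^ 2 = δ * (‖z‖ * ‖z‖) := by ring
      rw [this]
      gcongr
    have e : GN P μ b m w β L z = (GN P μ b m w β L z - Gf P μ b z) + Gf P μ b z := by ring
    change ‖GN P μ b m w β L z‖ ≤ _
    rw [e, add_div]
    refine (norm_add_le _ _).trans ?_
    linarith
  · -- Hölder bound
    have hmain : ∀ x ∈ Set.Icc (-4:ℝ) 4, ∀ y ∈ Set.Icc (-4:ℝ) 4, x ≤ y →
        ‖UN P μ b m w β L x - UN P μ b m w β L y‖ ≤ max (Λ + δ) 1 * |x - y| ^ α := by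
      intro x hx y hy hxy
      have hxyα : 0 ≤ |x - y| ^ α := by positivity
      by_cases hcase : ∃ p ∈ P, |x - p| ≤ 2 * r ∧ |y - p| ≤ 2 * r
      · obtain ⟨p, hp, hxp, hyp⟩ := hcase
        rw [abs_le] at hxp hyp
        refine (hnear p hp x (by constructor <;> linarith) y (by constructor <;> linarith)).trans ?_
        gcongr
        exact le_max_right _ _
      · push Not at hcase
        have e : UN P μ b m w β L x - UN P μ b m w β L y = (Uf P μ b x - Uf P μ b y) +
            ((UN P μ b m w β L x - Uf P μ b x) - (UN P μ b m w β L y - Uf P μ b y)) := by ring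
        have hold := hS.lip x hx y hy
        have hdiff : ‖(UN P μ b m w β L x - Uf P μ b x) - (UN P μ b m w β L y - Uf P μ b y)‖ ≤
            δ * |x - y| ^ α := by
          by_cases hfar : r < |x - y|
          · refine (norm_sub_le _ _).trans ?_
            have := hsup x
            have := hsup y
            calc _ ≤ 2 * η := by linarith
              _ ≤ δ * r ^ α := hηr
              _ ≤ δ * |x - y| ^ α := by gcongr
          · push Not at hfar
            have hyx : |x - y| = y - x := by rw [abs_of_nonpos (by linarith)]; ring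
            rw [hyx] at hfar
            have hzr : ∀ z ∈ Set.Icc x y, ∀ p ∈ P, r ≤ |z - p| := by
              intro z hz p hp
              have hxr : r ≤ |x - p| := by
                by_contra hcon
                push Not at hcon
                have h9 := hcase p hp (by linarith)
                have h10 := abs_sub_le y x p
                rw [abs_sub_comm y x, hyx] at h10
                linarith
              have hyr : r ≤ |y - p| := by
                by_contra hcon
                push Not at hcon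
                have h10 := abs_sub_le x y p
                rw [hyx] at h10
                have h9 := hcase p hp (by linarith)
                linarith
              rcases le_or_gt p x with hpx | hpx
              · rw [abs_of_nonneg (by linarith)] at hxr
                rw [abs_of_nonneg (by linarith [hz.1])]
                linarith [hz.1]
              · rcases le_or_gt y p with hpy | hpy
                · rw [abs_of_nonpos (by linarith)] at hyr
                  rw [abs_of_nonpos (by linarith [hz.2])]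
                  linarith [hz.2]
                · rw [abs_of_nonpos (by linarith)] at hxr
                  rw [abs_of_nonneg (by linarith)] at hyr
                  linarith
            have hder : ∀ z ∈ Set.Icc x y, ∃ d : ℂ,
                HasDerivAt (fun z => UN P μ b m w β L z - Uf P μ b z) d (z:ℂ) ∧ ‖d‖ ≤ δ := by
              intro z hz
              have hz5 : |z| ≤ 5 := by
                rw [abs_le]
                constructor <;> linarith [hz.1, hz.2, hx.1, hy.2]
              obtain ⟨d, hd1, hd2⟩ := h.ddiff_far (ρ := r) (by linarith) (hzr z hz) (hBb z hz5).2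
              refine ⟨d, hd1, hd2.trans (le_trans (le_of_eq ?_) h6)⟩
              rw [← hN]
              ring
            choose! d hd1 hd2 using hder
            have h9 := lin_of_hasDeriv hd1 hd2 x (Set.left_mem_Icc.2 hxy) y
              (Set.right_mem_Icc.2 hxy)
            refine h9.trans ?_
            have h10 : |x - y| ≤ |x - y| ^ α := by
              rw [hyx]
              have h11 := lin_split (α := α) (ℓ := 1) hα1.le hα (by linarith : 0 ≤ y - x)
                (by linarith)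
              simpa using h11
            gcongr
        rw [e]
        refine (norm_add_le _ _).trans ?_
        have h9 : (Λ + δ) * |x - y| ^ α ≤ max (Λ + δ) 1 * |x - y| ^ α := by
          gcongr
          exact le_max_left _ _
        simp only at hold
        linarith
    intro x hx y hy
    rcases le_total x y with hxy | hxy
    · exact hmain x hx y hy hxy
    · rw [norm_sub_rev, abs_sub_comm]
      exact hmain y hy x hx hxy

end Pool.Agent.E8helper79.PS
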