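import Pool.Agent.E8helper79.PS.Step5

/-!
# One replacement step, with the scale chosen
-/

set_option autoImplicit false

open Complex Finset Filter Topology

namespace Pool.Agent.E8helper79.PS

theorem step {α : ℝ} (hα : 0 < α) (hα1 : α < 1) {P : Finset ℝ} {μ : ℝ} {b : ℂ → ℂ}
    {c C Λ : ℝ} (hS : IsStage α P μ b c C Λ) (hc1 : c ≤ 1) (hΛ : 0 ≤ Λ) {κ ω t δ : ℝ}
    (hκ : 0 < κ) (hκ1 : κ ≤ 1) (hω : 0 < ω) (hω1 : ω ≤ 1) (ht : 0 < t)
    (hT : (4 / (κ / 480000)) ^ (1 - α) * (8 * (6 * (Kω ω / κ ^ 2))) ^ α * t ≤ 2 / 3)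
    (hδ : 0 < δ) :
    ∃ (P' : Finset ℝ) (μ' : ℝ) (b' : ℂ → ℂ) (L s : ℝ),
      IsStage α P' μ' b' (c + δ) (C + δ) (max (Λ + δ) 1) ∧ P ⊆ P' ∧
      (∀ x : ℝ, ‖Uf P' μ' b' x - Uf P μ b x‖ ≤ δ) ∧ 0 < s ∧ s ≤ δ ∧ 0 < L ∧ L ≤ δ ∧
      (∀ p ∈ P, ∀ q ∈ P, p ≠ q → 2 * L < |p - q|) ∧
      (∀ p ∈ P, ∀ x : ℝ, |x - p| ≤ L → ∃ p' ∈ P', |x - p'| ≤ s) ∧
      (1 - ω - κ ^ 2) * (P.card * μ) ≤ P'.card * μ' ∧
      1 / 3 * t * (P.card * μ) ≤ P.card * (2 * L) * s ^ (-α) := by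
  have hμ := hS.hμ
  obtain ⟨m0, hm0⟩ := cluster hκ hκ1 hω hω1
  have hcl : ∀ m : ℕ, ∃ (w : ℝ) (β : ℂ → ℂ), m0 ≤ m → 1 ≤ m ∧
      0 < w ∧ 1 - ω - κ ^ 2 ≤ w * (2 * m + 1) ∧ w * (2 * m + 1) ≤ 1 ∧ 1 / 6 ≤ w * m ∧ w * m ≤ 1 / 2 ∧
      (∀ z : ℂ, 0 ≤ z.im → AnalyticAt ℂ β z) ∧ (∀ z : ℂ, 0 ≤ z.im → (β z).im ≤ 0) ∧
      (∀ z : ℂ, 50 ≤ ‖z‖ → AnalyticAt ℂ β z) ∧
      (∀ z : ℂ, 50 ≤ ‖z‖ → AnalyticAt ℂ (HH m w β) z) ∧
      (∀ z : ℂ, 50 ≤ ‖z‖ → ‖HH m w β z - 1 / z‖ ≤ 16 / ‖z‖ ^ 2) ∧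
      (∀ x : ℝ, |x| ≤ 100 → (∀ j : ℤ, |j| ≤ (m:ℤ) → x ≠ j / m) →
        κ / 480000 ≤ ‖HH m w β x‖ ∧
        ‖deriv (HH m w β) x‖ ≤ 6 * m * (Kω ω / κ ^ 2) * ‖HH m w β x‖ ^ 2) := by
    intro m
    by_cases hm : m0 ≤ m
    · obtain ⟨h1, w, β, h⟩ := hm0 m hm
      exact ⟨w, β, fun _ => ⟨h1, h⟩⟩
    · exact ⟨0, 0, fun h => absurd h hm⟩
  choose w β hwβ using hcl
  set q : ℝ := 1 / (1 - α) with hq
  have hα' : 0 < 1 - α := by linarith
  have hq1 : 1 < q := by rw [hq, lt_div_iff₀ hα']; linarith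
  have hqα : q * (1 - α) = 1 := by rw [hq]; field_simp
  set s : ℕ → ℝ := fun m => (t * μ * w m) ^ q with hs
  set L : ℕ → ℝ := fun m => m * s m with hL
  have hs0 : ∀ m, m0 ≤ m → 0 < s m := by
    intro m hm
    have h := hwβ m hm
    have : 0 < w m := h.2.1
    exact Real.rpow_pos_of_pos (by positivity) _
  have hL0 : ∀ m, m0 ≤ m → 0 < L m := by
    intro m hm
    have h1 : (0:ℝ) < m := by exact_mod_cast (hwβ m hm).1
    exact mul_pos h1 (hs0 m hm)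
  have hLle : ∀ m, m0 ≤ m → L m ≤ (t * μ / 2) ^ q * (m:ℝ) ^ (-(q - 1)) := by
    intro m hm
    have h := hwβ m hm
    have h1 : (0:ℝ) < m := by exact_mod_cast h.1
    have hw0 : 0 < w m := h.2.1
    have hwm : w m * m ≤ 1 / 2 := h.2.2.2.2.2.1
    have h2 : t * μ * w m ≤ t * μ / 2 * (m:ℝ)⁻¹ := by
      have : w m ≤ 1 / 2 * (m:ℝ)⁻¹ := by
        rw [← div_eq_mul_inv, le_div_iff₀ h1]; exact hwm
      calc t * μ * w m ≤ t * μ * (1 / 2 * (m:ℝ)⁻¹) := by gcongr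
        _ = _ := by ring
    have h3 : s m ≤ (t * μ / 2 * (m:ℝ)⁻¹) ^ q := by
      simp only [hs]
      gcongr
    calc L m = m * s m := rfl
      _ ≤ m * (t * μ / 2 * (m:ℝ)⁻¹) ^ q := by gcongr
      _ = (t * μ / 2) ^ q * (m * (m:ℝ) ^ (-q)) := by
          rw [Real.mul_rpow (by positivity) (by positivity), Real.inv_rpow h1.le,
            ← Real.rpow_neg h1.le]
          ring
      _ = (t * μ / 2) ^ q * (m:ℝ) ^ (-(q - 1)) := by
          have : (m:ℝ) * (m:ℝ) ^ (-q) = (m:ℝ) ^ (-(q - 1)) := by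
            rw [neg_sub, sub_eq_add_neg, Real.rpow_add h1, Real.rpow_one]
          rw [this]
  have hLt : Tendsto L atTop (𝓝[>] 0) := by
    rw [tendsto_nhdsWithin_iff]
    constructor
    · have h1 : Tendsto (fun m : ℕ => (t * μ / 2) ^ q * (m:ℝ) ^ (-(q - 1))) atTop (𝓝 0) := by
        have h2 := (tendsto_rpow_neg_atTop (by linarith : 0 < q - 1)).comp
          tendsto_natCast_atTop_atTop
        have h3 := h2.const_mul ((t * μ / 2) ^ q)
        rw [mul_zero] at h3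
        exact h3
      apply squeeze_zero' _ _ h1
      · filter_upwards [eventually_ge_atTop m0] with m hm
        exact (hL0 m hm).le
      · filter_upwards [eventually_ge_atTop m0] with m hm
        exact hLle m hm
    · filter_upwards [eventually_ge_atTop m0] with m hm
      exact hL0 m hm
  have hKω : 0 < Kω ω := by
    unfold Kω Dω
    positivity
  have hsoft := step_soft hα hα1 hS hc1 hΛ (κ1 := κ / 480000) (K1 := 6 * (Kω ω / κ ^ 2)) (t := t)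
    (δ := δ) (by positivity) (by positivity) ht.le hT hδ
  obtain ⟨m, ⟨⟨hm1, hm2⟩, hm3⟩⟩ := (((hLt.eventually hsoft).and (hLt.eventually (ev_lin 1 hδ))).and
    (eventually_ge_atTop m0)).exists
  obtain ⟨hm, hw0, hwlow, -, hw6, hw2, han, him, hfan, hfanH, hfar, hreal⟩ := hwβ m hm3
  have hmr : (0:ℝ) < m := by exact_mod_cast hm
  have hmr1 : (1:ℝ) ≤ m := by exact_mod_cast hm
  have hcl : Clus m (w m) (β m) (κ / 480000) (6 * (Kω ω / κ ^ 2)) := by
    refine ⟨hm, hw0, hw2, han, him, hfan, hfanH, hfar, fun x h1 h2 => (hreal x h1 h2).1,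
      fun x h1 h2 => ?_⟩
    refine (hreal x h1 h2).2.trans (le_of_eq (by ring))
  have hLm : L m / m = s m := by
    simp only [hL]; field_simp
  have hs1 : s m ^ (1 - α) = t * μ * w m := by
    simp only [hs]
    rw [← Real.rpow_mul (by positivity), hqα, Real.rpow_one]
  obtain ⟨hst, hdiff, hsep⟩ := hm1 m (w m) (β m) hcl (by rw [hLm, hs1])
  have hsm := hs0 m hm3
  have hLm0 := hL0 m hm3
  have hsL : s m ≤ L m := by
    simp only [hL]
    exact le_mul_of_one_le_left hsm.le hmr1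
  refine ⟨newP P m (L m), μ * w m, newb P μ b (L m) (β m), L m, s m, hst, subset_newP, hdiff,
    hsm, by linarith, hLm0, by linarith, hsep, ?_, ?_, ?_⟩
  · intro p hp x hx
    have hy : |(x - p) / s m| ≤ m := by
      rw [abs_div, abs_of_pos hsm, div_le_iff₀ hsm]
      exact hx
    rw [abs_le] at hy
    refine ⟨p + L m * ⌊(x - p) / s m⌋ / m, ?_, ?_⟩
    · rw [mem_newP]
      refine ⟨p, hp, ⌊(x - p) / s m⌋, ?_, rfl⟩
      rw [abs_le]
      constructor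
      · apply Int.le_floor.2
        push_cast
        exact hy.1
      · have := (Int.floor_le ((x - p) / s m)).trans hy.2
        exact_mod_cast this
    · have e : x - (p + L m * ⌊(x - p) / s m⌋ / m) =
          s m * ((x - p) / s m - ⌊(x - p) / s m⌋) := by
        have : L m * (⌊(x - p) / s m⌋ : ℝ) / m = s m * ⌊(x - p) / s m⌋ := by
          simp only [hL]; field_simp
        rw [this]
        field_simp
        ring
      rw [e, abs_mul, abs_of_pos hsm]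
      have h1 := Int.self_sub_floor ((x - p) / s m)
      have h2 := Int.fract_nonneg ((x - p) / s m)
      have h3 := (Int.fract_lt_one ((x - p) / s m)).le
      rw [h1, abs_of_nonneg h2]
      exact mul_le_of_le_one_right hsm.le h3
  · rw [newP_card hm hLm0 hsep]
    have : (0:ℝ) ≤ P.card * μ := by positivity
    calc (1 - ω - κ ^ 2) * (P.card * μ) ≤ (w m * (2 * m + 1)) * (P.card * μ) := by gcongr
      _ = _ := by ring
  · have h1 : L m * s m ^ (-α) = m * (t * μ * w m) := by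
      rw [← hs1]
      simp only [hL]
      rw [mul_assoc]
      congr 1
      rw [sub_eq_add_neg, Real.rpow_add hsm, Real.rpow_one]
    have h2 : P.card * (2 * L m) * s m ^ (-α) = 2 * (w m * m) * t * (P.card * μ) := by
      calc P.card * (2 * L m) * s m ^ (-α) = P.card * 2 * (L m * s m ^ (-α)) := by ring
        _ = _ := by rw [h1]; ring
    rw [h2]
    have h3 : (1:ℝ) / 3 ≤ 2 * (w m * m) := by linarith
    gcongr

end Pool.Agent.E8helper79.PS
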