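import Mathlib

/-!
# Decay of flat Gevrey functions
-/

set_option autoImplicit false

open Complex Filter Topology Metric Set

namespace Pool.Agent.E8helper79.PS

lemma iteratedDeriv_diffOn {f : ℂ → ℂ} (hf : DifferentiableOn ℂ f (ball 0 1)) (n : ℕ) :
    DifferentiableOn ℂ (iteratedDeriv n f) (ball 0 1) := by
  induction n with
  | zero => simpa using hf
  | succ n ih =>
    rw [iteratedDeriv_succ]
    exact ih.deriv isOpen_ball

/-- the segment from a boundary point to an interior point -/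
lemma seg_mem {e z : ℂ} (he : ‖e‖ = 1) (hz : ‖z‖ < 1) {s : ℝ} (hs : 0 < s) (hs1 : s ≤ 1) :
    e + s * (z - e) ∈ ball (0:ℂ) 1 := by
  rw [mem_ball, dist_zero_right]
  have e1 : e + s * (z - e) = ((1 - s : ℝ) : ℂ) * e + (s:ℂ) * z := by push_cast; ring
  rw [e1]
  refine (norm_add_le _ _).trans_lt ?_
  rw [norm_mul, norm_mul, norm_real, norm_real, Real.norm_eq_abs, Real.norm_eq_abs,
    abs_of_nonneg (by linarith), abs_of_pos hs, he]
  nlinarith

lemma seg_tendsto (e z : ℂ) (he : ‖e‖ = 1) (hz : ‖z‖ < 1) :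
    Tendsto (fun s : ℝ => e + s * (z - e)) (𝓝[Ioc 0 1] 0) (𝓝[ball 0 1] e) := by
  rw [tendsto_nhdsWithin_iff]
  constructor
  · have h : Continuous (fun s : ℝ => e + s * (z - e)) := by fun_prop
    have h2 := h.tendsto 0
    simp only [ofReal_zero, zero_mul, add_zero] at h2
    exact h2.mono_left nhdsWithin_le_nhds
  · filter_upwards [self_mem_nhdsWithin] with s hs
    exact seg_mem he hz hs.1 hs.2

/-- Taylor bound at a flat point -/
lemma taylor_bound {f : ℂ → ℂ} (hf : DifferentiableOn ℂ f (ball 0 1)) {e z : ℂ} (he : ‖e‖ = 1)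
    (hz : ‖z‖ < 1) (hflat : ∀ n, Tendsto (iteratedDeriv n f) (𝓝[ball 0 1] e) (𝓝 0)) {n : ℕ} {M : ℝ}
    (hM : ∀ y ∈ ball (0:ℂ) 1, ‖iteratedDeriv n f y‖ ≤ M) (j : ℕ) (hj : j ≤ n) :
    ∀ s : ℝ, 0 < s → s ≤ 1 → ‖iteratedDeriv (n - j) f (e + s * (z - e))‖ ≤
      M * (‖z - e‖ ^ j * s ^ j) / j.factorial := by
  induction j with
  | zero =>
    intro s hs hs1
    simpa using hM _ (seg_mem he hz hs hs1)
  | succ j ih =>
    intro s hs hs1
    have ih' := ih (by omega)
    have hidx : n - j = (n - (j + 1)) + 1 := by omega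
    set k := n - (j + 1) with hk
    set d := ‖z - e‖ with hd
    set g : ℝ → ℂ := fun r => iteratedDeriv k f (e + r * (z - e)) with hg
    have hgd : ∀ r : ℝ, 0 < r → r ≤ 1 →
        HasDerivAt g (iteratedDeriv (n - j) f (e + r * (z - e)) * (z - e)) r := by
      intro r hr hr1
      have hmem := seg_mem he hz hr hr1
      have h1 : HasDerivAt (iteratedDeriv k f) (iteratedDeriv (n - j) f (e + r * (z - e)))
          (e + r * (z - e)) := by
        rw [hidx, iteratedDeriv_succ]
        exact ((iteratedDeriv_diffOn hf k).differentiableAt (isOpen_ball.mem_nhds hmem)).hasDerivAt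
      have h2 : HasDerivAt (fun r : ℝ => e + (r:ℂ) * (z - e)) (z - e) r := by
        have h3 : HasDerivAt (fun r : ℝ => (r:ℂ)) 1 r := hasDerivAt_id r |>.ofReal_comp
        have h4 := (h3.mul_const (z - e)).const_add e
        simpa using h4
      exact h1.comp r h2
    have hgt : Tendsto (fun r => ‖g r‖) (𝓝[Ioc 0 1] 0) (𝓝 0) := by
      have h1 := (hflat k).comp (seg_tendsto e z he hz)
      have h2 := h1.norm
      rw [norm_zero] at h2
      exact h2
    have hmain : ∀ ε : ℝ, 0 < ε → ε ≤ s → ‖g s‖ ≤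
        M * (d ^ (j + 1) * s ^ (j + 1)) / (j + 1).factorial + ‖g ε‖ := by
      intro ε hε hεs
      have h := image_norm_le_of_norm_deriv_right_le_deriv_boundary (f := g)
        (f' := fun r => iteratedDeriv (n - j) f (e + r * (z - e)) * (z - e)) (a := ε) (b := s)
        (B := fun r => M * (d ^ (j + 1) * r ^ (j + 1)) / (j + 1).factorial + ‖g ε‖)
        (B' := fun r => M * (d ^ (j + 1) * r ^ j) / j.factorial)
        (fun r hr => (hgd r (by linarith [hr.1]) (by linarith [hr.2])).continuousAt.continuousWithinAt)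
        (fun r hr => (hgd r (by linarith [hr.1]) (by linarith [hr.2])).hasDerivWithinAt)
        (by
          have hM0 : 0 ≤ M := (norm_nonneg _).trans (hM _ (seg_mem he hz hs hs1))
          have : 0 ≤ M * (d ^ (j + 1) * ε ^ (j + 1)) / (j + 1).factorial := by positivity
          linarith)
        (by
          intro r
          have h1 : HasDerivAt (fun r : ℝ => r ^ (j + 1)) (((j + 1 : ℕ) : ℝ) * r ^ j) r := by
            have := hasDerivAt_pow (j + 1) r
            simpa using this
          have h2 := (((h1.const_mul (d ^ (j + 1))).const_mul M).div_const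
            ((j + 1).factorial : ℝ)).add_const (‖g ε‖)
          refine h2.congr_deriv ?_
          rw [Nat.factorial_succ]
          push_cast
          have : (j.factorial : ℝ) ≠ 0 := by positivity
          field_simp)
        (by
          intro r hr
          rw [norm_mul]
          have h1 := ih' r (by linarith [hr.1]) (by linarith [hr.2])
          calc ‖iteratedDeriv (n - j) f (e + r * (z - e))‖ * ‖z - e‖ ≤
                (M * (d ^ j * r ^ j) / j.factorial) * d := by gcongr
            _ = M * (d ^ (j + 1) * r ^ j) / j.factorial := by ring)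
      exact h (right_mem_Icc.2 hεs)
    have hlim : Tendsto (fun ε => M * (d ^ (j + 1) * s ^ (j + 1)) / (j + 1).factorial + ‖g ε‖)
        (𝓝[Ioc 0 1] 0) (𝓝 (M * (d ^ (j + 1) * s ^ (j + 1)) / (j + 1).factorial + 0)) :=
      tendsto_const_nhds.add hgt
    rw [add_zero] at hlim
    have : (𝓝[Ioc (0:ℝ) 1] 0).NeBot := by
      rw [← mem_closure_iff_nhdsWithin_neBot, closure_Ioc (by norm_num)]
      simp
    refine ge_of_tendsto hlim ?_
    have h1 : ∀ᶠ ε in 𝓝[Ioc (0:ℝ) 1] 0, ε < s := by
      apply nhdsWithin_le_nhds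
      exact gt_mem_nhds hs
    filter_upwards [h1, self_mem_nhdsWithin] with ε h2 h3
    exact hmain ε h3.1 h2.le

/-- exponential decay near a flat point -/
lemma flat_decay {α C : ℝ} (hα : 0 < α) (hC : 0 < C) {f : ℂ → ℂ}
    (hf : DifferentiableOn ℂ f (ball 0 1))
    (hG : ∀ n : ℕ, ∀ z ∈ ball (0:ℂ) 1, ‖iteratedDeriv n f z‖ ≤
      C ^ (n + 1) * (n.factorial : ℝ) ^ (1 + 1 / α)) {e z : ℂ} (he : ‖e‖ = 1) (hz : ‖z‖ < 1)
    (hflat : ∀ n, Tendsto (iteratedDeriv n f) (𝓝[ball 0 1] e) (𝓝 0)) :
    ‖f z‖ ≤ C * Real.exp (1 - (Real.exp 1 * C * ‖z - e‖) ^ (-α)) := by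
  set d := ‖z - e‖ with hd
  have hd0 : 0 < d := by
    rw [hd, norm_pos_iff, sub_ne_zero]
    rintro rfl
    linarith
  have hn : ∀ n : ℕ, ‖f z‖ ≤ C * (C * d) ^ n * (n.factorial : ℝ) ^ (1 / α) := by
    intro n
    have h := taylor_bound hf he hz hflat (hG n) n le_rfl 1 one_pos le_rfl
    simp only [Nat.sub_self, iteratedDeriv_zero, ofReal_one, one_mul, add_sub_cancel, one_pow,
      mul_one] at h
    refine h.trans (le_of_eq ?_)
    have hfac : (0:ℝ) < n.factorial := by positivity
    rw [Real.rpow_add hfac, Real.rpow_one, ← hd]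
    field_simp
    ring
  set x : ℝ := (Real.exp 1 * C * d) ^ (-α) with hx
  have hpos : 0 < Real.exp 1 * C * d := by positivity
  have hx0 : 0 < x := Real.rpow_pos_of_pos hpos _
  set n : ℕ := ⌊x⌋₊ with hnx
  have hnle : (n:ℝ) ≤ x := Nat.floor_le hx0.le
  have hnge : x < n + 1 := Nat.lt_floor_add_one x
  have h1 : (n.factorial : ℝ) ^ (1 / α) ≤ ((Real.exp 1 * C * d)⁻¹) ^ n := by
    have h2 : (n.factorial : ℝ) ≤ (n:ℝ) ^ n := by exact_mod_cast Nat.factorial_le_pow n
    calc (n.factorial : ℝ) ^ (1 / α) ≤ ((n:ℝ) ^ n) ^ (1 / α) := by gcongr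
      _ = ((n:ℝ) ^ (1 / α)) ^ n := by
          rw [← Real.rpow_natCast, ← Real.rpow_mul (by positivity), ← Real.rpow_natCast,
            ← Real.rpow_mul (by positivity)]
          congr 1
          ring
      _ ≤ (x ^ (1 / α)) ^ n := by gcongr
      _ = ((Real.exp 1 * C * d)⁻¹) ^ n := by
          rw [hx, ← Real.rpow_mul hpos.le]
          have : -α * (1 / α) = -1 := by field_simp
          rw [this, Real.rpow_neg_one]
  have h3 : ‖f z‖ ≤ C * Real.exp (-(n:ℝ)) := by
    calc ‖f z‖ ≤ C * (C * d) ^ n * (n.factorial : ℝ) ^ (1 / α) := hn n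
      _ ≤ C * (C * d) ^ n * ((Real.exp 1 * C * d)⁻¹) ^ n := by gcongr
      _ = C * Real.exp (-(n:ℝ)) := by
          rw [mul_assoc, ← mul_pow]
          congr 1
          have h4 : C * d * (Real.exp 1 * C * d)⁻¹ = Real.exp (-1) := by
            rw [Real.exp_neg]
            field_simp
          rw [h4, ← Real.exp_nat_mul]
          congr 1
          ring
  refine h3.trans ?_
  gcongr
  linarith

end Pool.Agent.E8helper79.PS
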