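import Pool.Agent.E8helper79.PS.Zero1
import Pool.Agent.E8helper79.PS.Diverge

/-!
# Jensen's inequality and the distance integral
-/

set_option autoImplicit false

open Complex Filter Topology Metric Set MeasureTheory Real MeromorphicOn

namespace Pool.Agent.E8helper79.PS

/-- lower bound for the circle averages of `log ‖f‖` -/
lemma jensen_lower {f : ℂ → ℂ} (hf : DifferentiableOn ℂ f (ball 0 1)) :
    ∃ K1 : ℝ, ∀ r : ℝ, 1 / 2 ≤ r → r < 1 → -K1 ≤ circleAverage (Real.log ‖f ·‖) 0 r := by
  set N0 : ℝ := ((((analyticOrderAt f 0).map (fun n : ℕ => (n : ℤ))).untop₀ : ℤ) : ℝ) with hN0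
  refine ⟨|N0| * Real.log 2 + |Real.log ‖meromorphicTrailingCoeffAt f 0‖|, fun r hr hr1 => ?_⟩
  have hr0 : 0 < r := by linarith
  have hrabs : |r| = r := abs_of_pos hr0
  have han : AnalyticOnNhd ℂ f (closedBall 0 |r|) := by
    intro z hz
    have hzb : z ∈ ball (0:ℂ) 1 := by
      rw [hrabs] at hz
      exact closedBall_subset_ball hr1 hz
    exact hf.analyticAt (isOpen_ball.mem_nhds hzb)
  rw [han.meromorphicOn.circleAverage_log_norm hr0.ne']
  have h1 : 0 ≤ ∑ᶠ u, divisor f (closedBall 0 |r|) u * Real.log (r * ‖(0:ℂ) - u‖⁻¹) := by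
    apply finsum_nonneg
    intro u
    by_cases hu : u ∈ closedBall (0:ℂ) |r|
    · apply mul_nonneg
      · exact_mod_cast han.divisor_nonneg u
      · by_cases hu0 : u = 0
        · rw [hu0]; simp
        · apply Real.log_nonneg
          rw [mem_closedBall, dist_zero_right, hrabs] at hu
          rw [zero_sub, norm_neg]
          have hpos : 0 < ‖u‖ := norm_pos_iff.2 hu0
          rw [← div_eq_mul_inv, le_div_iff₀ hpos]
          linarith
    · have : divisor f (closedBall 0 |r|) u = 0 := by simp [hu]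
      rw [this]; simp
  have h2 : ((divisor f (closedBall 0 |r|) 0 : ℤ) : ℝ) = N0 := by
    rw [han.divisor_apply (by simp)]
  rw [h2]
  have h3 : -(|N0| * Real.log 2) ≤ N0 * Real.log r := by
    have h4 : |Real.log r| ≤ Real.log 2 := by
      rw [abs_le]
      constructor
      · rw [← Real.log_inv]
        apply Real.log_le_log (by norm_num)
        linarith
      · have := Real.log_nonpos hr0.le hr1.le
        have := Real.log_pos (by norm_num : (1:ℝ) < 2)
        linarith
    have h5 := neg_abs_le (N0 * Real.log r)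
    rw [abs_mul] at h5
    have h6 : |N0| * |Real.log r| ≤ |N0| * Real.log 2 := by gcongr
    linarith
  have h4 := neg_abs_le (Real.log ‖meromorphicTrailingCoeffAt f 0‖)
  linarith

/-- comparison of a majorant with the circle average -/
lemma avg_le {f : ℂ → ℂ} (hf : DifferentiableOn ℂ f (ball 0 1)) (hne : ∃ z ∈ ball (0:ℂ) 1, f z ≠ 0)
    {G : ℂ → ℝ} {r : ℝ} (hr : 1 / 2 ≤ r) (hr1 : r < 1) (hG : CircleIntegrable G 0 r)
    (h : ∀ z : ℂ, ‖z‖ = r → f z ≠ 0 → Real.log ‖f z‖ ≤ G z) :
    circleAverage (Real.log ‖f ·‖) 0 r ≤ circleAverage G 0 r := by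
  have hr0 : 0 < r := by linarith
  have hrabs : |r| = r := abs_of_pos hr0
  have hanb : AnalyticOnNhd ℂ f (ball 0 1) := fun z hz => hf.analyticAt (isOpen_ball.mem_nhds hz)
  have hsub : sphere (0:ℂ) |r| ⊆ ball 0 1 := by
    rw [hrabs]
    exact sphere_subset_closedBall.trans (closedBall_subset_ball hr1)
  have hmer : MeromorphicOn f (sphere 0 |r|) := (hanb.mono hsub).meromorphicOn
  have hint : CircleIntegrable (Real.log ‖f ·‖) 0 r := hmer.circleIntegrable_log_norm
  obtain ⟨z0, hz0, hfz0⟩ := hne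
  have hcod : f ⁻¹' {0}ᶜ ∈ codiscreteWithin (ball (0:ℂ) 1) :=
    hanb.preimage_zero_mem_codiscreteWithin hfz0 hz0
      ⟨⟨z0, hz0⟩, (convex_ball (0:ℂ) 1).isPreconnected⟩
  have hcod' : f ⁻¹' {0}ᶜ ∈ codiscreteWithin (sphere (0:ℂ) |r|) :=
    codiscreteWithin_mono hsub hcod
  classical
  set F : ℂ → ℝ := fun z => if f z = 0 then G z else Real.log ‖f z‖ with hF
  have heq : (fun z => Real.log ‖f z‖) =ᶠ[codiscreteWithin (sphere (0:ℂ) |r|)] F := by
    filter_upwards [hcod'] with z hz
    have : f z ≠ 0 := hz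
    simp [hF, this]
  rw [circleAverage_congr_codiscreteWithin heq hr0.ne']
  apply circleAverage_mono (CircleIntegrable.congr_codiscreteWithin heq hint) hG
  intro z hz
  rw [mem_sphere_zero_iff_norm, hrabs] at hz
  simp only [hF]
  split_ifs with h0
  · exact le_rfl
  · exact h z hz h0

lemma exp_arctan (x : ℝ) : Complex.exp (((2 * Real.arctan x : ℝ) : ℂ) * I) = cay x := by
  have h1 : Complex.exp (((2 * Real.arctan x : ℝ) : ℂ) * I) =
      (Complex.exp ((Real.arctan x : ℂ) * I)) ^ 2 := by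
    rw [← Complex.exp_nat_mul]
    congr 1
    push_cast
    ring
  rw [h1, Complex.exp_mul_I, ← Complex.ofReal_cos, ← Complex.ofReal_sin, Real.cos_arctan,
    Real.sin_arctan]
  have hpos : 0 < 1 + x ^ 2 := by positivity
  have hs : (Real.sqrt (1 + x ^ 2)) ^ 2 = 1 + x ^ 2 := Real.sq_sqrt hpos.le
  have hs' : ((Real.sqrt (1 + x ^ 2) : ℝ) : ℂ) ^ 2 = 1 + (x:ℂ) ^ 2 := by
    rw [← Complex.ofReal_pow, hs]; push_cast; ring
  have hsne : ((Real.sqrt (1 + x ^ 2) : ℝ) : ℂ) ≠ 0 := by
    have : Real.sqrt (1 + x ^ 2) ≠ 0 := (Real.sqrt_pos.2 hpos).ne'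
    exact_mod_cast this
  have e1 : (((1 / Real.sqrt (1 + x ^ 2) : ℝ) : ℂ) + ((x / Real.sqrt (1 + x ^ 2) : ℝ) : ℂ) * I) ^ 2 =
      (1 + I * x) ^ 2 / (1 + (x:ℂ) ^ 2) := by
    rw [← hs']
    push_cast
    field_simp
  rw [e1]
  unfold cay
  have h2 : (1 + (x:ℂ) ^ 2) = (1 + I * x) * (1 - I * x) := by
    ring_nf
    rw [I_sq]
    ring
  have h3 : (1 + I * x : ℂ) ≠ 0 := by
    have h4 := norm_one_add_I x
    rw [← norm_pos_iff, h4, norm_pos_iff]
    exact one_sub_I_ne x
  have h4 := one_sub_I_ne x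
  rw [h2]
  field_simp

/-- the integral over the circle dominates the integral in the Cayley coordinate -/
lemma circle_integral_ge {Ψ : ℂ → ℝ} (hΨ : Continuous Ψ) (hpos : ∀ z, 0 ≤ Ψ z) :
    ∫ x in (-1:ℝ)..1, Ψ (cay x) ≤ ∫ θ in (0:ℝ)..(2 * π), Ψ (Complex.exp (θ * I)) := by
  set g : ℝ → ℝ := fun θ => Ψ (Complex.exp (θ * I)) with hg
  have hgc : Continuous g := by
    apply hΨ.comp
    fun_prop
  have hper : Function.Periodic g (2 * π) := by
    intro θ
    simp only [hg]
    congr 1
    push_cast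
    rw [add_mul, Complex.exp_add]
    have : Complex.exp (2 * (π:ℂ) * I) = 1 := Complex.exp_two_pi_mul_I
    rw [this, mul_one]
  have h1 : ∫ θ in (0:ℝ)..(2 * π), g θ = ∫ θ in (-π)..π, g θ := by
    have := hper.intervalIntegral_add_eq 0 (-π)
    rw [zero_add] at this
    rw [this]
    congr 1
    ring
  have hπ := Real.pi_pos
  have h2 : ∫ θ in (-(π / 2))..(π / 2), g θ ≤ ∫ θ in (-π)..π, g θ := by
    apply intervalIntegral.integral_mono_interval (by linarith) (by linarith) (by linarith)
    · exact Eventually.of_forall fun θ => hpos _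
    · exact hgc.intervalIntegrable _ _
  have h3 : ∫ x in (-1:ℝ)..1, (g ∘ fun x => 2 * Real.arctan x) x * (2 * (1 / (1 + x ^ 2))) =
      ∫ θ in (2 * Real.arctan (-1))..(2 * Real.arctan 1), g θ := by
    apply intervalIntegral.integral_comp_mul_deriv (f := fun x => 2 * Real.arctan x)
    · intro x _
      exact (Real.hasDerivAt_arctan x).const_mul 2
    · apply Continuous.continuousOn
      apply Continuous.mul continuous_const
      apply Continuous.div continuous_const (by fun_prop)
      intro x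
      positivity
    · exact hgc
  have h4 : 2 * Real.arctan (-1) = -(π / 2) := by
    rw [Real.arctan_neg, Real.arctan_one]; ring
  have h5 : 2 * Real.arctan 1 = π / 2 := by
    rw [Real.arctan_one]; ring
  rw [h4, h5] at h3
  rw [h1]
  refine le_trans ?_ h2
  rw [← h3]
  have hcay : Continuous (fun x : ℝ => Ψ (cay x)) := hΨ.comp continuous_cay
  apply intervalIntegral.integral_mono_on (by norm_num) (hcay.intervalIntegrable _ _)
  · apply Continuous.intervalIntegrable
    apply Continuous.mul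
    · exact hgc.comp (by fun_prop)
    · apply Continuous.mul continuous_const
      apply Continuous.div continuous_const (by fun_prop)
      intro x
      positivity
  · intro x hx
    simp only [Function.comp_apply, hg]
    rw [exp_arctan]
    have h6 : 1 ≤ 2 * (1 / (1 + x ^ 2)) := by
      rw [mul_one_div, le_div_iff₀ (by positivity)]
      nlinarith [hx.1, hx.2]
    nlinarith [hpos (cay x)]

end Pool.Agent.E8helper79.PS
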