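import Pool.Agent.E8helper79.PS.Zero2

/-!
# Sets with divergent distance integral are not zero sets
-/

set_option autoImplicit false

open Complex Filter Topology Metric Set MeasureTheory Real

namespace Pool.Agent.E8helper79.PS

theorem not_flat {α : ℝ} (hα : 0 < α) {E : Set ℂ} (hEc : IsClosed E)
    (hEs : E ⊆ sphere 0 1) (hEne : E.Nonempty)
    (hdiv : ∀ M : ℝ, ∃ h : ℝ, 0 < h ∧ h ≤ 1 / 2 ∧
      M ≤ ∫ x in (-1:ℝ)..1, (infDist (cay x) E + h) ^ (-α))
    {f : ℂ → ℂ} (hf : DifferentiableOn ℂ f (ball 0 1)) {C : ℝ}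
    (hG : ∀ n : ℕ, ∀ z ∈ ball (0:ℂ) 1, ‖iteratedDeriv n f z‖ ≤
      C ^ (n + 1) * (n.factorial : ℝ) ^ (1 + 1 / α))
    (hne : ∃ z ∈ ball (0:ℂ) 1, f z ≠ 0)
    (hflat : ∀ n, ∀ e ∈ E, Tendsto (iteratedDeriv n f) (𝓝[ball 0 1] e) (𝓝 0)) : False := by
  -- `C` is positive
  have hC : 0 < C := by
    obtain ⟨z, hz, hfz⟩ := hne
    have h := hG 0 z hz
    simp only [iteratedDeriv_zero, zero_add, pow_one, Nat.factorial_zero, Nat.cast_one,
      Real.one_rpow, mul_one] at h
    exact lt_of_lt_of_le (norm_pos_iff.2 hfz) h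
  obtain ⟨K1, hK1⟩ := jensen_lower hf
  set A : ℝ := (Real.exp 1 * C) ^ (-α) with hA
  have hA0 : 0 < A := Real.rpow_pos_of_pos (by positivity) _
  set M : ℝ := 2 * π * (Real.log C + 1 + K1) / A + 1 with hM
  obtain ⟨h, hh0, hh1, hhM⟩ := hdiv M
  set Ψ : ℂ → ℝ := fun z => (infDist z E + h) ^ (-α) with hΨ
  have hΨc : Continuous Ψ := by
    have h1 : Continuous (fun z : ℂ => infDist z E + h) :=
      (continuous_infDist_pt E).add continuous_const
    apply h1.rpow_const
    intro x
    left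
    have : 0 ≤ infDist x E := infDist_nonneg
    linarith
  have hΨ0 : ∀ z, 0 ≤ Ψ z := by
    intro z
    have : 0 ≤ infDist z E := infDist_nonneg
    exact Real.rpow_nonneg (by linarith) _
  set r : ℝ := 1 - h with hr
  have hr2 : 1 / 2 ≤ r := by linarith
  have hr1 : r < 1 := by linarith
  have hr0 : 0 < r := by linarith
  set G : ℂ → ℝ := fun z => Real.log C + 1 - A * Ψ (z / r) with hGdef
  have hGc : Continuous G := by
    have : Continuous (fun z : ℂ => z / (r:ℂ)) := by
      apply Continuous.div_const continuous_id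
    exact continuous_const.sub (continuous_const.mul (hΨc.comp this))
  have hGint : CircleIntegrable G 0 r := hGc.continuousOn.circleIntegrable hr0.le
  have hpt : ∀ z : ℂ, ‖z‖ = r → f z ≠ 0 → Real.log ‖f z‖ ≤ G z := by
    intro z hz hfz
    have hzr : ‖z / (r:ℂ)‖ = 1 := by
      rw [norm_div, norm_real, Real.norm_eq_abs, abs_of_pos hr0, hz, div_self hr0.ne']
    obtain ⟨e, heE, hed⟩ := hEc.exists_infDist_eq_dist hEne (z / (r:ℂ))
    have he1 : ‖e‖ = 1 := by
      have := hEs heE
      rwa [mem_sphere_zero_iff_norm] at this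
    have hflat' := flat_decay hα hC hf hG he1 (by rw [hz]; exact hr1) (fun n => hflat n e heE)
    have hze : ‖z - e‖ ≤ infDist (z / r) E + h := by
      have h1 : z - e = (z - z / r) + (z / r - e) := by ring
      rw [h1]
      refine (norm_add_le _ _).trans ?_
      have h2 : ‖z - z / (r:ℂ)‖ = h := by
        have hrne : (r:ℂ) ≠ 0 := by exact_mod_cast hr0.ne'
        have h3 : z - z / (r:ℂ) = -((h:ℝ):ℂ) * (z / r) := by
          have h4 : (h:ℂ) = 1 - r := by rw [hr]; push_cast; ring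
          rw [h4]
          field_simp
          ring
        rw [h3, norm_mul, hzr, mul_one, norm_neg, norm_real, Real.norm_eq_abs, abs_of_pos hh0]
      rw [h2, hed, dist_eq_norm]
      linarith
    have hze0 : 0 < ‖z - e‖ := by
      rw [norm_pos_iff, sub_ne_zero]
      rintro rfl
      linarith
    have hmono : A * Ψ (z / r) ≤ (Real.exp 1 * C * ‖z - e‖) ^ (-α) := by
      rw [Real.mul_rpow (by positivity) (norm_nonneg _), ← hA]
      apply mul_le_mul_of_nonneg_left _ hA0.le
      exact Real.rpow_le_rpow_of_nonpos hze0 hze (by linarith)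
    have hlog : Real.log ‖f z‖ ≤
        Real.log (C * Real.exp (1 - (Real.exp 1 * C * ‖z - e‖) ^ (-α))) :=
      Real.log_le_log (norm_pos_iff.2 hfz) hflat'
    rw [Real.log_mul hC.ne' (Real.exp_pos _).ne', Real.log_exp] at hlog
    simp only [hGdef]
    linarith
  have h1 := hK1 r hr2 hr1
  have h2 := avg_le hf hne hr2 hr1 hGint hpt
  have h3 : circleAverage G 0 r = (2 * π)⁻¹ *
      (2 * π * (Real.log C + 1) - A * ∫ θ in (0:ℝ)..(2 * π), Ψ (Complex.exp (θ * I))) := by
    unfold circleAverage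
    rw [smul_eq_mul]
    congr 1
    have h4 : ∀ θ : ℝ, G (circleMap 0 r θ) =
        (Real.log C + 1) - A * Ψ (Complex.exp (θ * I)) := by
      intro θ
      simp only [hGdef]
      congr 3
      rw [circleMap_zero]
      have hrne : (r:ℂ) ≠ 0 := by exact_mod_cast hr0.ne'
      field_simp
    simp only [h4]
    have hc : Continuous (fun θ : ℝ => Ψ (Complex.exp (θ * I))) := by
      apply hΨc.comp
      fun_prop
    rw [intervalIntegral.integral_sub (by simp) ((hc.const_mul A).intervalIntegrable _ _),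
      intervalIntegral.integral_const, intervalIntegral.integral_const_mul]
    simp
  have h4 := circle_integral_ge hΨc hΨ0
  have hint : ∫ x in (-1:ℝ)..1, Ψ (cay x) = ∫ x in (-1:ℝ)..1, (infDist (cay x) E + h) ^ (-α) := rfl
  rw [hint] at h4
  have h5 : M ≤ ∫ θ in (0:ℝ)..(2 * π), Ψ (Complex.exp (θ * I)) := hhM.trans h4
  have hπ := Real.pi_pos
  have h6 : -K1 ≤ (2 * π)⁻¹ *
      (2 * π * (Real.log C + 1) - A * ∫ θ in (0:ℝ)..(2 * π), Ψ (Complex.exp (θ * I))) := by
    rw [← h3]; exact h1.trans h2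
  have h7 : 2 * π * -K1 ≤
      2 * π * (Real.log C + 1) - A * ∫ θ in (0:ℝ)..(2 * π), Ψ (Complex.exp (θ * I)) := by
    have := mul_le_mul_of_nonneg_left h6 (by positivity : 0 ≤ 2 * π)
    rwa [mul_inv_cancel_left₀ (by positivity)] at this
  have h8 : A * M ≤ A * ∫ θ in (0:ℝ)..(2 * π), Ψ (Complex.exp (θ * I)) :=
    mul_le_mul_of_nonneg_left h5 hA0.le
  have h9 : A * M = 2 * π * (Real.log C + 1 + K1) + A := by
    rw [hM]
    field_simp
  rw [h9] at h8
  linarith

/-- the singleton case with exponent one -/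
lemma diverge_one (M : ℝ) : ∃ h : ℝ, 0 < h ∧ h ≤ 1 / 2 ∧
    M ≤ ∫ x in (-1:ℝ)..1, (infDist (cay x) {(1:ℂ)} + h) ^ (-(1:ℝ)) := by
  set h : ℝ := min (1 / 2) (Real.exp (-(2 * |M|))) with hh
  have hh0 : 0 < h := lt_min (by norm_num) (Real.exp_pos _)
  refine ⟨h, hh0, min_le_left _ _, ?_⟩
  have hcay0 : cay 0 = 1 := by unfold cay; simp
  have hpt : ∀ x : ℝ, 0 ≤ x → (2 * x + h)⁻¹ ≤ (infDist (cay x) {(1:ℂ)} + h) ^ (-(1:ℝ)) := by
    intro x hx
    rw [Real.rpow_neg_one, infDist_singleton, dist_eq_norm, ← hcay0]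
    have h1 := cay_sub_le x 0
    rw [sub_zero, abs_of_nonneg hx] at h1
    have h2 := norm_nonneg (cay x - cay 0)
    gcongr
  have hc := dist_cont 1 {(1:ℂ)} hh0
  have h1 : ∫ x in (0:ℝ)..1, (2 * x + h)⁻¹ ≤
      ∫ x in (0:ℝ)..1, (infDist (cay x) {(1:ℂ)} + h) ^ (-(1:ℝ)) := by
    apply intervalIntegral.integral_mono_on (by norm_num)
    · apply ContinuousOn.intervalIntegrable
      apply ContinuousOn.inv₀ (by fun_prop)
      intro x hx
      rw [uIcc_of_le (by norm_num)] at hx
      linarith [hx.1]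
    · exact hc.intervalIntegrable _ _
    · intro x hx
      exact hpt x hx.1
  have h2 : ∫ x in (0:ℝ)..1, (infDist (cay x) {(1:ℂ)} + h) ^ (-(1:ℝ)) ≤
      ∫ x in (-1:ℝ)..1, (infDist (cay x) {(1:ℂ)} + h) ^ (-(1:ℝ)) := by
    apply intervalIntegral.integral_mono_interval (by norm_num) (by norm_num) (by norm_num)
    · refine Eventually.of_forall fun x => ?_
      have : 0 ≤ infDist (cay x) {(1:ℂ)} := infDist_nonneg
      exact Real.rpow_nonneg (by linarith) _
    · exact hc.intervalIntegrable _ _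
  have h3 : ∫ x in (0:ℝ)..1, (2 * x + h)⁻¹ = 1 / 2 * (Real.log (2 + h) - Real.log h) := by
    have h4 : ∀ x ∈ uIcc (0:ℝ) 1, HasDerivAt (fun x => 1 / 2 * Real.log (2 * x + h))
        ((2 * x + h)⁻¹) x := by
      intro x hx
      rw [uIcc_of_le (by norm_num)] at hx
      have hne : 2 * x + h ≠ 0 := by linarith [hx.1]
      have h5 : HasDerivAt (fun x : ℝ => 2 * x + h) 2 x := by
        simpa using ((hasDerivAt_id x).const_mul 2).add_const h
      have h6 := (h5.log hne).const_mul (1 / 2)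
      refine h6.congr_deriv ?_
      field_simp
    rw [intervalIntegral.integral_eq_sub_of_hasDerivAt h4]
    · norm_num
      ring
    · apply ContinuousOn.intervalIntegrable
      apply ContinuousOn.inv₀ (by fun_prop)
      intro x hx
      rw [uIcc_of_le (by norm_num)] at hx
      linarith [hx.1]
  have h4 : 0 ≤ Real.log (2 + h) := Real.log_nonneg (by linarith)
  have h5 : Real.log h ≤ -(2 * |M|) := by
    have := Real.log_le_log hh0 (min_le_right (1 / 2) (Real.exp (-(2 * |M|))))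
    rwa [Real.log_exp] at this
  have h6 := le_abs_self M
  rw [h3] at h1
  linarith

end Pool.Agent.E8helper79.PS
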